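import Mathlib

/-! Definitions for relaxed Douglas-Rachford splitting (MP_675b5c_an). -/

namespace Pool.Agent.helper73.DRS

open scoped RealInnerProductSpace

/-- `u` is a subgradient of `f` at `x`. -/
def IsSubgrad {n : ℕ} (f : EuclideanSpace ℝ (Fin n) → ℝ) (x u : EuclideanSpace ℝ (Fin n)) : Prop :=
  ∀ y, f x + ⟪u, y - x⟫ ≤ f y

/-- `f` is `L`-smooth: its subdifferential is `1/L`-cocoercive. -/
def IsSmooth {n : ℕ} (L : ℝ) (f : EuclideanSpace ℝ (Fin n) → ℝ) : Prop :=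
  ∀ x y u v, IsSubgrad f x u → IsSubgrad f y v → 1 / L * ‖u - v‖ ^ 2 ≤ ⟪u - v, x - y⟫

/-- `x = prox_{γ h} (z)`: `x` minimises `h + ‖· - z‖² / (2γ)`. -/
def IsProx {n : ℕ} (γ : ℝ) (h : EuclideanSpace ℝ (Fin n) → ℝ) (z x : EuclideanSpace ℝ (Fin n)) :
    Prop :=
  ∀ y, h x + 1 / (2 * γ) * ‖x - z‖ ^ 2 ≤ h y + 1 / (2 * γ) * ‖y - z‖ ^ 2

end Pool.Agent.helper73.DRS
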