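import Pool.Agent.helper73.DRS.Core

/-! The general dual-certificate theorem for relaxed Douglas-Rachford splitting: multipliers and
potentials (one-coordinate quadratic forms) give the last-iterate bound. -/

namespace Pool.Agent.helper73.DRS

open Finset

/-- A certificate for `N + 1` iterations with relaxation parameter `lam`: multipliers `th, ka, T, be`
and potentials `P`, with steps using `iLs` and the last iteration using `iLt` in place of `1 / L`. -/
structure Cert (N : ℕ) (lam iLs iLt : ℝ) where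
  th : ℕ → ℝ
  ka : ℕ → ℝ
  T : ℕ → ℝ
  be : ℕ → ℝ
  P : ℕ → ℝ → ℝ → ℝ → ℝ
  th0 : th 0 = 0
  ka0 : ka 0 = 0
  T0 : T 0 = 0
  be0 : be 0 = 0
  P0 : ∀ z u c, P 0 z u c = 0
  hA : ∀ k < N, th k ≤ th (k + 1)
  htau : ∀ k < N, T k ≤ T (k + 1)
  hb : ∀ k < N, be k ≤ be (k + 1)
  hrho : ∀ k < N, th (k + 1) * (2 * (N * lam + 1) - k * lam - 1) ≤ k * lam + lam
  hmu : ∀ k < N, 0 ≤ phiS (2 * (N * lam + 1) - k * lam - lam) (th (k + 1)) (ka (k + 1)) (T (k + 1))
      (be (k + 1)) - phiS (2 * (N * lam + 1) - k * lam) (th k) (ka k) (T k) (be k)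
      + (T (k + 1) - T k) / (2 * (N * lam + 1) - k * lam)
      + (be (k + 1) - be k) / (2 * (N * lam + 1) - k * lam)
  hnu : ∀ k < N, 0 ≤ k * lam + lam - T (k + 1) - be (k + 1) - (2 * (N * lam + 1) - k * lam) *
      phiS (2 * (N * lam + 1) - k * lam - lam) (th (k + 1)) (ka (k + 1)) (T (k + 1)) (be (k + 1))
  hP : ∀ k < N, 0 ≤ lam * phiS (2 * (N * lam + 1) - k * lam - lam) (th (k + 1)) (ka (k + 1))
      (T (k + 1)) (be (k + 1)) + (k * lam + lam - T (k + 1) - be (k + 1)
      - (2 * (N * lam + 1) - k * lam) *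
      phiS (2 * (N * lam + 1) - k * lam - lam) (th (k + 1)) (ka (k + 1)) (T (k + 1)) (be (k + 1)))
  hthN : th N ≤ 1
  hTN : T N ≤ 1
  hbeN : be N ≤ N * lam + 1
  hmuN : 0 ≤ 1 - th N + ka N
  ha : 0 ≤ 1 - ∑ k ∈ range N, (be (k + 1) - be k) / (2 * (N * lam + 1) - k * lam)
      - (N * lam + 1 - be N) / (N * lam + 1 + 1)
  hstep : ∀ k < N, ∀ z u de h c : ℝ,
    P (k + 1) ((2 * (N * lam + 1) - k * lam) / (2 * (N * lam + 1) - k * lam - lam) * z
        - de / (2 * (N * lam + 1) - k * lam - lam) - h) (u + de) c ≤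
      P k z u c + stepS lam iLs (k * lam) (2 * (N * lam + 1) - k * lam) (th k) (ka k) (T k) (be k)
        (th (k + 1)) (ka (k + 1)) (T (k + 1)) (be (k + 1)) z u de h c
  hterm : ∀ z u c : ℝ, 0 ≤ P N z u c + termS iLt (N * lam + 1) (th N) (ka N) (T N) (be N)
      (1 - ∑ k ∈ range N, (be (k + 1) - be k) / (2 * (N * lam + 1) - k * lam)
        - (N * lam + 1 - be N) / (N * lam + 1 + 1)) z u c

theorem Cert.bound {n N : ℕ} {lam iL iLs iLt : ℝ} (C : Cert N lam iLs iLt) (hlam : 0 < lam)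
    (hLs : iLs ≤ iL) (hLt : iLt ≤ iL)
    (w u d : ℕ → Fin n → ℝ) (c y : Fin n → ℝ) (f g : ℕ → ℝ) (FY : ℝ)
    (hw : ∀ k < N, ∀ i, w (k + 1) i = w k i - lam * d k i)
    (hy : ∀ i, y i = w N i - u N i - d N i)
    (s1 : ∀ k ≤ N, f k + iL / 2 * ∑ i, u k i ^ 2 ≤ ∑ i, u k i * (w k i - u k i))
    (s2 : ∀ k ≤ N, iL / 2 * ∑ i, u k i ^ 2 ≤ f k)
    (s3 : ∀ k < N, f (k + 1) + ∑ i, u (k + 1) i * (lam * d k i + (u (k + 1) i - u k i))
      + iL / 2 * ∑ i, (u (k + 1) i - u k i) ^ 2 ≤ f k)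
    (s4 : ∀ k < N, f k + iL / 2 * ∑ i, (u (k + 1) i - u k i) ^ 2 ≤ f (k + 1)
      + ∑ i, u k i * (lam * d k i + (u (k + 1) i - u k i)))
    (s5 : ∀ k ≤ N, FY + ∑ i, c i * (w k i - u k i - y i) + iL / 2 * ∑ i, (u k i - c i) ^ 2 ≤ f k)
    (s6 : FY + iL / 2 * ∑ i, c i ^ 2 ≤ ∑ i, c i * y i)
    (j1 : ∀ k ≤ N, g k ≤ ∑ i, (d k i - u k i) * (w k i - u k i - d k i))
    (j3 : ∀ k < N, g (k + 1) + ∑ i, (d (k + 1) i - u (k + 1) i) *
      (lam * d k i + (u (k + 1) i - u k i) + (d (k + 1) i - d k i)) ≤ g k)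
    (j4 : ∀ k < N, g k ≤ g (k + 1) + ∑ i, (d k i - u k i) *
      (lam * d k i + (u (k + 1) i - u k i) + (d (k + 1) i - d k i))) :
    FY + g N ≤ (∑ i, w 0 i ^ 2) / (4 * (N * lam + 1)) := by
  classical
  set S : ℝ := N * lam + 1 with hSdef
  have hNl : (0 : ℝ) ≤ N * lam := by positivity
  have hMk : ∀ k : ℕ, k < N → S + 1 ≤ 2 * S - k * lam - lam := by
    intro k hk
    have h1 : (k : ℝ) + 1 ≤ N := by exact_mod_cast hk
    have h2 : ((k : ℝ) + 1) * lam ≤ N * lam := by gcongr
    rw [hSdef]; nlinarith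
  have hMk' : ∀ k : ℕ, k ≤ N → S + 1 ≤ 2 * S - k * lam := by
    intro k hk
    have h1 : (k : ℝ) ≤ N := by exact_mod_cast hk
    have h2 : (k : ℝ) * lam ≤ N * lam := by gcongr
    rw [hSdef]; nlinarith
  set Bs : ℕ → ℝ := fun k => ∑ j ∈ range k, (C.be (j + 1) - C.be j) / (2 * S - j * lam) with hBs
  set Psi : ℕ → ℝ := fun k => phiS (2 * S - k * lam) (C.th k) (C.ka k) (C.T k) (C.be k) * f k
    + C.th k * g k + Bs k * FY
    + ∑ i, psiS (k * lam) (2 * S - k * lam) (C.th k) (C.ka k) (C.T k) (C.be k) (Bs k)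
        (w k i) (u k i) (d k i) (c i) (y i)
    + ∑ i, C.P k ((w k i - u k i) / (2 * S - k * lam) - d k i) (u k i) (c i) with hPsi
  have hdec : ∀ k < N, Psi (k + 1) ≤ Psi k := by
    intro k hk
    have hM' := hMk k hk
    have hM := hMk' k hk.le
    have hS1 : 1 ≤ S := by rw [hSdef]; linarith
    set M : ℝ := 2 * S - k * lam with hMdef
    have hM0 : 0 < M := by linarith
    have hM'0 : 0 < M - lam := by linarith
    have hcast : ((k + 1 : ℕ) : ℝ) * lam = k * lam + lam := by push_cast; ring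
    have hMs : 2 * S - ((k + 1 : ℕ) : ℝ) * lam = M - lam := by rw [hcast, hMdef]; ring
    have hBss : Bs (k + 1) = Bs k + (C.be (k + 1) - C.be k) / M := by
      simp only [hBs]
      rw [Finset.sum_range_succ]
    -- abbreviations for the multipliers
    set mu : ℝ := phiS (M - lam) (C.th (k + 1)) (C.ka (k + 1)) (C.T (k + 1)) (C.be (k + 1))
      - phiS M (C.th k) (C.ka k) (C.T k) (C.be k) + (C.T (k + 1) - C.T k) / M
      + (C.be (k + 1) - C.be k) / M with hmu
    set tau : ℝ := (C.T (k + 1) - C.T k) / M with htau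
    set b : ℝ := (C.be (k + 1) - C.be k) / M with hb
    set ph : ℝ := phiS (M - lam) (C.th (k + 1)) (C.ka (k + 1)) (C.T (k + 1)) (C.be (k + 1)) with hph
    set nu : ℝ := (k * lam + lam - C.T (k + 1) - C.be (k + 1) - M * ph) / lam with hnu
    set rho : ℝ := (k * lam + lam - C.th (k + 1) * (M - 1)) / lam with hrho
    have hmu0 : 0 ≤ mu := by
      have := C.hmu k hk
      simpa only [hmu, ← hSdef, ← hMdef] using this
    have htau0 : 0 ≤ tau := div_nonneg (by linarith [C.htau k hk]) hM0.le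
    have hb0 : 0 ≤ b := div_nonneg (by linarith [C.hb k hk]) hM0.le
    have hnu0 : 0 ≤ nu := by
      refine div_nonneg ?_ hlam.le
      have := C.hnu k hk
      simpa only [hph, ← hSdef, ← hMdef] using this
    have hP0 : 0 ≤ ph + nu := by
      have h1 := C.hP k hk
      have h2 : 0 ≤ lam * ph + (k * lam + lam - C.T (k + 1) - C.be (k + 1) - M * ph) := by
        simpa only [hph, ← hSdef, ← hMdef] using h1
      have h3 : ph + nu = (lam * ph + (k * lam + lam - C.T (k + 1) - C.be (k + 1) - M * ph)) / lam := by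
        rw [hnu]; field_simp
      rw [h3]; exact div_nonneg h2 hlam.le
    have hrho0 : 0 ≤ rho := by
      refine div_nonneg ?_ hlam.le
      have h1 := C.hrho k hk
      have h2 : C.th (k + 1) * (M - 1) ≤ k * lam + lam := by
        simpa only [← hSdef, ← hMdef] using h1
      linarith
    have hA0 : 0 ≤ C.th (k + 1) - C.th k := by linarith [C.hA k hk]
    have hth : ∀ j : ℕ, j ≤ N → 0 ≤ C.th j := by
      intro j
      induction j with
      | zero => intro _; rw [C.th0]
      | succ j ih => intro hj; exact (ih (by omega)).trans (C.hA j (by omega))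
    have hth0 : 0 ≤ C.th (k + 1) + rho := by linarith [hth (k + 1) (by omega)]
    -- scalar identities
    have hid : ∀ i, psiS (k * lam) M (C.th k) (C.ka k) (C.T k) (C.be k) (Bs k)
          (w k i) (u k i) (d k i) (c i) (y i)
        = psiS (k * lam + lam) (M - lam) (C.th (k + 1)) (C.ka (k + 1)) (C.T (k + 1)) (C.be (k + 1))
          (Bs k + b) (w (k + 1) i) (u (k + 1) i) (d (k + 1) i) (c i) (y i)
        + (mu * (u k i * (w k i - u k i)) - mu * (iLs / 2) * u k i ^ 2
          + (- (tau * (iLs / 2) * u k i ^ 2))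
          + (- (b * (c i * (w k i - u k i - y i))) - b * (iLs / 2) * (u k i - c i) ^ 2)
          + (C.th (k + 1) - C.th k) * ((d k i - u k i) * (w k i - u k i - d k i))
          + (- ((ph + nu) * (u (k + 1) i * (lam * d k i + (u (k + 1) i - u k i))))
              - (ph + nu) * (iLs / 2) * (u (k + 1) i - u k i) ^ 2)
          + (nu * (u k i * (lam * d k i + (u (k + 1) i - u k i)))
              - nu * (iLs / 2) * (u (k + 1) i - u k i) ^ 2)
          + (- ((C.th (k + 1) + rho) * ((d (k + 1) i - u (k + 1) i) *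
              (lam * d k i + (u (k + 1) i - u k i) + (d (k + 1) i - d k i)))))
          + rho * ((d k i - u k i) *
              (lam * d k i + (u (k + 1) i - u k i) + (d (k + 1) i - d k i)))
          + stepS lam iLs (k * lam) M (C.th k) (C.ka k) (C.T k) (C.be k) (C.th (k + 1))
            (C.ka (k + 1)) (C.T (k + 1)) (C.be (k + 1)) ((w k i - u k i) / M - d k i) (u k i)
            (u (k + 1) i - u k i) (d (k + 1) i - d k i) (c i)) := by
      intro i
      have h := step_identity lam iLs (k * lam) M (C.th k) (C.ka k) (C.T k) (C.be k) (Bs k)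
        (C.th (k + 1)) (C.ka (k + 1)) (C.T (k + 1)) (C.be (k + 1)) (w k i) (u k i) (d k i)
        (u (k + 1) i - u k i) (d (k + 1) i - d k i) (c i) (y i) hlam.ne' hM0.ne' hM'0.ne'
      rw [← hw k hk i] at h
      have e1 : u k i + (u (k + 1) i - u k i) = u (k + 1) i := by ring
      have e2 : d k i + (d (k + 1) i - d k i) = d (k + 1) i := by ring
      rw [e1, e2] at h
      rw [← hph, ← htau, ← hb, ← hnu, ← hrho] at h
      linear_combination h
    have hPst : ∀ i, C.P (k + 1) ((w (k + 1) i - u (k + 1) i) / (M - lam) - d (k + 1) i)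
          (u (k + 1) i) (c i)
        ≤ C.P k ((w k i - u k i) / M - d k i) (u k i) (c i)
          + stepS lam iLs (k * lam) M (C.th k) (C.ka k) (C.T k) (C.be k) (C.th (k + 1))
            (C.ka (k + 1)) (C.T (k + 1)) (C.be (k + 1)) ((w k i - u k i) / M - d k i) (u k i)
            (u (k + 1) i - u k i) (d (k + 1) i - d k i) (c i) := by
      intro i
      have h := C.hstep k hk ((w k i - u k i) / M - d k i) (u k i) (u (k + 1) i - u k i)
        (d (k + 1) i - d k i) (c i)
      rw [← hSdef, ← hMdef] at h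
      have e1 : u k i + (u (k + 1) i - u k i) = u (k + 1) i := by ring
      have e3 : M / (M - lam) * ((w k i - u k i) / M - d k i) - (u (k + 1) i - u k i) / (M - lam)
          - (d (k + 1) i - d k i) = (w (k + 1) i - u (k + 1) i) / (M - lam) - d (k + 1) i := by
        rw [hw k hk i]
        field_simp
        ring
      rw [e1, e3] at h
      exact h
    have hsum1 := Finset.sum_congr rfl (fun i (_ : i ∈ (Finset.univ : Finset (Fin n))) => hid i)
    have hsum2 := Finset.sum_le_sum (fun i (_ : i ∈ (Finset.univ : Finset (Fin n))) => hPst i)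
    simp only [Finset.sum_add_distrib, Finset.sum_sub_distrib, Finset.sum_neg_distrib,
      ← Finset.mul_sum] at hsum1 hsum2
    have q1 := mul_nonneg hmu0 (sub_nonneg.mpr (s1 k hk.le))
    have q2 := mul_nonneg htau0 (sub_nonneg.mpr (s2 k hk.le))
    have q3 := mul_nonneg hP0 (sub_nonneg.mpr (s3 k hk))
    have q4 := mul_nonneg hnu0 (sub_nonneg.mpr (s4 k hk))
    have q5 := mul_nonneg hb0 (sub_nonneg.mpr (s5 k hk.le))
    have q6 := mul_nonneg hA0 (sub_nonneg.mpr (j1 k hk.le))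
    have q7 := mul_nonneg hth0 (sub_nonneg.mpr (j3 k hk))
    have q8 := mul_nonneg hrho0 (sub_nonneg.mpr (j4 k hk))
    have hsq : ∀ v : Fin n → ℝ, 0 ≤ ∑ i, v i ^ 2 := fun v => Finset.sum_nonneg (fun i _ => sq_nonneg _)
    have r1 := mul_nonneg (mul_nonneg hmu0 (sub_nonneg.mpr hLs)) (hsq (u k))
    have r2 := mul_nonneg (mul_nonneg htau0 (sub_nonneg.mpr hLs)) (hsq (u k))
    have r3 := mul_nonneg (mul_nonneg hP0 (sub_nonneg.mpr hLs)) (hsq (fun i => u (k + 1) i - u k i))
    have r4 := mul_nonneg (mul_nonneg hnu0 (sub_nonneg.mpr hLs)) (hsq (fun i => u (k + 1) i - u k i))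
    have r5 := mul_nonneg (mul_nonneg hb0 (sub_nonneg.mpr hLs)) (hsq (fun i => u k i - c i))
    simp only [hPsi]
    rw [hMs, hcast, hBss, ← hph]
    have hmu' : phiS M (C.th k) (C.ka k) (C.T k) (C.be k) = ph - mu + tau + b := by
      rw [hmu]; ring
    rw [hmu', hsum1]
    rw [← hMdef]
    linarith [hsum2, q1, q2, q3, q4, q5, q6, q7, q8, r1, r2, r3, r4, r5]
  have hall : ∀ k ≤ N, Psi k ≤ Psi 0 := by
    intro k
    induction k with
    | zero => intro _; exact le_rfl
    | succ k ih => intro hk; exact (hdec k (by omega)).trans (ih (by omega))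
  have hfin := hall N le_rfl
  -- the start
  have hM00 : 2 * S - ((0 : ℕ) : ℝ) * lam = 2 * S := by simp
  have hPsi0 : Psi 0 = (∑ i, w 0 i ^ 2) / (4 * S) := by
    simp only [hPsi]
    rw [hM00, C.th0, C.ka0, C.T0, C.be0]
    have e1 : Bs 0 = 0 := by simp [hBs]
    rw [e1]
    have e2 : ∀ i, psiS (((0 : ℕ) : ℝ) * lam) (2 * S) 0 0 0 0 0 (w 0 i) (u 0 i) (d 0 i) (c i) (y i)
        = 1 / (4 * S) * w 0 i ^ 2 := by
      intro i
      unfold psiS
      have hS0 : S ≠ 0 := by rw [hSdef]; positivity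
      push_cast
      field_simp
      ring
    simp only [e2, C.P0]
    rw [← Finset.mul_sum]
    unfold phiS
    simp only [Finset.sum_const_zero]
    ring
  -- the end
  have hSpos : 0 < S := by rw [hSdef]; positivity
  have hMN : 2 * S - (N : ℝ) * lam = S + 1 := by rw [hSdef]; ring
  have hNS : (N : ℝ) * lam = S - 1 := by rw [hSdef]; ring
  set a : ℝ := 1 - ∑ k ∈ range N, (C.be (k + 1) - C.be k) / (2 * S - k * lam)
      - (S - C.be N) / (S + 1) with hadef
  have ha0 : 0 ≤ a := C.ha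
  have haB : a = 1 - Bs N - (S - C.be N) / (S + 1) := by rw [hadef]
  have hid : ∀ i, psiS (S - 1) (S + 1) (C.th N) (C.ka N) (C.T N) (C.be N) (Bs N)
        (w N i) (u N i) (d N i) (c i) (y i)
      = (1 - C.th N + C.ka N) * (u N i * (w N i - u N i))
          - (1 - C.th N + C.ka N) * (iLt / 2) * u N i ^ 2
        + (- ((1 - C.T N) / (S + 1) * (iLt / 2) * u N i ^ 2))
        + (- ((S - C.be N) / (S + 1) * (c i * (w N i - u N i - y i)))
            - (S - C.be N) / (S + 1) * (iLt / 2) * (u N i - c i) ^ 2)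
        + (a * (c i * y i) - a * (iLt / 2) * c i ^ 2)
        + (1 - C.th N) * ((d N i - u N i) * (w N i - u N i - d N i))
        + termS iLt S (C.th N) (C.ka N) (C.T N) (C.be N) a
            ((w N i - u N i) / (S + 1) - d N i) (u N i) (c i) := by
    intro i
    have h := term_identity iLt S (C.th N) (C.ka N) (C.T N) (C.be N) (Bs N) a (w N i) (u N i)
      (d N i) (c i) (by positivity) haB
    rw [← hy i] at h
    linear_combination h + (1 - C.th N) * (d N i - u N i) * hy i
  have hPst : ∀ i, 0 ≤ C.P N ((w N i - u N i) / (S + 1) - d N i) (u N i) (c i)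
      + termS iLt S (C.th N) (C.ka N) (C.T N) (C.be N) a
            ((w N i - u N i) / (S + 1) - d N i) (u N i) (c i) := fun i => C.hterm _ _ _
  have hsum1 := Finset.sum_congr rfl (fun i (_ : i ∈ (Finset.univ : Finset (Fin n))) => hid i)
  have hsum2 := Finset.sum_nonneg (fun i (_ : i ∈ (Finset.univ : Finset (Fin n))) => hPst i)
  simp only [Finset.sum_add_distrib, Finset.sum_sub_distrib, Finset.sum_neg_distrib,
    ← Finset.mul_sum] at hsum1 hsum2
  have hmu0 : 0 ≤ 1 - C.th N + C.ka N := C.hmuN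
  have htau0 : 0 ≤ (1 - C.T N) / (S + 1) := div_nonneg (by linarith [C.hTN]) (by linarith)
  have hb0 : 0 ≤ (S - C.be N) / (S + 1) := by
    refine div_nonneg ?_ (by linarith)
    have := C.hbeN
    rw [← hSdef] at this
    linarith
  have hA0 : 0 ≤ 1 - C.th N := by linarith [C.hthN]
  have q1 := mul_nonneg hmu0 (sub_nonneg.mpr (s1 N le_rfl))
  have q2 := mul_nonneg htau0 (sub_nonneg.mpr (s2 N le_rfl))
  have q5 := mul_nonneg hb0 (sub_nonneg.mpr (s5 N le_rfl))
  have q6 := mul_nonneg hA0 (sub_nonneg.mpr (j1 N le_rfl))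
  have q7 := mul_nonneg ha0 (sub_nonneg.mpr s6)
  have hsq : ∀ v : Fin n → ℝ, 0 ≤ ∑ i, v i ^ 2 := fun v => Finset.sum_nonneg (fun i _ => sq_nonneg _)
  have r1 := mul_nonneg (mul_nonneg hmu0 (sub_nonneg.mpr hLt)) (hsq (u N))
  have r2 := mul_nonneg (mul_nonneg htau0 (sub_nonneg.mpr hLt)) (hsq (u N))
  have r5 := mul_nonneg (mul_nonneg hb0 (sub_nonneg.mpr hLt)) (hsq (fun i => u N i - c i))
  have r6 := mul_nonneg (mul_nonneg ha0 (sub_nonneg.mpr hLt)) (hsq c)
  have hPsiN : FY + g N ≤ Psi N := by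
    simp only [hPsi]
    rw [hMN, hNS, hsum1]
    have hph : phiS (S + 1) (C.th N) (C.ka N) (C.T N) (C.be N)
        = C.th N - C.ka N - (C.T N + C.be N) / (S + 1) := rfl
    have hBN : Bs N = 1 - a - (S - C.be N) / (S + 1) := by rw [haB]; ring
    have hph2 : phiS (S + 1) (C.th N) (C.ka N) (C.T N) (C.be N)
        = (1 - C.T N) / (S + 1) + (S - C.be N) / (S + 1) - (1 - C.th N + C.ka N) := by
      rw [hph]; field_simp; ring
    rw [hph2, hBN]
    linarith [hsum2, q1, q2, q5, q6, q7, r1, r2, r5, r6]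
  rw [hPsi0] at hfin
  linarith

end Pool.Agent.helper73.DRS
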