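import Pool.Agent.helper73.DRS.Forms
import Pool.Agent.helper73.DRS.Core2

/-! From checked polynomial forms to certificates. -/

namespace Pool.Agent.helper73.DRS

open Finset

/-! ### evaluation of the data -/

noncomputable def Pot.ev (x t u : ℝ) (N : Pot SP) : Pot ℝ :=
  ⟨N.zz.ev x t u, N.zu.ev x t u, N.uu.ev x t u, N.zc.ev x t u, N.uc.ev x t u, N.cc.ev x t u⟩

noncomputable def StepIn.ev (x t u : ℝ) (I : StepIn SP) : StepIn ℝ :=
  ⟨I.la.ev x t u, I.x.ev x t u, I.M.ev x t u, I.M1.ev x t u, I.D.ev x t u, I.Dm.ev x t u,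
    I.a1.ev x t u, I.a0.ev x t u, I.k1.ev x t u, I.k0.ev x t u, I.T1.ev x t u, I.T0.ev x t u,
    I.b1.ev x t u, I.b0.ev x t u, I.iL.ev x t u, I.W.ev x t u, I.N0.ev x t u, I.N1.ev x t u⟩

noncomputable def TermIn.ev (x t u : ℝ) (J : TermIn SP) : TermIn ℝ :=
  ⟨J.S.ev x t u, J.S1.ev x t u, J.D.ev x t u, J.a0.ev x t u, J.k0.ev x t u, J.T0.ev x t u,
    J.b0.ev x t u, J.V.ev x t u, J.aN.ev x t u, J.iL.ev x t u, J.N.ev x t u⟩

theorem SP.ev_0 (x t u : ℝ) : SP.ev x t u 0 = 0 := by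
  have := SP.ev_ofNat x t u 0; simpa using this

theorem SP.ev_1 (x t u : ℝ) : SP.ev x t u 1 = 1 := by
  have := SP.ev_ofNat x t u 1; simpa using this

theorem SP.ev_2 (x t u : ℝ) : SP.ev x t u 2 = 2 := by
  have := SP.ev_ofNat x t u 2; simpa using this

theorem stepE_ev (x t u : ℝ) (I : StepIn SP) :
    (stepE I).map (fun r => r.map (SP.ev x t u)) = stepE (I.ev x t u) := by
  simp only [stepE, addRows, stepB, stepP, List.zipWith_cons_cons, List.zipWith_nil_right,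
    List.map_cons, List.map_nil, SP.ev_add, SP.ev_sub, SP.ev_mul, SP.ev_0, SP.ev_1, SP.ev_2,
    StepIn.ev, Pot.ev]

set_option linter.unusedSimpArgs false in
theorem stepC_ev (x t u : ℝ) (I : StepIn SP) :
    (stepC I).map (SP.ev x t u) = stepC (I.ev x t u) := by
  simp only [stepC, List.map_cons, List.map_nil, SP.ev_add, SP.ev_sub, SP.ev_mul, SP.ev_0,
    SP.ev_1, SP.ev_2, StepIn.ev]

set_option linter.unusedSimpArgs false in
theorem termE_ev (x t u : ℝ) (J : TermIn SP) :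
    (termE J).map (fun r => r.map (SP.ev x t u)) = termE (J.ev x t u) := by
  simp only [termE, List.map_cons, List.map_nil, SP.ev_add, SP.ev_sub, SP.ev_mul, SP.ev_0,
    SP.ev_1, SP.ev_2, TermIn.ev, Pot.ev]

set_option linter.unusedSimpArgs false in
theorem termC_ev (x t u : ℝ) (J : TermIn SP) :
    (termC J).map (SP.ev x t u) = termC (J.ev x t u) := by
  simp only [termC, List.map_cons, List.map_nil, SP.ev_add, SP.ev_sub, SP.ev_mul, SP.ev_0,
    SP.ev_1, SP.ev_2, TermIn.ev]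

/-! ### validity of a step and of the last form -/

def StepOK (I : StepIn ℝ) : Prop :=
  (∀ a ∈ stepC I, 0 ≤ a) ∧ ∀ z u d h c : ℝ, 0 ≤ qfR (stepE I) [z, u, d, h, c]

def TermOK (J : TermIn ℝ) : Prop :=
  (∀ a ∈ termC J, 0 ≤ a) ∧ ∀ z u c : ℝ, 0 ≤ qfR (termE J) [z, u, c]

/-- check of scalar conditions -/
def chkC (d E : ℕ) (l : List SP) : Bool := l.all (fun s => chkQ 1 d E [[s]])

theorem chkC_sound {d E : ℕ} {l : List SP} (h : chkC d E l = true) {x t u : ℝ} (hx0 : 0 ≤ x)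
    (hx1 : x ≤ 1) (ht : 0 ≤ t) (hu : 0 ≤ u) : ∀ a ∈ l.map (SP.ev x t u), 0 ≤ a := by
  intro a ha
  rw [List.mem_map] at ha
  obtain ⟨s, hs, rfl⟩ := ha
  unfold chkC at h
  rw [List.all_eq_true] at h
  have h1 := chkQ_sound (h s hs) hx0 hx1 ht hu [1]
  simpa [qfR, rowR, dotR] using h1

def SP.id' (s : SP) : SP := s

theorem stepOK_of_chk {I : StepIn SP} {f0 f1 f2 f3 f4 : SP → SP} {r0 r1 r2 r3 r4 x t u : ℝ}
    {n d E d' E' : ℕ}
    (hQ : chkQ n d E (scl5 f0 f1 f2 f3 f4 (stepE I)) = true) (hC : chkC d' E' (stepC I) = true)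
    (hx0 : 0 ≤ x) (hx1 : x ≤ 1) (ht : 0 ≤ t) (hu : 0 ≤ u)
    (h0 : ∀ a, SP.ev x t u (f0 a) = SP.ev x t u a * r0)
    (h1 : ∀ a, SP.ev x t u (f1 a) = SP.ev x t u a * r1)
    (h2 : ∀ a, SP.ev x t u (f2 a) = SP.ev x t u a * r2)
    (h3 : ∀ a, SP.ev x t u (f3 a) = SP.ev x t u a * r3)
    (h4 : ∀ a, SP.ev x t u (f4 a) = SP.ev x t u a * r4)
    (p0 : 0 < r0) (p1 : 0 < r1) (p2 : 0 < r2) (p3 : 0 < r3) (p4 : 0 < r4) :
    StepOK (I.ev x t u) := by
  refine ⟨?_, fun z v d h c => ?_⟩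
  · rw [← stepC_ev]; exact chkC_sound hC hx0 hx1 ht hu
  · have hq := chkQ_sound hQ hx0 hx1 ht hu [z / r0, v / r1, d / r2, h / r3, c / r4]
    rw [← stepE_ev]
    generalize hE : stepE I = e at hq ⊢
    have hs : ∃ a00 a01 a02 a03 a04 a11 a12 a13 a14 a22 a23 a24 a33 a34 a44, e =
        [[a00, a01, a02, a03, a04], [a11, a12, a13, a14], [a22, a23, a24], [a33, a34], [a44]] :=
      ⟨_, _, _, _, _, _, _, _, _, _, _, _, _, _, _, hE.symm⟩
    obtain ⟨a00, a01, a02, a03, a04, a11, a12, a13, a14, a22, a23, a24, a33, a34, a44, rfl⟩ := hs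
    simp only [scl5, List.map_cons, List.map_nil, h0, h1, h2, h3, h4] at hq
    have h5 := scl5_eq r0 r1 r2 r3 r4 (a00.ev x t u) (a01.ev x t u) (a02.ev x t u) (a03.ev x t u)
      (a04.ev x t u) (a11.ev x t u) (a12.ev x t u) (a13.ev x t u) (a14.ev x t u) (a22.ev x t u)
      (a23.ev x t u) (a24.ev x t u) (a33.ev x t u) (a34.ev x t u) (a44.ev x t u)
      (z / r0) (v / r1) (d / r2) (h / r3) (c / r4)
    simp only [scl5] at h5
    rw [h5] at hq
    rw [mul_div_cancel₀ _ p0.ne', mul_div_cancel₀ _ p1.ne', mul_div_cancel₀ _ p2.ne',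
      mul_div_cancel₀ _ p3.ne', mul_div_cancel₀ _ p4.ne'] at hq
    simpa only [List.map_cons, List.map_nil] using hq

theorem termOK_of_chk {J : TermIn SP} {f0 f1 f2 : SP → SP} {r0 r1 r2 x t u : ℝ}
    {n d E d' E' : ℕ}
    (hQ : chkQ n d E (scl3 f0 f1 f2 (termE J)) = true) (hC : chkC d' E' (termC J) = true)
    (hx0 : 0 ≤ x) (hx1 : x ≤ 1) (ht : 0 ≤ t) (hu : 0 ≤ u)
    (h0 : ∀ a, SP.ev x t u (f0 a) = SP.ev x t u a * r0)
    (h1 : ∀ a, SP.ev x t u (f1 a) = SP.ev x t u a * r1)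
    (h2 : ∀ a, SP.ev x t u (f2 a) = SP.ev x t u a * r2)
    (p0 : 0 < r0) (p1 : 0 < r1) (p2 : 0 < r2) :
    TermOK (J.ev x t u) := by
  refine ⟨?_, fun z v c => ?_⟩
  · rw [← termC_ev]; exact chkC_sound hC hx0 hx1 ht hu
  · have hq := chkQ_sound hQ hx0 hx1 ht hu [z / r0, v / r1, c / r2]
    rw [← termE_ev]
    generalize hE : termE J = e at hq ⊢
    have hs : ∃ a00 a01 a02 a11 a12 a22, e = [[a00, a01, a02], [a11, a12], [a22]] :=
      ⟨_, _, _, _, _, _, hE.symm⟩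
    obtain ⟨a00, a01, a02, a11, a12, a22, rfl⟩ := hs
    simp only [scl3, List.map_cons, List.map_nil, h0, h1, h2] at hq
    have h5 := scl3_eq r0 r1 r2 (a00.ev x t u) (a01.ev x t u) (a02.ev x t u)
      (a11.ev x t u) (a12.ev x t u) (a22.ev x t u) (z / r0) (v / r1) (c / r2)
    simp only [scl3] at h5
    rw [h5] at hq
    rw [mul_div_cancel₀ _ p0.ne', mul_div_cancel₀ _ p1.ne', mul_div_cancel₀ _ p2.ne'] at hq
    simpa only [List.map_cons, List.map_nil] using hq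

/-! ### from steps to a certificate -/

structure StepRel (S lam iL : ℝ) (th ka T be : ℕ → ℝ) (P : ℕ → ℝ → ℝ → ℝ → ℝ) (k : ℕ)
    (I : StepIn ℝ) : Prop where
  ok : StepOK I
  la : I.la = lam
  x : I.x = k * lam + lam
  M : I.M = 2 * S - k * lam
  M1 : I.M1 = I.M - I.la
  iL : I.iL = iL
  th1 : th (k + 1) = I.a1 / I.D
  th0 : th k = I.a0 / I.Dm
  ka1 : ka (k + 1) = I.k1 / (I.D * I.M1)
  ka0 : ka k = I.k0 / (I.Dm * I.M)
  T1 : T (k + 1) = I.T1 / I.D
  T0 : T k = I.T0 / I.Dm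
  b1 : be (k + 1) = I.b1 / I.D
  b0 : be k = I.b0 / I.Dm
  P1 : ∀ z u c, P (k + 1) z u c = potR I.N1 z u c / (I.D * I.W)
  P0 : ∀ z u c, P k z u c = potR I.N0 z u c / (I.Dm * I.W)

structure TermRel (S iL a : ℝ) (th ka T be : ℕ → ℝ) (P : ℕ → ℝ → ℝ → ℝ → ℝ) (N : ℕ)
    (J : TermIn ℝ) : Prop where
  ok : TermOK J
  S : J.S = S
  S1 : J.S1 = J.S + 1
  iL : J.iL = iL
  th0 : th N = J.a0 / J.D
  ka0 : ka N = J.k0 / (J.D * J.S1)
  T0 : T N = J.T0 / J.D
  b0 : be N = J.b0 / J.D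
  P0 : ∀ z u c, P N z u c = potR J.N z u c / J.D
  ha : J.aN / (J.S1 * J.V) ≤ a

theorem StepRel.facts {S lam iL : ℝ} {th ka T be : ℕ → ℝ} {P : ℕ → ℝ → ℝ → ℝ → ℝ} {k : ℕ}
    {I : StepIn ℝ} (hlam : 0 < lam) (h : StepRel S lam iL th ka T be P k I) :
    th k ≤ th (k + 1) ∧ T k ≤ T (k + 1) ∧ be k ≤ be (k + 1)
    ∧ th (k + 1) * (2 * S - k * lam - 1) ≤ k * lam + lam
    ∧ 0 ≤ phiS (2 * S - k * lam - lam) (th (k + 1)) (ka (k + 1)) (T (k + 1))
      (be (k + 1)) - phiS (2 * S - k * lam) (th k) (ka k) (T k) (be k)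
      + (T (k + 1) - T k) / (2 * S - k * lam) + (be (k + 1) - be k) / (2 * S - k * lam)
    ∧ 0 ≤ k * lam + lam - T (k + 1) - be (k + 1) - (2 * S - k * lam) *
      phiS (2 * S - k * lam - lam) (th (k + 1)) (ka (k + 1)) (T (k + 1)) (be (k + 1))
    ∧ 0 ≤ lam * phiS (2 * S - k * lam - lam) (th (k + 1)) (ka (k + 1))
      (T (k + 1)) (be (k + 1)) + (k * lam + lam - T (k + 1) - be (k + 1)
      - (2 * S - k * lam) *
      phiS (2 * S - k * lam - lam) (th (k + 1)) (ka (k + 1)) (T (k + 1)) (be (k + 1)))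
    ∧ ∀ z u de h c : ℝ,
    P (k + 1) ((2 * S - k * lam) / (2 * S - k * lam - lam) * z
        - de / (2 * S - k * lam - lam) - h) (u + de) c ≤
      P k z u c + stepS lam iL (k * lam) (2 * S - k * lam) (th k) (ka k) (T k) (be k)
        (th (k + 1)) (ka (k + 1)) (T (k + 1)) (be (k + 1)) z u de h c := by
  obtain ⟨⟨hC, hQ⟩, hla, hx, hM, hM1, hiL, th1, th0, ka1, ka0, T1, T0, b1, b0, P1, P0⟩ := h
  simp only [stepC, List.mem_cons, List.not_mem_nil, or_false, forall_eq_or_imp,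
    forall_eq] at hC
  obtain ⟨c1, c2, c3, c4, c5, c6, c7, c8, c9, c10, c11⟩ := hC
  have hD : 0 < I.D := by linarith
  have hDm : 0 < I.Dm := by linarith
  have hW : 0 < I.W := by linarith
  have hM10 : 0 < I.M1 := by linarith
  have hM0 : 0 < I.M := by rw [hM1, hla] at hM10; linarith
  rw [← hM]
  have hM2 : I.M - lam = I.M1 := by rw [hM1, hla]
  rw [hM2, ← hx]
  refine ⟨?_, ?_, ?_, ?_, ?_, ?_, ?_, ?_⟩
  · rw [th0, th1, div_le_div_iff₀ hDm hD]; linarith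
  · rw [T0, T1, div_le_div_iff₀ hDm hD]; linarith
  · rw [b0, b1, div_le_div_iff₀ hDm hD]; linarith
  · rw [th1, div_mul_eq_mul_div, div_le_iff₀ hD]; linarith
  · have e : phiS I.M1 (th (k + 1)) (ka (k + 1)) (T (k + 1)) (be (k + 1))
        - phiS I.M (th k) (ka k) (T k) (be k) + (T (k + 1) - T k) / I.M
        + (be (k + 1) - be k) / I.M
        = ((I.a1 * I.M1 - I.k1 - (I.T1 + I.b1)) * I.Dm * I.M
      - (I.a0 * I.M - I.k0 - (I.T0 + I.b0)) * I.D * I.M1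
      + (I.T1 * I.Dm - I.T0 * I.D) * I.M1 + (I.b1 * I.Dm - I.b0 * I.D) * I.M1)
        / (I.D * I.Dm * I.M * I.M1) := by
      rw [th0, th1, ka0, ka1, T0, T1, b0, b1]
      unfold phiS
      field_simp
    rw [e]; positivity
  · have e : I.x - T (k + 1) - be (k + 1) - I.M *
      phiS I.M1 (th (k + 1)) (ka (k + 1)) (T (k + 1)) (be (k + 1))
        = ((I.x * I.D - (I.T1 + I.b1)) * I.M1 - I.M * (I.a1 * I.M1 - I.k1 - (I.T1 + I.b1)))
        / (I.D * I.M1) := by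
      rw [th1, ka1, T1, b1]
      unfold phiS
      field_simp
      ring
    rw [e]; positivity
  · have e : lam * phiS I.M1 (th (k + 1)) (ka (k + 1))
      (T (k + 1)) (be (k + 1)) + (I.x - T (k + 1) - be (k + 1) - I.M *
      phiS I.M1 (th (k + 1)) (ka (k + 1)) (T (k + 1)) (be (k + 1)))
        = (I.la * (I.a1 * I.M1 - I.k1 - (I.T1 + I.b1)) + ((I.x * I.D - (I.T1 + I.b1)) * I.M1
      - I.M * (I.a1 * I.M1 - I.k1 - (I.T1 + I.b1)))) / (I.D * I.M1) := by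
      rw [th1, ka1, T1, b1, hla]
      unfold phiS
      field_simp
      ring
    rw [e]; positivity
  · intro z u de h c
    have hq := hQ z u (de / lam) (h / lam) c
    have hla' : I.la ≠ 0 := by rw [hla]; exact hlam.ne'
    have hMl : I.M - I.la ≠ 0 := by rw [← hM1]; exact hM10.ne'
    rw [stepE_eq I z u (de / lam) (h / lam) c hla' hM0.ne' hMl hD.ne' hDm.ne' hW.ne' hM1] at hq
    have hpos : 0 < 2 * I.D * I.Dm * I.M1 ^ 2 * I.M * I.W := by positivity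
    have h2 := nonneg_of_mul_nonneg_right hq hpos
    rw [P1, P0, th0, th1, ka0, ka1, T0, T1, b0, b1]
    have e1 : I.la * (de / lam) = de := by rw [hla]; field_simp
    have e2 : I.la * (h / lam) = h := by rw [hla]; field_simp
    have e3 : I.x - I.la = k * lam := by rw [hx, hla]; ring
    rw [e1, e2, e3, ← hM1, hla, hiL] at h2
    linarith

theorem TermRel.facts {S iL a : ℝ} {th ka T be : ℕ → ℝ} {P : ℕ → ℝ → ℝ → ℝ → ℝ} {N : ℕ}
    {J : TermIn ℝ} (h : TermRel S iL a th ka T be P N J) :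
    th N ≤ 1 ∧ T N ≤ 1 ∧ be N ≤ S ∧ 0 ≤ 1 - th N + ka N ∧ 0 ≤ a
    ∧ ∀ z u c : ℝ, 0 ≤ P N z u c + termS iL S (th N) (ka N) (T N) (be N) a z u c := by
  obtain ⟨⟨hC, hQ⟩, hS, hS1, hiL, th0, ka0, T0, b0, P0, ha⟩ := h
  simp only [termC, List.mem_cons, List.not_mem_nil, or_false, forall_eq_or_imp,
    forall_eq] at hC
  obtain ⟨c1, c2, c3, c4, c5, c6, c7, c8, c9⟩ := hC
  have hD : 0 < J.D := by linarith
  have hV : 0 < J.V := by linarith
  have hS10 : 0 < J.S1 := by linarith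
  have ha0 : 0 ≤ J.aN / (J.S1 * J.V) := by positivity
  refine ⟨?_, ?_, ?_, ?_, ha0.trans ha, ?_⟩
  · rw [th0, div_le_one hD]; linarith
  · rw [T0, div_le_one hD]; linarith
  · rw [b0, ← hS, div_le_iff₀ hD]; linarith
  · have e : 1 - th N + ka N = ((J.D - J.a0) * J.S1 + J.k0) / (J.D * J.S1) := by
      rw [th0, ka0]; field_simp
    rw [e]; positivity
  · intro z u c
    have hq := hQ z u c
    have hne : J.S + 1 ≠ 0 := by rw [← hS1]; exact hS10.ne'
    rw [termE_eq J z u c hD.ne' hne hV.ne' hS1] at hq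
    have hpos : 0 < 2 * J.S1 * J.D * J.V := by positivity
    have h2 := nonneg_of_mul_nonneg_right hq hpos
    rw [P0, th0, ka0, T0, b0]
    have hiL0 : 0 ≤ iL := by rw [← hiL]; exact c9
    have h3 : 0 ≤ iL / 2 * ((a - J.aN / (J.S1 * J.V)) * c ^ 2) := by
      have : 0 ≤ a - J.aN / (J.S1 * J.V) := by linarith
      positivity
    rw [hS, hiL] at h2
    unfold termS at h2 ⊢
    linarith

theorem mkCert {N : ℕ} {lam iLs iLt : ℝ} (hlam : 0 < lam) (th ka T be : ℕ → ℝ)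
    (P : ℕ → ℝ → ℝ → ℝ → ℝ) (th0 : th 0 = 0) (ka0 : ka 0 = 0) (T0 : T 0 = 0) (be0 : be 0 = 0)
    (P0 : ∀ z u c, P 0 z u c = 0)
    (I : ℕ → StepIn ℝ) (hI : ∀ k < N, StepRel (N * lam + 1) lam iLs th ka T be P k (I k))
    (J : TermIn ℝ) (hJ : TermRel (N * lam + 1) iLt
      (1 - ∑ k ∈ range N, (be (k + 1) - be k) / (2 * (N * lam + 1) - k * lam)
        - (N * lam + 1 - be N) / (N * lam + 1 + 1)) th ka T be P N J) :
    Nonempty (Cert N lam iLs iLt) :=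
  ⟨{ th := th
     ka := ka
     T := T
     be := be
     P := P
     th0 := th0
     ka0 := ka0
     T0 := T0
     be0 := be0
     P0 := P0
     hA := fun k hk => ((hI k hk).facts hlam).1
     htau := fun k hk => ((hI k hk).facts hlam).2.1
     hb := fun k hk => ((hI k hk).facts hlam).2.2.1
     hrho := fun k hk => ((hI k hk).facts hlam).2.2.2.1
     hmu := fun k hk => ((hI k hk).facts hlam).2.2.2.2.1
     hnu := fun k hk => ((hI k hk).facts hlam).2.2.2.2.2.1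
     hP := fun k hk => ((hI k hk).facts hlam).2.2.2.2.2.2.1
     hstep := fun k hk => ((hI k hk).facts hlam).2.2.2.2.2.2.2
     hthN := hJ.facts.1
     hTN := hJ.facts.2.1
     hbeN := hJ.facts.2.2.1
     hmuN := hJ.facts.2.2.2.1
     ha := hJ.facts.2.2.2.2.1
     hterm := hJ.facts.2.2.2.2.2 }⟩

end Pool.Agent.helper73.DRS
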