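import Pool.Agent.helper73.DRS.RegN

/-! Certificates for every number of iterations and every relaxation parameter below the golden
ratio. -/

namespace Pool.Agent.helper73.DRS

theorem cert_all {lam iLt : ℝ} (h0 : 0 < lam) (hphi : lam < (1 + Real.sqrt 5) / 2)
    (hL : (1 + 2 * Real.sqrt 2) / 7 ≤ iLt) (N : ℕ) :
    ∃ iL' ≤ iLt, Nonempty (Cert N lam (5469181 / 10 ^ 7) iL') := by
  have h5 : Real.sqrt 5 ^ 2 = 5 := Real.sq_sqrt (by norm_num)
  have h5' : Real.sqrt 5 ≤ 22362 / 10000 := by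
    rw [Real.sqrt_le_left (by norm_num)]; norm_num
  have h50 : 0 ≤ Real.sqrt 5 := Real.sqrt_nonneg 5
  have h2 : Real.sqrt 2 ^ 2 = 2 := Real.sq_sqrt (by norm_num)
  have h2' : 141421335 / 100000000 ≤ Real.sqrt 2 := by
    apply Real.le_sqrt_of_sq_le; norm_num
  have hq : 5469181 / 10 ^ 7 ≤ iLt := by
    refine le_trans ?_ hL
    have : (5469181 : ℝ) / 10 ^ 7 ≤ (1 + 2 * (141421335 / 100000000)) / 7 := by norm_num
    linarith
  have hpos : 0 < iLt := by
    have : (0 : ℝ) < 5469181 / 10 ^ 7 := by norm_num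
    linarith
  have h7 : 0 ≤ 7 * iLt ^ 2 - 2 * iLt - 1 := by
    have e : 7 * iLt ^ 2 - 2 * iLt - 1 = (iLt - (1 + 2 * Real.sqrt 2) / 7)
        * (7 * iLt - 1 + 2 * Real.sqrt 2) := by
      have e2 : Real.sqrt 2 * Real.sqrt 2 = 2 := by rw [← sq]; exact h2
      linear_combination ((4 : ℝ) / 7) * e2
    rw [e]
    refine mul_nonneg (by linarith) ?_
    have : (5469181 : ℝ) / 10 ^ 7 ≤ iLt := hq
    norm_num at this
    linarith
  rcases Nat.eq_zero_or_pos N with rfl | hN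
  · exact ⟨iLt, le_rfl, n1_cert hpos h7⟩
  rcases le_total lam 1 with h1 | h1
  · exact ⟨iLt, le_rfl, certA h0 h1 hN hq h7⟩
  rcases le_total lam (7 / 5) with h6 | h6
  · exact ⟨_, hq, certB h1 h6 hN⟩
  have h8 : lam ≤ 16181 / 10000 := by linarith
  have hg : 0 ≤ 1 + lam - lam * lam := by
    have e : 1 + lam - lam * lam = ((1 + Real.sqrt 5) / 2 - lam)
        * (lam - 1 + (1 + Real.sqrt 5) / 2) := by
      linear_combination (-(1 : ℝ) / 4) * h5
    rw [e]
    exact mul_nonneg (by linarith) (by linarith)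
  refine ⟨_, hq, ?_⟩
  match N, hN with
  | 1, _ => exact certN2 h6 h8 hg
  | 2, _ => exact certN3 h6 h8
  | 3, _ => exact certN4 h6 h8
  | m + 4, _ => exact certC h6 h8 (by omega)

end Pool.Agent.helper73.DRS
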