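import Pool.Agent.helper23.DRS.AN3

/-! The real-valued case is the special case of the extended-valued definitions
(MP_675b5c_an). -/

namespace Pool.Agent.helper73.DRS

/-- a finite convex function is proper convex -/
theorem properConvex_coe {n : ℕ} {g : EuclideanSpace ℝ (Fin n) → ℝ}
    (hg : ConvexOn ℝ Set.univ g) : ProperConvex (fun x => (g x : EReal)) := by
  refine ⟨fun x => EReal.coe_ne_bot _, ⟨0, EReal.coe_ne_top _⟩, ?_⟩
  rintro ⟨x, s⟩ hx ⟨y, t⟩ hy a b ha hb hab
  simp only [Set.mem_setOf_eq, EReal.coe_le_coe_iff] at hx hy ⊢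
  have h := hg.2 (Set.mem_univ x) (Set.mem_univ y) ha hb hab
  have h1 : a * g x ≤ a * s := mul_le_mul_of_nonneg_left hx ha
  have h2 : b * g y ≤ b * t := mul_le_mul_of_nonneg_left hy hb
  simp only [smul_eq_mul] at h
  simp only [Prod.smul_mk, Prod.mk_add_mk, smul_eq_mul]
  linarith

/-- for a finite function the two notions of proximal point agree -/
theorem isProxE_coe_iff {n : ℕ} {γ : ℝ} {g : EuclideanSpace ℝ (Fin n) → ℝ}
    {z x : EuclideanSpace ℝ (Fin n)} :
    IsProxE γ (fun x => (g x : EReal)) z x ↔ IsProx γ g z x := by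
  unfold IsProxE IsProx
  constructor
  · intro h y
    have := h y
    simp only [← EReal.coe_add, EReal.coe_le_coe_iff] at this
    exact this
  · intro h y
    have := h y
    simp only [← EReal.coe_add, EReal.coe_le_coe_iff]
    exact this

end Pool.Agent.helper73.DRS
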