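import Pool.Agent.helper73.DRS.SP

/-! The positivity checker. -/

namespace Pool.Agent.helper73.DRS

/-! ### quadratic forms given by upper triangular rows -/

/-- dot product with an integer list -/
noncomputable def dotZ : List ℤ → List ℝ → ℝ
  | [], _ => 0
  | _ :: _, [] => 0
  | a :: as, x :: xs => a * x + dotZ as xs

/-- one row `[m_ii, m_i(i+1), …]` of a quadratic form -/
noncomputable def rowZ : List ℤ → List ℝ → ℝ
  | [], _ => 0
  | _ :: _, [] => 0
  | a :: as, x :: xs => a * x ^ 2 + 2 * x * dotZ as xs

/-- the quadratic form of an upper triangular integer matrix -/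
noncomputable def qfZ : List (List ℤ) → List ℝ → ℝ
  | [], _ => 0
  | _ :: _, [] => 0
  | r :: rows, x :: xs => rowZ r (x :: xs) + qfZ rows xs

theorem dotZ_nil (r : List ℤ) : dotZ r [] = 0 := by cases r <;> rfl

theorem qfZ_nil (m : List (List ℤ)) : qfZ m [] = 0 := by cases m <;> rfl

theorem dotZ_ad : ∀ (p q : List ℤ) (v : List ℝ), dotZ (ad1 p q) v = dotZ p v + dotZ q v
  | [], ys, v => by simp [ad1, dotZ]
  | a :: as, [], v => by simp [ad1, dotZ]
  | a :: as, b :: bs, [] => by simp [ad1, dotZ]
  | a :: as, b :: bs, x :: xs => by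
      have h : ((Int.add a b : ℤ) : ℝ) = a + b := by
        have : Int.add a b = a + b := rfl
        rw [this]; push_cast; rfl
      simp only [ad1, dotZ, dotZ_ad as bs xs, h]; ring

theorem rowZ_ad (p q : List ℤ) (v : List ℝ) : rowZ (ad1 p q) v = rowZ p v + rowZ q v := by
  cases p with
  | nil => simp [ad1, rowZ]
  | cons a as =>
    cases q with
    | nil => simp [ad1, rowZ]
    | cons b bs =>
      cases v with
      | nil => simp [ad1, rowZ]
      | cons x xs =>
        have h : ((Int.add a b : ℤ) : ℝ) = a + b := by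
          have : Int.add a b = a + b := rfl
          rw [this]; push_cast; rfl
        simp only [ad1, rowZ, dotZ_ad, h]; ring

theorem qfZ_ad : ∀ (p q : List (List ℤ)) (v : List ℝ), qfZ (ad2 p q) v = qfZ p v + qfZ q v
  | [], ys, v => by simp [ad2, qfZ]
  | a :: as, [], v => by simp [ad2, qfZ]
  | a :: as, b :: bs, [] => by simp [ad2, qfZ]
  | a :: as, b :: bs, x :: xs => by
      simp only [ad2, qfZ, qfZ_ad as bs xs, rowZ_ad]; ring

/-! ### Schur complements -/

/-- `a * p - b * q` -/
def cmb (a b : ℤ) : List ℤ → List ℤ → List ℤ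
  | [], [] => []
  | [], y :: ys => Int.neg (Int.mul b y) :: cmb a b [] ys
  | x :: xs, [] => sm1 a (x :: xs)
  | x :: xs, y :: ys => Int.sub (Int.mul a x) (Int.mul b y) :: cmb a b xs ys

/-- the Schur complement (times the pivot `a`) -/
def schur (a : ℤ) : List ℤ → List (List ℤ) → List (List ℤ)
  | [], rows => sc2 a rows
  | b :: r, [] => cmb a b [] (b :: r) :: schur a r []
  | b :: r, row :: rows => cmb a b row (b :: r) :: schur a r rows

theorem dotZ_sm (c : ℤ) : ∀ (p : List ℤ) (v : List ℝ), dotZ (sm1 c p) v = c * dotZ p v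
  | [], v => by simp [sm1, dotZ]
  | a :: as, [] => by simp [sm1, dotZ]
  | a :: as, x :: xs => by
      have h : ((Int.mul c a : ℤ) : ℝ) = c * a := by
        have : Int.mul c a = c * a := rfl
        rw [this]; push_cast; rfl
      simp only [sm1, dotZ, dotZ_sm c as xs, h]; ring

theorem rowZ_sm (c : ℤ) (p : List ℤ) (v : List ℝ) : rowZ (sm1 c p) v = c * rowZ p v := by
  cases p with
  | nil => simp [sm1, rowZ]
  | cons a as =>
    cases v with
    | nil => simp [sm1, rowZ]
    | cons x xs =>
      have h : ((Int.mul c a : ℤ) : ℝ) = c * a := by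
        have : Int.mul c a = c * a := rfl
        rw [this]; push_cast; rfl
      simp only [sm1, rowZ, dotZ_sm, h]; ring

theorem qfZ_sc (c : ℤ) : ∀ (p : List (List ℤ)) (v : List ℝ), qfZ (sc2 c p) v = c * qfZ p v
  | [], v => by simp [sc2, qfZ]
  | a :: as, [] => by simp [sc2, qfZ]
  | a :: as, x :: xs => by
      simp only [sc2, qfZ, qfZ_sc c as xs, rowZ_sm]; ring

theorem dotZ_cmb (a b : ℤ) : ∀ (p q : List ℤ) (v : List ℝ),
    dotZ (cmb a b p q) v = a * dotZ p v - b * dotZ q v
  | [], [], v => by simp [cmb, dotZ]
  | [], y :: ys, [] => by simp [cmb, dotZ]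
  | [], y :: ys, x :: xs => by
      have h : ((Int.neg (Int.mul b y) : ℤ) : ℝ) = -(b * y) := by
        have : Int.neg (Int.mul b y) = -(b * y) := rfl
        rw [this]; push_cast; rfl
      simp only [cmb, dotZ, dotZ_cmb a b [] ys xs, h]; ring
  | p :: ps, [], v => by simp [cmb, dotZ_sm, dotZ]
  | p :: ps, y :: ys, [] => by simp [cmb, dotZ]
  | p :: ps, y :: ys, x :: xs => by
      have h : ((Int.sub (Int.mul a p) (Int.mul b y) : ℤ) : ℝ) = a * p - b * y := by
        have : Int.sub (Int.mul a p) (Int.mul b y) = a * p - b * y := rfl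
        rw [this]; push_cast; rfl
      simp only [cmb, dotZ, dotZ_cmb a b ps ys xs, h]; ring

theorem rowZ_cmb (a b : ℤ) (p q : List ℤ) (v : List ℝ) :
    rowZ (cmb a b p q) v = a * rowZ p v - b * rowZ q v := by
  cases p with
  | nil =>
    cases q with
    | nil => simp [cmb, rowZ]
    | cons y ys =>
      cases v with
      | nil => simp [cmb, rowZ]
      | cons x xs =>
        have h : ((Int.neg (Int.mul b y) : ℤ) : ℝ) = -(b * y) := by
          have : Int.neg (Int.mul b y) = -(b * y) := rfl
          rw [this]; push_cast; rfl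
        simp only [cmb, rowZ, dotZ_cmb, h, dotZ]; ring
  | cons p ps =>
    cases q with
    | nil =>
      have h1 : cmb a b (p :: ps) [] = sm1 a (p :: ps) := rfl
      have h2 : rowZ [] v = 0 := rfl
      rw [h1, rowZ_sm, h2]; ring
    | cons y ys =>
      cases v with
      | nil => simp [cmb, rowZ]
      | cons x xs =>
        have h : ((Int.sub (Int.mul a p) (Int.mul b y) : ℤ) : ℝ) = a * p - b * y := by
          have : Int.sub (Int.mul a p) (Int.mul b y) = a * p - b * y := rfl
          rw [this]; push_cast; rfl
        simp only [cmb, rowZ, dotZ_cmb, h]; ring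

theorem qfZ_schur (a : ℤ) : ∀ (r : List ℤ) (rows : List (List ℤ)) (v : List ℝ),
    qfZ (schur a r rows) v = a * qfZ rows v - (dotZ r v) ^ 2
  | [], rows, v => by simp [schur, qfZ_sc, dotZ]
  | b :: r, [], [] => by simp [schur, qfZ, dotZ]
  | b :: r, [], x :: xs => by
      simp only [schur, qfZ]
      rw [rowZ_cmb, qfZ_schur a r [] xs]
      have h1 : rowZ [] (x :: xs) = 0 := rfl
      have h2 : rowZ (b :: r) (x :: xs) = b * x ^ 2 + 2 * x * dotZ r xs := rfl
      have h3 : dotZ (b :: r) (x :: xs) = b * x + dotZ r xs := rfl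
      rw [h1, h2, h3]
      simp only [qfZ]
      ring
  | b :: r, row :: rows, [] => by simp [schur, qfZ, dotZ]
  | b :: r, row :: rows, x :: xs => by
      simp only [schur, qfZ]
      rw [rowZ_cmb, qfZ_schur a r rows xs]
      have h2 : rowZ (b :: r) (x :: xs) = b * x ^ 2 + 2 * x * dotZ r xs := rfl
      have h3 : dotZ (b :: r) (x :: xs) = b * x + dotZ r xs := rfl
      rw [h2, h3]
      ring

def isZ (a : ℤ) : Bool :=
  match a with
  | Int.ofNat n => Nat.beq n 0
  | Int.negSucc _ => false

def isPos (a : ℤ) : Bool :=
  match a with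
  | Int.ofNat n => Nat.ble 1 n
  | Int.negSucc _ => false

theorem isZ_eq {a : ℤ} (h : isZ a = true) : a = 0 := by
  cases a with
  | ofNat n => have := Nat.eq_of_beq_eq_true h; subst this; rfl
  | negSucc n => simp [isZ] at h

theorem isPos_pos {a : ℤ} (h : isPos a = true) : 0 < a := by
  cases a with
  | ofNat n =>
      have h1 : 1 ≤ n := Nat.le_of_ble_eq_true h
      simp only [Int.ofNat_eq_natCast]; exact_mod_cast h1
  | negSucc n => simp [isPos] at h

def allZ : List ℤ → Bool
  | [] => true
  | a :: as => bif isZ a then allZ as else false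

theorem dotZ_allZ : ∀ (r : List ℤ) (v : List ℝ), allZ r = true → dotZ r v = 0
  | [], v, _ => rfl
  | a :: as, [], _ => rfl
  | a :: as, x :: xs, h => by
      unfold allZ at h
      cases hz : isZ a with
      | false => rw [hz] at h; simp at h
      | true =>
        rw [hz] at h
        simp only [cond_true] at h
        simp [dotZ, isZ_eq hz, dotZ_allZ as xs h]

/-- positive semidefiniteness by repeated Schur complements -/
def psd : ℕ → List (List ℤ) → Bool
  | _, [] => true
  | 0, _ :: _ => false
  | n + 1, [] :: rows => psd n rows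
  | n + 1, (a :: r) :: rows =>
      bif isZ a then (bif allZ r then psd n rows else false)
      else (bif isPos a then psd n (schur a r rows) else false)

theorem psd_sound : ∀ (n : ℕ) (m : List (List ℤ)) (v : List ℝ), psd n m = true → 0 ≤ qfZ m v
  | _, [], v, _ => le_rfl
  | 0, _ :: _, v, h => by simp [psd] at h
  | n + 1, _ :: _, [], _ => by rw [qfZ_nil]
  | n + 1, [] :: rows, x :: xs, h => by
      simp only [qfZ, rowZ, zero_add]
      exact psd_sound n rows xs h
  | n + 1, (a :: r) :: rows, x :: xs, h => by
      unfold psd at h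
      cases hz : isZ a with
      | true =>
        rw [hz, cond_true] at h
        cases hr : allZ r with
        | false => rw [hr] at h; simp at h
        | true =>
          rw [hr, cond_true] at h
          simp only [qfZ, rowZ, isZ_eq hz, dotZ_allZ r xs hr]
          have := psd_sound n rows xs h
          simpa using this
      | false =>
        rw [hz, cond_false] at h
        cases hp : isPos a with
        | false => rw [hp] at h; simp at h
        | true =>
          rw [hp, cond_true] at h
          have ha : (0 : ℝ) < a := by exact_mod_cast isPos_pos hp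
          have h1 := psd_sound n _ xs h
          rw [qfZ_schur] at h1
          simp only [qfZ, rowZ]
          have h2 : 0 ≤ (a * x + dotZ r xs) ^ 2 + (a * qfZ rows xs - dotZ r xs ^ 2) :=
            add_nonneg (sq_nonneg _) h1
          have h3 : (a : ℝ) * (a * x ^ 2 + 2 * x * dotZ r xs + qfZ rows xs)
              = (a * x + dotZ r xs) ^ 2 + (a * qfZ rows xs - dotZ r xs ^ 2) := by ring
          rw [← h3] at h2
          exact nonneg_of_mul_nonneg_right h2 ha

/-! ### Bernstein form -/

/-- homogeneous evaluation `Σ h_l ξ^l η^(n-l)` -/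
noncomputable def hev {α : Type} (ev : α → ℝ) (x y : ℝ) : List α → ℝ
  | [] => 0
  | a :: as => ev a * y ^ as.length + x * hev ev x y as

/-- multiply by `ξ + η` and add `a ξ^n` -/
def bstep (a : List (List ℤ)) : List (List ℤ) → List (List (List ℤ)) → List (List (List ℤ))
  | p, [] => [ad2 p a]
  | p, h :: hs => ad2 p h :: bstep a h hs

def bconv : List (List (List ℤ)) → List (List (List ℤ)) → List (List (List ℤ))
  | acc, [] => acc
  | acc, a :: as => bconv (bstep a [] acc) as

theorem bstep_length (a : List (List ℤ)) : ∀ (p : List (List ℤ)) (hs : List (List (List ℤ))),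
    (bstep a p hs).length = hs.length + 1
  | p, [] => rfl
  | p, h :: hs => by simp [bstep, bstep_length a h hs]

theorem hev_bstep {ev : List (List ℤ) → ℝ} (hadd : ∀ p q, ev (ad2 p q) = ev p + ev q)
    {x y : ℝ} (hxy : x + y = 1) (a : List (List ℤ)) :
    ∀ (p : List (List ℤ)) (hs : List (List (List ℤ))),
    hev ev x y (bstep a p hs) = ev p * y ^ hs.length + hev ev x y hs + ev a * x ^ hs.length
  | p, [] => by simp [bstep, hev, hadd]
  | p, h :: hs => by
      simp only [bstep, hev, hadd, bstep_length, List.length_cons, hev_bstep hadd hxy a h hs]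
      have hy : y = 1 - x := by linarith
      have h2 : y ^ (hs.length + 1) = y ^ hs.length * y := pow_succ _ _
      have h3 : x ^ (hs.length + 1) = x ^ hs.length * x := pow_succ _ _
      rw [h2, h3]
      have h4 : ev h * (y ^ hs.length * y) = ev h * y ^ hs.length - x * (ev h * y ^ hs.length) := by
        rw [hy]; ring
      rw [add_mul, h4]
      ring

theorem hev_bconv {ev : List (List ℤ) → ℝ} (hadd : ∀ p q, ev (ad2 p q) = ev p + ev q)
    (hzero : ev [] = 0) {x y : ℝ} (hxy : x + y = 1) :
    ∀ (acc as : List (List (List ℤ))),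
    hev ev x y (bconv acc as) = hev ev x y acc + x ^ acc.length * evL ev x as
  | acc, [] => by simp [bconv, evL]
  | acc, a :: as => by
      simp only [bconv, hev_bconv hadd hzero hxy _ as, hev_bstep hadd hxy, bstep_length, evL,
        hzero]
      ring

theorem hev_nonneg {α : Type} {ev : α → ℝ} {x y : ℝ} (hx : 0 ≤ x) (hy : 0 ≤ y) :
    ∀ p : List α, (∀ a ∈ p, 0 ≤ ev a) → 0 ≤ hev ev x y p
  | [], _ => le_rfl
  | a :: as, h => by
      have h1 := h a (by simp)
      have h2 := hev_nonneg hx hy as (fun b hb => h b (by simp [hb]))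
      simp only [hev]
      positivity

/-- pad with zeros to length at least `n` -/
def padTo : ℕ → List (List (List ℤ)) → List (List (List ℤ))
  | 0, p => p
  | n + 1, [] => [] :: padTo n []
  | n + 1, a :: as => a :: padTo n as

theorem evL_padTo {ev : List (List ℤ) → ℝ} (hzero : ev [] = 0) (x : ℝ) :
    ∀ (n : ℕ) (p : List (List (List ℤ))), evL ev x (padTo n p) = evL ev x p
  | 0, p => rfl
  | n + 1, [] => by simp only [padTo, evL, hzero, evL_padTo hzero x n []]; simp
  | n + 1, a :: as => by simp only [padTo, evL, evL_padTo hzero x n as]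

/-- the checker for polynomial matrices -/
def chkM (n d : ℕ) : List (List (List (List (List ℤ)))) → Bool :=
  fun M => M.all (fun q => q.all (fun p => (bconv [] (padTo d p)).all (fun m => psd n m)))

theorem chkM_sound {n d : ℕ} {M : List (List (List (List (List ℤ))))} (h : chkM n d M = true)
    {x t u : ℝ} (hx0 : 0 ≤ x) (hx1 : x ≤ 1) (ht : 0 ≤ t) (hu : 0 ≤ u) (v : List ℝ) :
    0 ≤ evL (evL (evL (fun m => qfZ m v) x) t) u M := by
  unfold chkM at h
  rw [List.all_eq_true] at h
  refine evL_nonneg hu _ (fun q hq => evL_nonneg ht _ (fun p hp => ?_))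
  have h1 := h q hq
  rw [List.all_eq_true] at h1
  have h2 := h1 p hp
  rw [List.all_eq_true] at h2
  have h3 := hev_bconv (ev := fun m => qfZ m v) (fun p q => qfZ_ad p q v) (by simp [qfZ])
    (x := x) (y := 1 - x) (by ring) [] (padTo d p)
  rw [evL_padTo (ev := fun m => qfZ m v) (by simp [qfZ])] at h3
  simp only [hev, List.length_nil, pow_zero, one_mul, zero_add] at h3
  rw [← h3]
  exact hev_nonneg hx0 (by linarith) _ (fun m hm => psd_sound n m v (h2 m hm))

/-! ### assembling the polynomial matrix from its entries -/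

/-- zip with default values -/
def zipD {α β γ : Type} (f : α → β → γ) (da : α) (db : β) : List α → List β → List γ
  | [], bs => bs.map (f da)
  | a :: as, [] => f a db :: as.map (fun a => f a db)
  | a :: as, b :: bs => f a b :: zipD f da db as bs

theorem evL_map_of {α β : Type} {e : α → ℝ} {e' : β → ℝ} {f : α → β} (h : ∀ a, e' (f a) = e a)
    (y : ℝ) : ∀ p : List α, evL e' y (p.map f) = evL e y p
  | [] => rfl
  | a :: as => by simp only [List.map_cons, evL, h, evL_map_of h y as]

theorem evL_zipD {α β γ : Type} {f : α → β → γ} {da : α} {db : β} {ea : α → ℝ} {eb : β → ℝ}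
    {ec : γ → ℝ} (h : ∀ a b, ec (f a b) = ea a + eb b) (ha : ea da = 0) (hb : eb db = 0) (y : ℝ) :
    ∀ (as : List α) (bs : List β), evL ec y (zipD f da db as bs) = evL ea y as + evL eb y bs
  | [], bs => by
      simp only [zipD, evL, zero_add]
      exact evL_map_of (fun b => by rw [h, ha, zero_add]) y bs
  | a :: as, [] => by
      simp only [zipD, evL, h, hb, add_zero]
      rw [evL_map_of (e := ea) (fun a => by rw [h, hb, add_zero]) y as]
  | a :: as, b :: bs => by
      simp only [zipD, evL, h, evL_zipD h ha hb y as bs]; ring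

/-- polynomial rows from polynomial entries -/
def rowP : List (List (List (List ℤ))) → List (List (List (List ℤ)))
  | [] => []
  | p :: ps => zipD (zipD (zipD (fun (a : ℤ) (r : List ℤ) => a :: r) (Int.ofNat 0) []) [] []) [] []
      p (rowP ps)

/-- polynomial matrices from polynomial entries -/
def matP : List (List (List (List (List ℤ)))) → List (List (List (List (List ℤ))))
  | [] => []
  | r :: rs => zipD (zipD (zipD (fun (a : List ℤ) (m : List (List ℤ)) => a :: m) [] []) [] []) [] []
      (rowP r) (matP rs)

noncomputable def dotR : List ℝ → List ℝ → ℝ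
  | [], _ => 0
  | _ :: _, [] => 0
  | a :: as, x :: xs => a * x + dotR as xs

noncomputable def rowR : List ℝ → List ℝ → ℝ
  | [], _ => 0
  | _ :: _, [] => 0
  | a :: as, x :: xs => a * x ^ 2 + 2 * x * dotR as xs

/-- the quadratic form of an upper triangular real matrix -/
noncomputable def qfR : List (List ℝ) → List ℝ → ℝ
  | [], _ => 0
  | _ :: _, [] => 0
  | r :: rows, x :: xs => rowR r (x :: xs) + qfR rows xs

theorem evL3_zero {α : Type} (x t u : ℝ) (M : List (List (List α))) :
    evL (evL (evL (fun _ => (0 : ℝ)) x) t) u M = 0 := by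
  have h1 : evL (fun _ : α => (0 : ℝ)) x = fun _ => 0 := by funext p; exact evL_zero x p
  have h2 : evL (fun _ : List α => (0 : ℝ)) t = fun _ => 0 := by funext p; exact evL_zero t p
  rw [h1, h2, evL_zero]

theorem evL_nil {α : Type} (ev : α → ℝ) (x : ℝ) : evL ev x [] = 0 := rfl

theorem rowP_dot (x t u : ℝ) : ∀ (ps : List (List (List (List ℤ)))) (v : List ℝ),
    evL (evL (evL (fun r => dotZ r v) x) t) u (rowP ps) = dotR (ps.map (ev3 x t u)) v
  | [], v => by simp [rowP, evL, dotR]
  | p :: ps, [] => by
      have h0 : (fun r : List ℤ => dotZ r []) = fun _ => 0 := by funext r; exact dotZ_nil r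
      rw [h0, evL3_zero]; rfl
  | p :: ps, y :: ys => by
      have ih := rowP_dot x t u ps ys
      have h3 := evL_zipD (f := zipD (zipD (fun (a : ℤ) (r : List ℤ) => a :: r) (Int.ofNat 0) [])
        [] []) (da := []) (db := [])
        (ea := evL (evL (fun a : ℤ => (a : ℝ) * y) x) t) (eb := evL (evL (fun r => dotZ r ys) x) t)
        (ec := evL (evL (fun r => dotZ r (y :: ys)) x) t)
        (fun a b => evL_zipD (ea := evL (fun a : ℤ => (a : ℝ) * y) x)
          (eb := evL (fun r => dotZ r ys) x) (ec := evL (fun r => dotZ r (y :: ys)) x)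
          (fun a b => evL_zipD (ea := fun a : ℤ => (a : ℝ) * y)
            (eb := fun r => dotZ r ys) (ec := fun r => dotZ r (y :: ys))
            (fun a b => rfl) (by simp) (by simp [dotZ]) x a b) rfl rfl t a b) rfl rfl u p (rowP ps)
      simp only [rowP, List.map_cons, dotR]
      rw [h3, ih]
      have h4 : (fun a : ℤ => (a : ℝ) * y) = fun a : ℤ => y * (a : ℝ) := by
        funext a; ring
      have h5 : evL (fun a : ℤ => y * (a : ℝ)) x = fun p => y * ev1 x p := by
        funext p; exact evL_mul_left _ y x p
      have h6 : evL (fun p => y * ev1 x p) t = fun p => y * ev2 x t p := by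
        funext p; exact evL_mul_left _ y t p
      have h7 : evL (fun p => y * ev2 x t p) u = fun p => y * ev3 x t u p := by
        funext p; exact evL_mul_left _ y u p
      rw [h4, h5, h6, h7]
      ring

theorem rowP_row (x t u : ℝ) (ps : List (List (List (List ℤ)))) (v : List ℝ) :
    evL (evL (evL (fun r => rowZ r v) x) t) u (rowP ps) = rowR (ps.map (ev3 x t u)) v := by
  cases ps with
  | nil => simp [rowP, evL, rowR]
  | cons p ps =>
    cases v with
    | nil =>
      have h0 : (fun r : List ℤ => rowZ r []) = fun _ => 0 := by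
        funext r; cases r <;> rfl
      rw [h0, evL3_zero]; rfl
    | cons y ys =>
      have ih := rowP_dot x t u ps ys
      have h3 := evL_zipD (f := zipD (zipD (fun (a : ℤ) (r : List ℤ) => a :: r) (Int.ofNat 0) [])
        [] []) (da := []) (db := [])
        (ea := evL (evL (fun a : ℤ => (a : ℝ) * y ^ 2) x) t)
        (eb := evL (evL (fun r => 2 * y * dotZ r ys) x) t)
        (ec := evL (evL (fun r => rowZ r (y :: ys)) x) t)
        (fun a b => evL_zipD (ea := evL (fun a : ℤ => (a : ℝ) * y ^ 2) x)
          (eb := evL (fun r => 2 * y * dotZ r ys) x) (ec := evL (fun r => rowZ r (y :: ys)) x)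
          (fun a b => evL_zipD (ea := fun a : ℤ => (a : ℝ) * y ^ 2)
            (eb := fun r => 2 * y * dotZ r ys) (ec := fun r => rowZ r (y :: ys))
            (fun a b => rfl) (by simp) (by simp [dotZ]) x a b) rfl rfl t a b) rfl rfl u p (rowP ps)
      simp only [rowP, List.map_cons, rowR]
      rw [h3]
      have h4 : (fun a : ℤ => (a : ℝ) * y ^ 2) = fun a : ℤ => y ^ 2 * (a : ℝ) := by
        funext a; ring
      have h5 : evL (fun a : ℤ => y ^ 2 * (a : ℝ)) x = fun p => y ^ 2 * ev1 x p := by
        funext p; exact evL_mul_left _ _ x p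
      have h6 : evL (fun p => y ^ 2 * ev1 x p) t = fun p => y ^ 2 * ev2 x t p := by
        funext p; exact evL_mul_left _ _ t p
      have h7 : evL (fun p => y ^ 2 * ev2 x t p) u = fun p => y ^ 2 * ev3 x t u p := by
        funext p; exact evL_mul_left _ _ u p
      have g5 : evL (fun r => 2 * y * dotZ r ys) x = fun p => 2 * y * evL (fun r => dotZ r ys) x p := by
        funext p; exact evL_mul_left _ _ x p
      have g6 : evL (fun p => 2 * y * evL (fun r => dotZ r ys) x p) t
          = fun p => 2 * y * evL (evL (fun r => dotZ r ys) x) t p := by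
        funext p; exact evL_mul_left _ _ t p
      have g7 : evL (fun p => 2 * y * evL (evL (fun r => dotZ r ys) x) t p) u
          = fun p => 2 * y * evL (evL (evL (fun r => dotZ r ys) x) t) u p := by
        funext p; exact evL_mul_left _ _ u p
      rw [h4, h5, h6, h7, g5, g6, g7]
      simp only []
      rw [ih]
      ring

theorem matP_qf (x t u : ℝ) : ∀ (rs : List (List (List (List (List ℤ))))) (v : List ℝ),
    evL (evL (evL (fun m => qfZ m v) x) t) u (matP rs)
      = qfR (rs.map (fun r => r.map (ev3 x t u))) v
  | [], v => by simp [matP, evL, qfR]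
  | r :: rs, [] => by
      have h0 : (fun m : List (List ℤ) => qfZ m []) = fun _ => 0 := by funext m; exact qfZ_nil m
      rw [h0, evL3_zero]; rfl
  | r :: rs, y :: ys => by
      have ih := matP_qf x t u rs ys
      have h3 := evL_zipD (f := zipD (zipD (fun (a : List ℤ) (m : List (List ℤ)) => a :: m) [] [])
        [] []) (da := []) (db := [])
        (ea := evL (evL (fun a : List ℤ => rowZ a (y :: ys)) x) t)
        (eb := evL (evL (fun m => qfZ m ys) x) t)
        (ec := evL (evL (fun m => qfZ m (y :: ys)) x) t)
        (fun a b => evL_zipD (ea := evL (fun a : List ℤ => rowZ a (y :: ys)) x)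
          (eb := evL (fun m => qfZ m ys) x) (ec := evL (fun m => qfZ m (y :: ys)) x)
          (fun a b => evL_zipD (ea := fun a : List ℤ => rowZ a (y :: ys))
            (eb := fun m => qfZ m ys) (ec := fun m => qfZ m (y :: ys))
            (fun a b => rfl) rfl (by simp [qfZ]) x a b) rfl rfl t a b) rfl rfl u (rowP r) (matP rs)
      simp only [matP, List.map_cons, qfR]
      rw [h3, ih, rowP_row]

/-- all exponents are at most `E` -/
def leE (E : ℕ) : List (List SP) → Bool :=
  fun M => M.all (fun r => r.all (fun s => Nat.ble s.e E))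

/-- the checker for matrices of decimal polynomials -/
def chkQ (n d E : ℕ) (M : List (List SP)) : Bool :=
  bif leE E M then chkM n d (matP (M.map (fun r => r.map (SP.num E)))) else false

theorem dotR_div (c : ℝ) : ∀ (r : List ℝ) (v : List ℝ),
    dotR (r.map (fun a => a / c)) v = dotR r v / c
  | [], v => by simp [dotR]
  | a :: as, [] => by simp [dotR]
  | a :: as, x :: xs => by
      simp only [List.map_cons, dotR, dotR_div c as xs]; ring

theorem rowR_div (c : ℝ) (r : List ℝ) (v : List ℝ) :
    rowR (r.map (fun a => a / c)) v = rowR r v / c := by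
  cases r with
  | nil => simp [rowR]
  | cons a as =>
    cases v with
    | nil => simp [rowR]
    | cons x xs => simp only [List.map_cons, rowR, dotR_div]; ring

theorem qfR_div (c : ℝ) : ∀ (m : List (List ℝ)) (v : List ℝ),
    qfR (m.map (fun r => r.map (fun a => a / c))) v = qfR m v / c
  | [], v => by simp [qfR]
  | a :: as, [] => by simp [qfR]
  | a :: as, x :: xs => by
      simp only [List.map_cons, qfR, qfR_div c as xs, rowR_div]; ring

theorem chkQ_sound {n d E : ℕ} {M : List (List SP)} (h : chkQ n d E M = true)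
    {x t u : ℝ} (hx0 : 0 ≤ x) (hx1 : x ≤ 1) (ht : 0 ≤ t) (hu : 0 ≤ u) (v : List ℝ) :
    0 ≤ qfR (M.map (fun r => r.map (SP.ev x t u))) v := by
  unfold chkQ at h
  cases hE : leE E M with
  | false => rw [hE] at h; simp at h
  | true =>
    rw [hE, cond_true] at h
    have h1 := chkM_sound h hx0 hx1 ht hu v
    rw [matP_qf] at h1
    have h2 : M.map (fun r => r.map (SP.ev x t u))
        = ((M.map (fun r => r.map (SP.num E))).map (fun r => r.map (ev3 x t u))).map
            (fun r => r.map (fun a => a / (10 : ℝ) ^ E)) := by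
      rw [List.map_map, List.map_map]
      refine List.map_congr_left (fun r hr => ?_)
      simp only [Function.comp, List.map_map]
      refine List.map_congr_left (fun s hs => ?_)
      have h3 : s.e ≤ E := by
        unfold leE at hE
        rw [List.all_eq_true] at hE
        have h4 := hE r hr
        rw [List.all_eq_true] at h4
        exact Nat.le_of_ble_eq_true (h4 s hs)
      simp only [Function.comp]
      exact SP.ev_num x t u h3
    rw [h2, qfR_div]
    positivity

end Pool.Agent.helper73.DRS
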