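import Pool.Agent.helper73.DRS.DatAB

/-! Kernel checks for `λ ≤ 1`: first step, last form, sign conditions. -/

namespace Pool.Agent.helper73.DRS

set_option maxRecDepth 100000 in
theorem cA1 : chkQ 6 0 15 (scl5 SP.id' SP.id' SP.id' SP.id' SP.id' (stepE sA1)) = true := by
  decide +kernel

set_option maxRecDepth 100000 in
theorem cA2 : chkC 0 25 (stepC sA1) = true := by decide +kernel

set_option maxRecDepth 100000 in
theorem cA3 : chkC 0 25 (stepC sAG) = true := by decide +kernel

set_option maxRecDepth 100000 in
theorem cA4 : chkQ 4 0 19 dA = true := by decide +kernel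

set_option maxRecDepth 100000 in
theorem cA5 : chkC 0 25 (termC tA) = true := by decide +kernel

end Pool.Agent.helper73.DRS
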