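import Pool.Agent.helper73.DRS.DatAB

/-! Kernel checks for `1 ≤ λ ≤ 7/5`: first step, last form, sign conditions. -/

namespace Pool.Agent.helper73.DRS

set_option maxRecDepth 100000 in
theorem cB1 : chkQ 6 0 25 (scl5 SP.id' SP.id' SP.id' SP.id' SP.id' (stepE sB1)) = true := by
  decide +kernel

set_option maxRecDepth 100000 in
theorem cB2 : chkC 0 25 (stepC sB1) = true := by decide +kernel

set_option maxRecDepth 100000 in
theorem cB3 : chkC 0 25 (stepC sBG) = true := by decide +kernel

set_option maxRecDepth 100000 in
theorem cB4 : chkQ 4 0 25 (scl3 SP.id' SP.id' SP.id' (termE tB)) = true := by decide +kernel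

set_option maxRecDepth 100000 in
theorem cB5 : chkC 0 25 (termC tB) = true := by decide +kernel

end Pool.Agent.helper73.DRS
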