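import Pool.Agent.helper73.DRS.DatAB

/-! Kernel check for `1 ≤ λ ≤ 7/5`: the generic step. -/

namespace Pool.Agent.helper73.DRS

set_option maxRecDepth 100000 in
theorem cB6 : chkQ 6 0 32 (scl5 (fun a => a * scB) (fun a => a * scB) SP.id' SP.id' SP.id'
    (stepE sBG)) = true := by
  decide +kernel

end Pool.Agent.helper73.DRS
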