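import Pool.Agent.helper73.DRS.DatC

/-! Kernel checks for `7/5 ≤ λ ≤ 1.6181`, five or more iterations: first step. -/

namespace Pool.Agent.helper73.DRS

set_option maxRecDepth 100000 in
theorem cC1 : chkQ 6 0 39 (scl5 SP.id' SP.id' SP.id' SP.id' SP.id' (stepE sC1)) = true := by
  decide +kernel

set_option maxRecDepth 100000 in
theorem cC2 : chkC 0 60 (stepC sC1) = true := by decide +kernel

set_option maxRecDepth 100000 in
theorem cC3 : chkC 0 60 [CP.b1, CP.b2 - CP.b1, CP.b3 - CP.b2] = true := by decide +kernel

end Pool.Agent.helper73.DRS
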