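import Pool.Agent.helper73.DRS.DatC

/-! Kernel checks for `7/5 ≤ λ ≤ 1.6181`, five or more iterations: generic step. -/

namespace Pool.Agent.helper73.DRS

set_option maxRecDepth 100000 in
theorem cC8 : chkQ 6 0 51 (scl5 (fun a => a * scC) (fun a => a * scC) SP.id' SP.id'
    (fun a => a * scC) (stepE sCG)) = true := by
  decide +kernel

end Pool.Agent.helper73.DRS
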