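import Pool.Agent.helper73.DRS.DatC

/-! Kernel checks for `7/5 ≤ λ ≤ 1.6181`, five or more iterations: generic sign conditions, last form. -/

namespace Pool.Agent.helper73.DRS

set_option maxRecDepth 100000 in
theorem cC9 : chkC 0 60 (stepC sCG) = true := by decide +kernel

set_option maxRecDepth 100000 in
theorem cC10 : chkQ 6 0 32 (scl3 SP.id' (fun a => a * scC') (fun a => a * scC') (termE tC))
    = true := by
  decide +kernel

set_option maxRecDepth 100000 in
theorem cC11 : chkC 0 60 (termC tC) = true := by decide +kernel

end Pool.Agent.helper73.DRS
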