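import Pool.Agent.helper73.DRS.DatN

/-! Kernel checks for `7/5 ≤ λ ≤ 1.6181`, three and four iterations. -/

namespace Pool.Agent.helper73.DRS

set_option maxRecDepth 100000 in
theorem cN1 : chkQ 6 0 35 (scl5 SP.id' SP.id' SP.id' SP.id' SP.id' (stepE sN31)) = true := by
  decide +kernel

set_option maxRecDepth 100000 in
theorem cN2 : chkC 0 60 (stepC sN31) = true := by decide +kernel

set_option maxRecDepth 100000 in
theorem cN3 : chkQ 6 0 35 (scl5 SP.id' SP.id' SP.id' SP.id' SP.id' (stepE sN32)) = true := by
  decide +kernel

set_option maxRecDepth 100000 in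
theorem cN4 : chkC 0 60 (stepC sN32) = true := by decide +kernel

set_option maxRecDepth 100000 in
theorem cN5 : chkQ 4 0 31 (scl3 SP.id' SP.id' SP.id' (termE tN3)) = true := by
  decide +kernel

set_option maxRecDepth 100000 in
theorem cN6 : chkC 0 60 (termC tN3) = true := by decide +kernel

set_option maxRecDepth 100000 in
theorem cN7 : chkQ 6 0 35 (scl5 SP.id' SP.id' SP.id' SP.id' SP.id' (stepE sN41)) = true := by
  decide +kernel

set_option maxRecDepth 100000 in
theorem cN8 : chkC 0 60 (stepC sN41) = true := by decide +kernel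

set_option maxRecDepth 100000 in
theorem cN9 : chkQ 6 0 35 (scl5 SP.id' SP.id' SP.id' SP.id' SP.id' (stepE sN42)) = true := by
  decide +kernel

set_option maxRecDepth 100000 in
theorem cN10 : chkC 0 60 (stepC sN42) = true := by decide +kernel

set_option maxRecDepth 100000 in
theorem cN11 : chkQ 6 0 35 (scl5 SP.id' SP.id' SP.id' SP.id' SP.id' (stepE sN43)) = true := by
  decide +kernel

set_option maxRecDepth 100000 in
theorem cN12 : chkC 0 60 (stepC sN43) = true := by decide +kernel

set_option maxRecDepth 100000 in
theorem cN13 : chkQ 4 0 31 (scl3 SP.id' SP.id' SP.id' (termE tN4)) = true := by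
  decide +kernel

set_option maxRecDepth 100000 in
theorem cN14 : chkC 0 60 (termC tN4) = true := by decide +kernel

end Pool.Agent.helper73.DRS
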