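import Mathlib

/-! Telescoping identity behind the last-iterate bound for relaxed Douglas-Rachford splitting
(everything in one coordinate; the vector statements are sums over the coordinates). -/

namespace Pool.Agent.helper73.DRS

/-- potential-type quadratic form of the telescoping identity, in one coordinate -/
noncomputable def psiS (l M th ka T be Bs w u d c y : ℝ) : ℝ :=
  be / M * (c * (w - u)) + (1 - th) / (2 * M) * w ^ 2 + (ka + th / M) * (w * u)
    - (ka + (T + be + th) / (2 * M)) * u ^ 2 - th * (u * d)
    + (l + th * (2 - M)) / 2 * d ^ 2 - Bs * (c * y)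

/-- `φ_k` -/
noncomputable def phiS (M th ka T be : ℝ) : ℝ := th - ka - (T + be) / M

/-- the remainder form of a step, in one coordinate -/
noncomputable def stepS (lam iL l M th ka T be th' ka' T' be' z u de h c : ℝ) : ℝ :=
  (1 / 2 * ((th' - th) * M - lam * (M / (M - lam)) * (1 - th'))) * z ^ 2
    + lam / (M - lam) * (T' + be' - 1) * (z * u)
    + 1 / 2 * (lam / (M - lam) * (T' + be' - 1) / M + (T' + be' - (T + be)) / M) * u ^ 2
    + iL / 2 * ((phiS (M - lam) th' ka' T' be' - phiS M th ka T be
        + (T' - T) / M + (be' - be) / M) + (T' - T) / M) * u ^ 2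
    + iL / 2 * ((be' - be) / M) * (u - c) ^ 2
    + 1 / 2 * ((1 - lam) * th' + (2 - lam) * ((l + lam - th' * (M - 1)) / lam)) * h ^ 2
    + 1 / 2 * (iL * (phiS (M - lam) th' ka' T' be'
        + 2 * ((l + lam - T' - be' - M * phiS (M - lam) th' ka' T' be') / lam))
        + 2 / lam * (ka' * M - th') + (T' + be' - th') / (M - lam)) * de ^ 2
    - de * (ka' * M * z + th' * (M / (M - lam) * z - de / (M - lam) - h))
    - c * (lam / (M - lam) * be' * z - be' / (M - lam) * de)

/-- the remainder form of the last iteration, in one coordinate -/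
noncomputable def termS (iL S th ka T be a z u c : ℝ) : ℝ :=
  1 / 2 * (S + 1) * (1 - th) * z ^ 2 + z * u - (T + be - 1) / (2 * (S + 1)) * u ^ 2
    + iL / 2 * ((1 - th + ka + (1 - T) / (S + 1)) * u ^ 2 + (S - be) / (S + 1) * (u - c) ^ 2
      + a * c ^ 2) - c * z

theorem step_identity (lam iL l M th ka T be Bs th' ka' T' be' w u d de h c y : ℝ)
    (hlam : lam ≠ 0) (hM : M ≠ 0) (hM' : M - lam ≠ 0) :
    psiS l M th ka T be Bs w u d c y
      - psiS (l + lam) (M - lam) th' ka' T' be' (Bs + (be' - be) / M) (w - lam * d) (u + de)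
          (d + h) c y
      = (phiS (M - lam) th' ka' T' be' - phiS M th ka T be + (T' - T) / M + (be' - be) / M)
          * (u * (w - u) - iL / 2 * u ^ 2)
        + (T' - T) / M * (- (iL / 2 * u ^ 2))
        + (be' - be) / M * (- (c * (w - u - y)) - iL / 2 * (u - c) ^ 2)
        + (th' - th) * ((d - u) * (w - u - d))
        + (phiS (M - lam) th' ka' T' be'
            + (l + lam - T' - be' - M * phiS (M - lam) th' ka' T' be') / lam)
          * (- ((u + de) * (lam * d + de)) - iL / 2 * de ^ 2)
        + (l + lam - T' - be' - M * phiS (M - lam) th' ka' T' be') / lam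
          * (u * (lam * d + de) - iL / 2 * de ^ 2)
        + (th' + (l + lam - th' * (M - 1)) / lam)
          * (- ((d + h - (u + de)) * (lam * d + de + h)))
        + (l + lam - th' * (M - 1)) / lam * ((d - u) * (lam * d + de + h))
        + stepS lam iL l M th ka T be th' ka' T' be' ((w - u) / M - d) u de h c := by
  unfold psiS stepS phiS
  field_simp
  ring

theorem term_identity (iL S th ka T be Bs a w u d c : ℝ) (hS : S + 1 ≠ 0)
    (ha : a = 1 - Bs - (S - be) / (S + 1)) :
    psiS (S - 1) (S + 1) th ka T be Bs w u d c (w - u - d)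
      = (1 - th + ka) * (u * (w - u) - iL / 2 * u ^ 2)
        + (1 - T) / (S + 1) * (- (iL / 2 * u ^ 2))
        + (S - be) / (S + 1) * (- (c * (w - u - (w - u - d))) - iL / 2 * (u - c) ^ 2)
        + a * (c * (w - u - d) - iL / 2 * c ^ 2)
        + (1 - th) * ((d - u) * (w - u - d))
        + termS iL S th ka T be a ((w - u) / (S + 1) - d) u c := by
  subst ha
  unfold psiS termS
  field_simp
  ring

end Pool.Agent.helper73.DRS
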