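import Pool.Agent.helper73.DRS.FamAB

/-! Data of the certificates for `λ ≤ 1` and for `1 ≤ λ ≤ 7/5`. -/

namespace Pool.Agent.helper73.DRS

def SP.L0 : SP := SP.c 5469181 7

def datA : ABDat :=
  ⟨[13122, -1209], [6173, 1336], [10000, -3043, -5071], [0, 7445, 157], [6126, -2587],
    [0, -1064, 3877], [-2573, -5694], [0, -9602, 3645], [-8920, 5068],
    [0, -2851, 4077], [-1427, -271]⟩

def datB : ABDat :=
  ⟨[8800, -2000], [8144, -852], [13917, -8485], [3055, 4695], [10158, -7089],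
    [5339, -2334], [-3883, -2581], [-22476, 14258], [-3854, 569],
    [684, 202], [-1424, 18]⟩

def laA : SP := SP.lin 0 1 0
def laB : SP := SP.lin 10 4 1

def sA1 : StepIn SP := abStep1 (datA.sp laA SP.L0) (1 + laA + SP.U)
def sAG : StepIn SP := abStepG (datA.sp laA SP.L0) (1 + laA + (laA + SP.T) + SP.U) (laA + SP.T)
def tA : TermIn SP := abTerm (datA.sp laA SP.L0) (SP.L0 + SP.T) (1 + laA + SP.U)

def sB1 : StepIn SP := abStep1 (datB.sp laB SP.L0) (1 + laB + SP.U)
def sBG : StepIn SP := abStepG (datB.sp laB SP.L0) (1 + laB + (laB + SP.T) + SP.U) (laB + SP.T)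
def tB : TermIn SP := abTerm (datB.sp laB SP.L0) SP.L0 (1 + laB + SP.U)

/-- scaling factors -/
def scA : SP := SP.T + SP.c 15 1 + SP.c 36 1 * laA
def scA' : SP := SP.U + SP.c 635 2
def scB : SP := SP.T + SP.c 195 2 + SP.c 306 2 * laB

/-- the exceptional block of the last form for `λ ≤ 1` -/
def kA : List (List SP) :=
  [[SP.c 4 0, SP.c 1270 2, SP.c (-1270) 2],
    [(SP.c 1 0 + SP.c 4 0 * (SP.L0 + SP.T)) * SP.c 403225 4,
      (SP.L0 + SP.T) * SP.c (-403225) 4],
    [(SP.L0 + SP.T) * SP.c 806450 4]]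

/-- `(1 + p(0)) (1 - ξ)^3` -/
def eA : SP := SP.c 23122 4 * (SP.lin 1 (-1) 0 * SP.lin 1 (-1) 0 * SP.lin 1 (-1) 0)

def subMul (e : SP) (A B : List (List SP)) : List (List SP) :=
  List.zipWith (fun r s => List.zipWith (fun a b => a - e * b) r s) A B

def dA : List (List SP) :=
  subMul eA (scl3 SP.id' (fun a => a * scA') (fun a => a * scA') (termE tA)) kA

end Pool.Agent.helper73.DRS
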