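import Pool.Agent.helper73.DRS.FamC
import Pool.Agent.helper73.DRS.DatAB

/-! Data of the certificates for `7/5 ≤ λ ≤ 1.6181`, five or more iterations. -/

namespace Pool.Agent.helper73.DRS

def datC : CDat :=
  ⟨[3167], [3289], [29840, -16816], [-8394, 6607], [-21805, 18793], [-34837, 29364],
    ⟨[31670, -28171], [-1787, -4703], [-10044, 6656], [-32945, 24187], [-7483, 4886], [1643, -1715]⟩,
    ⟨[131357, -94455], [30479, -17892], [76288, -49808], [-92969, 65799], [47012, -33286], [-15448, 10441]⟩,
    ⟨[45077, -45743], [32920, -33096], [-6608, 4259], [-49893, 39430], [-35527, 24077], [4099, -4214]⟩,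
    ⟨[91961, -69355], [-233333, 153866], [128167, -86753], [-203076, 142842], [29114, -18890], [-11499, 7382]⟩,
    ⟨[-8786, -427], [7305, -16360], [4675, -2645], [-8143, 12487], [7260, -8860], [-24175, 18787]⟩,
    ⟨[6087, -8499], [-245, -102], [-3648, 2336], [-2768, 2306], [-3843, 3710], [3484, -3513]⟩⟩

def laC : SP := SP.lin 14000 2181 4
def CP : CIn SP := datC.sp laC SP.L0
def SC : SP := 1 + (2 * laC + 2 * laC) + SP.U

def sC1 : StepIn SP := cStep1 CP SC
def sC2 : StepIn SP := cStep2 CP SC
def sC3 : StepIn SP := cStep3 CP SC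
def sCG : StepIn SP := cStepG CP (1 + (2 * laC + laC + SP.T) + laC + SP.U) (2 * laC + laC + SP.T)
def tC : TermIn SP := cTerm CP SC

/-- scaling factors -/
def scC : SP := SP.T + SP.c 4 0 * laC
def scC' : SP := SP.U + SP.c 4 0

end Pool.Agent.helper73.DRS
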