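import Pool.Agent.helper73.DRS.FamEx
import Pool.Agent.helper73.DRS.DatC

/-! Data of the certificates for `7/5 ≤ λ ≤ 1.6181`, three and four iterations. -/

namespace Pool.Agent.helper73.DRS

/-- integer data for a fixed number of iterations -/
structure ExDat where
  th : ℕ → List ℤ
  ka : ℕ → List ℤ
  be : ℕ → List ℤ
  P : ℕ → PotDat

def potZ : PotDat := ⟨[], [], [], [], [], []⟩

def datN3 : ExDat where
  th := fun k => match k with
    | 0 => []
    | 1 => [896, 782]
    | 2 => [-2903, 5177]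
    | _ + 3 => []
  ka := fun k => match k with
    | 0 => []
    | 1 => [335, -171]
    | 2 => [2337, -1414]
    | _ + 3 => []
  be := fun k => match k with
    | 0 => []
    | 1 => [1160, 168]
    | 2 => [-47696, 36057]
    | _ + 3 => []
  P := fun k => match k with
    | 0 => potZ
    | 1 => ⟨[11244, -8924], [-67, -977], [-2925, 1818], [-192, 731], [-1810, 1156], [-2507, 1511]⟩
    | 2 => ⟨[21795, -20783], [28822, -23987], [3278, -3189], [-30005, 24727], [-10067, 8272], [5499, -4829]⟩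
    | _ + 3 => potZ

def datN4 : ExDat where
  th := fun k => match k with
    | 0 => []
    | 1 => [853, 406]
    | 2 => [-643, 2582]
    | 3 => [-1251, 4431]
    | _ + 4 => []
  ka := fun k => match k with
    | 0 => []
    | 1 => [118, -53]
    | 2 => [469, -221]
    | 3 => [2720, -1673]
    | _ + 4 => []
  be := fun k => match k with
    | 0 => []
    | 1 => [1149, 148]
    | 2 => [-44894, 33611]
    | 3 => [-74732, 56091]
    | _ + 4 => []
  P := fun k => match k with
    | 0 => potZ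
    | 1 => ⟨[5745, -4683], [-1225, 171], [-1603, 1002], [237, 184], [-1000, 616], [-2067, 1261]⟩
    | 2 => ⟨[5665, -5833], [4608, -4434], [-156, -121], [-8883, 7021], [316, -109], [-780, 189]⟩
    | 3 => ⟨[38292, -32307], [36624, -28814], [3204, -2996], [-37617, 29428], [-10904, 8835], [5885, -5040]⟩
    | _ + 4 => potZ

def ExDat.sp (A : ExDat) (S t T0 : SP) (k : ℕ) : StepIn SP :=
  exStep laC SP.L0 S t (SP.pol laC (A.th (k + 1))) (SP.pol laC (A.th k)) (SP.pol laC (A.ka (k + 1)))
    (SP.pol laC (A.ka k)) T0 (SP.pol laC (A.be (k + 1))) (SP.pol laC (A.be k)) ((A.P k).sp laC)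
    ((A.P (k + 1)).sp laC)

section generic

variable {α : Type} [Add α] [Sub α] [Mul α] [OfNat α 0] [OfNat α 1] [OfNat α 2]

def exV2 (la S : α) : α := 2 * S * (2 * S - la)

def exA2 (la S b1 b2 : α) : α :=
  exV2 la S * (S + 1) - (S - b2) * exV2 la S - b1 * (2 * S - la) * (S + 1)
    - (b2 - b1) * (2 * S) * (S + 1)

def exV3 (la S : α) : α := 2 * S * (2 * S - la) * (2 * S - 2 * la)

def exA3 (la S b1 b2 b3 : α) : α :=
  exV3 la S * (S + 1) - (S - b3) * exV3 la S - b1 * (2 * S - la) * (2 * S - 2 * la) * (S + 1)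
    - (b2 - b1) * (2 * S) * (2 * S - 2 * la) * (S + 1) - (b3 - b2) * (2 * S) * (2 * S - la) * (S + 1)

end generic

def S3 : SP := 1 + 2 * laC
def S4 : SP := 1 + (2 * laC + laC)

def sN31 : StepIn SP := datN3.sp S3 0 0 0
def sN32 : StepIn SP := datN3.sp S3 laC 1 1
def tN3 : TermIn SP :=
  exTerm SP.L0 S3 (SP.pol laC (datN3.th 2)) (SP.pol laC (datN3.ka 2)) (SP.pol laC (datN3.be 2))
    (exV2 laC S3) (exA2 laC S3 (SP.pol laC (datN3.be 1)) (SP.pol laC (datN3.be 2)))
    ((datN3.P 2).sp laC)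

def sN41 : StepIn SP := datN4.sp S4 0 0 0
def sN42 : StepIn SP := datN4.sp S4 laC 1 1
def sN43 : StepIn SP := datN4.sp S4 (2 * laC) 1 2
def tN4 : TermIn SP :=
  exTerm SP.L0 S4 (SP.pol laC (datN4.th 3)) (SP.pol laC (datN4.ka 3)) (SP.pol laC (datN4.be 3))
    (exV3 laC S4) (exA3 laC S4 (SP.pol laC (datN4.be 1)) (SP.pol laC (datN4.be 2))
      (SP.pol laC (datN4.be 3))) ((datN4.P 3).sp laC)

end Pool.Agent.helper73.DRS
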