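import Pool.Agent.helper73.DRS.Asm

/-! The family of multipliers and potentials used for `λ ≤ 7/5`. -/

namespace Pool.Agent.helper73.DRS

open Finset

/-- parameters of the family (numbers or polynomials in `λ`) -/
structure ABIn (α : Type) where
  la : α
  iL : α
  p : α
  q : α
  gam : α
  Ta : α
  Tb : α
  zz0 : α
  zz1 : α
  zu0 : α
  zu1 : α
  uu0 : α
  uu1 : α

section generic

variable {α : Type} [Add α] [Sub α] [Mul α] [OfNat α 0] [OfNat α 1] [OfNat α 2]

/-- the denominator `D` -/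
def abD (P : ABIn α) (S t : α) : α := 2 * S - 1 - t + P.p + P.q * t

def abN (P : ABIn α) (t : α) : Pot α :=
  ⟨P.zz0 + P.zz1 * t, P.zu0 + P.zu1 * t, P.uu0 + P.uu1 * t, 0, 0, 0⟩

def abStep1 (P : ABIn α) (S : α) : StepIn α :=
  ⟨P.la, P.la, 2 * S, 2 * S - P.la, 2 * S - 1 + P.p, 1, P.la, 0, P.gam * P.la, 0,
    P.Ta * (2 * S - 1 + P.p) + P.Tb * P.la, 0, 0, 0, P.iL, 1, ⟨0, 0, 0, 0, 0, 0⟩, abN P P.la⟩

def abStepG (P : ABIn α) (S t : α) : StepIn α :=
  ⟨P.la, t + P.la, 2 * S - t, 2 * S - t - P.la, abD P S t, abD P S (t - P.la), t + P.la, t,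
    P.gam * (t + P.la), P.gam * t, P.Ta * abD P S t + P.Tb * (t + P.la),
    P.Ta * abD P S (t - P.la) + P.Tb * t, 0, 0, P.iL, 1, abN P t, abN P (t + P.la)⟩

def abTerm (P : ABIn α) (iL S : α) : TermIn α :=
  ⟨S, S + 1, abD P S (S - 1 - P.la), S - 1, P.gam * (S - 1),
    P.Ta * abD P S (S - 1 - P.la) + P.Tb * (S - 1), 0, 1, 1, iL, abN P (S - 1)⟩

end generic

/-! ### evaluation -/

def SP.c (n : ℤ) (e : ℕ) : SP := ⟨[[[n]]], e⟩
def SP.T : SP := ⟨[[[], [1]]], 0⟩
def SP.U : SP := ⟨[[], [[1]]], 0⟩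
/-- `(a + b ξ) / 10 ^ e` -/
def SP.lin (a b : ℤ) (e : ℕ) : SP := ⟨[[[a, b]]], e⟩

theorem SP.ev_c (x t u : ℝ) (n : ℤ) (e : ℕ) : (SP.c n e).ev x t u = n / 10 ^ e := by
  simp [SP.c, SP.ev, ev3, ev2, ev1, evL]

theorem SP.ev_T (x t u : ℝ) : SP.T.ev x t u = t := by
  simp [SP.T, SP.ev, ev3, ev2, ev1, evL]

theorem SP.ev_U (x t u : ℝ) : SP.U.ev x t u = u := by
  simp [SP.U, SP.ev, ev3, ev2, ev1, evL]

theorem SP.ev_lin (x t u : ℝ) (a b : ℤ) (e : ℕ) :
    (SP.lin a b e).ev x t u = (a + x * b) / 10 ^ e := by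
  simp [SP.lin, SP.ev, ev3, ev2, ev1, evL]

/-- polynomial in `λ` with four decimals -/
def SP.pol (la : SP) : List ℤ → SP
  | [] => SP.c 0 0
  | [a] => SP.c a 4
  | a :: as => SP.c a 4 + la * SP.pol la as

noncomputable def polR (r : ℝ) : List ℤ → ℝ
  | [] => 0
  | [a] => a / 10 ^ 4
  | a :: as => a / 10 ^ 4 + r * polR r as

theorem SP.ev_pol (x t u : ℝ) (la : SP) : ∀ l : List ℤ,
    (SP.pol la l).ev x t u = polR (la.ev x t u) l
  | [] => by simp [SP.pol, polR, SP.ev_c]
  | [a] => by simp [SP.pol, polR, SP.ev_c]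
  | a :: b :: as => by
      simp only [SP.pol, polR, SP.ev_add, SP.ev_mul, SP.ev_c, SP.ev_pol x t u la (b :: as)]

/-- integer data of the family -/
structure ABDat where
  p : List ℤ
  q : List ℤ
  gam : List ℤ
  Ta : List ℤ
  Tb : List ℤ
  zz0 : List ℤ
  zz1 : List ℤ
  zu0 : List ℤ
  zu1 : List ℤ
  uu0 : List ℤ
  uu1 : List ℤ

def ABDat.sp (A : ABDat) (la iL : SP) : ABIn SP :=
  ⟨la, iL, SP.pol la A.p, SP.pol la A.q, SP.pol la A.gam, SP.pol la A.Ta, SP.pol la A.Tb,
    SP.pol la A.zz0, SP.pol la A.zz1, SP.pol la A.zu0, SP.pol la A.zu1, SP.pol la A.uu0,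
    SP.pol la A.uu1⟩

noncomputable def ABDat.re (A : ABDat) (la iL : ℝ) : ABIn ℝ :=
  ⟨la, iL, polR la A.p, polR la A.q, polR la A.gam, polR la A.Ta, polR la A.Tb,
    polR la A.zz0, polR la A.zz1, polR la A.zu0, polR la A.zu1, polR la A.uu0,
    polR la A.uu1⟩

theorem abStep1_ev (x t u : ℝ) (A : ABDat) (la iL S : SP) :
    (abStep1 (A.sp la iL) S).ev x t u
      = abStep1 (A.re (la.ev x t u) (iL.ev x t u)) (S.ev x t u) := by
  simp only [abStep1, abN, ABDat.sp, ABDat.re, StepIn.ev, Pot.ev, SP.ev_add, SP.ev_sub, SP.ev_mul,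
    SP.ev_0, SP.ev_1, SP.ev_2, SP.ev_pol]

theorem abStepG_ev (x t u : ℝ) (A : ABDat) (la iL S s : SP) :
    (abStepG (A.sp la iL) S s).ev x t u
      = abStepG (A.re (la.ev x t u) (iL.ev x t u)) (S.ev x t u) (s.ev x t u) := by
  simp only [abStepG, abN, abD, ABDat.sp, ABDat.re, StepIn.ev, Pot.ev, SP.ev_add, SP.ev_sub,
    SP.ev_mul, SP.ev_0, SP.ev_1, SP.ev_2, SP.ev_pol]

theorem abTerm_ev (x t u : ℝ) (A : ABDat) (la iL iL' S : SP) :
    (abTerm (A.sp la iL) iL' S).ev x t u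
      = abTerm (A.re (la.ev x t u) (iL.ev x t u)) (iL'.ev x t u) (S.ev x t u) := by
  simp only [abTerm, abN, abD, ABDat.sp, ABDat.re, TermIn.ev, Pot.ev, SP.ev_add, SP.ev_sub,
    SP.ev_mul, SP.ev_0, SP.ev_1, SP.ev_2, SP.ev_pol]

/-! ### the certificate -/

theorem ab_cert (P : ABIn ℝ) {N : ℕ} (hN : 1 ≤ N) (hla : 0 < P.la) (iLt : ℝ)
    (h1 : ∀ u, 0 ≤ u → StepOK (abStep1 P (1 + P.la + u)))
    (hG : ∀ t u, 0 ≤ t → 0 ≤ u → StepOK (abStepG P (1 + P.la + (P.la + t) + u) (P.la + t)))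
    (hT : ∀ u, 0 ≤ u → TermOK (abTerm P iLt (1 + P.la + u))) :
    Nonempty (Cert N P.la P.iL iLt) := by
  set S : ℝ := N * P.la + 1 with hS
  have hD : ∀ k : ℕ, abD P S ((k + 1 : ℕ) * P.la - P.la) = abD P S (k * P.la) := by
    intro k; congr 1; push_cast; ring
  have hN1 : (1 : ℝ) ≤ N := by exact_mod_cast hN
  refine mkCert hla
    (fun j => (j * P.la) / abD P S (j * P.la - P.la))
    (fun j => (P.gam * (j * P.la)) / (abD P S (j * P.la - P.la) * (2 * S - j * P.la)))
    (fun j => if j = 0 then 0 else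
      (P.Ta * abD P S (j * P.la - P.la) + P.Tb * (j * P.la)) / abD P S (j * P.la - P.la))
    (fun _ => 0)
    (fun j z u c => if j = 0 then 0 else
      potR (abN P (j * P.la)) z u c / abD P S (j * P.la - P.la))
    (by simp) (by simp) (by simp) rfl (by simp)
    (fun k => if k = 0 then abStep1 P S else abStepG P S (k * P.la)) ?_
    (abTerm P iLt S) ?_
  · intro k hk
    rcases Nat.eq_zero_or_pos k with h0 | h0
    · subst h0
      have hok := h1 ((N - 1) * P.la) (by
        have : (0 : ℝ) ≤ N - 1 := by linarith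
        positivity)
      have e : 1 + P.la + (N - 1) * P.la = S := by rw [hS]; ring
      rw [e] at hok
      have eD : abD P S (((0 + 1 : ℕ) : ℝ) * P.la - P.la) = 2 * S - 1 + P.p := by
        unfold abD; push_cast; ring
      simp only [if_true]
      refine ⟨hok, rfl, ?_, ?_, rfl, rfl, ?_, ?_, ?_, ?_, ?_, ?_, ?_, ?_, ?_, ?_⟩
      · simp only [abStep1]; push_cast; ring
      · simp only [abStep1]; push_cast; ring
      · simp only [abStep1]; rw [eD]; push_cast; ring_nf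
      · simp [abStep1]
      · simp only [abStep1]; rw [eD]; push_cast; ring_nf
      · simp [abStep1]
      · simp only [abStep1]; rw [eD, if_neg (by norm_num)]; push_cast; ring_nf
      · simp [abStep1]
      · simp [abStep1]
      · simp [abStep1]
      · intro z u c
        simp only [abStep1]; rw [eD, if_neg (by norm_num)]; push_cast; simp
      · intro z u c
        simp [abStep1, potR]
    · obtain ⟨j, rfl⟩ : ∃ j, k = j + 1 := ⟨k - 1, by omega⟩
      have hj : ((j : ℝ) + 1) + 1 ≤ N := by exact_mod_cast hk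
      have hok := hG (j * P.la) ((N - 2 - j) * P.la) (by positivity) (by
        have : (0 : ℝ) ≤ N - 2 - j := by linarith
        positivity)
      have e : 1 + P.la + (P.la + j * P.la) + (N - 2 - j) * P.la = S := by rw [hS]; ring
      have e2 : P.la + j * P.la = ((j + 1 : ℕ) : ℝ) * P.la := by push_cast; ring
      rw [e, e2] at hok
      simp only [if_neg (Nat.succ_ne_zero _)]
      have e3 : (((j + 1 + 1 : ℕ) : ℝ)) * P.la - P.la = ((j + 1 : ℕ) : ℝ) * P.la := by
        push_cast; ring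
      have e4 : (((j + 1 + 1 : ℕ) : ℝ)) * P.la = ((j + 1 : ℕ) : ℝ) * P.la + P.la := by
        push_cast; ring
      refine ⟨hok, rfl, rfl, rfl, rfl, rfl, ?_, ?_, ?_, ?_, ?_, ?_, ?_, ?_, ?_, ?_⟩
      · simp only [abStepG]; rw [e3, e4]
      · simp only [abStepG]
      · simp only [abStepG]; rw [e3, e4]; congr 2; ring
      · simp only [abStepG]
      · simp only [abStepG]; rw [e3, e4, if_neg (by omega)]
      · simp only [abStepG]; rw [if_neg (by omega)]
      · simp [abStepG]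
      · simp [abStepG]
      · intro z u c
        simp only [abStepG]; rw [e3, e4, mul_one, if_neg (by omega)]
      · intro z u c
        simp only [abStepG]; rw [mul_one, if_neg (by omega)]
  · have hok := hT ((N - 1) * P.la) (by
        have : (0 : ℝ) ≤ N - 1 := by linarith
        positivity)
    have e : 1 + P.la + (N - 1) * P.la = S := by rw [hS]; ring
    rw [e] at hok
    have hN0 : N ≠ 0 := by omega
    have e1 : S - 1 = N * P.la := by rw [hS]; ring
    refine ⟨hok, rfl, rfl, rfl, ?_, ?_, ?_, ?_, ?_, ?_⟩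
    · simp only [abTerm]; rw [e1]
    · simp only [abTerm]; rw [e1]; congr 2; linarith
    · simp only [abTerm]; rw [e1, if_neg hN0]
    · simp [abTerm]
    · intro z u c
      simp only [abTerm]; rw [e1, if_neg hN0]
    · simp only [abTerm, sub_self, zero_div, Finset.sum_const_zero, sub_zero]
      have hS0 : 0 < S + 1 := by rw [hS]; positivity
      rw [← hS]
      have : (1 : ℝ) / ((S + 1) * 1) = 1 - S / (S + 1) := by field_simp; ring
      rw [this]

end Pool.Agent.helper73.DRS
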