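import Pool.Agent.helper73.DRS.FamAB

/-! The family of multipliers and potentials used for `λ` near the golden ratio, five or more
iterations. -/

namespace Pool.Agent.helper73.DRS

open Finset

/-- parameters of the family (numbers or polynomials in `λ`) -/
structure CIn (α : Type) where
  la : α
  iL : α
  R2 : α
  q : α
  gam : α
  b1 : α
  b2 : α
  b3 : α
  Q2 : Pot α
  QS2 : Pot α
  Q3 : Pot α
  QS3 : Pot α
  P0 : Pot α
  P1 : Pot α

section generic

variable {α : Type} [Add α] [Sub α] [Mul α] [OfNat α 0] [OfNat α 1] [OfNat α 2]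

def potLin (s : α) (A B : Pot α) : Pot α :=
  ⟨A.zz * s + B.zz, A.zu * s + B.zu, A.uu * s + B.uu, A.zc * s + B.zc, A.uc * s + B.uc,
    A.cc * s + B.cc⟩

def potMul (s : α) (A : Pot α) : Pot α :=
  ⟨A.zz * s, A.zu * s, A.uu * s, A.zc * s, A.uc * s, A.cc * s⟩

/-- the denominator `D` (from the second step on) -/
def cD (P : CIn α) (S t : α) : α := 2 * S - 1 - t + P.R2 + (t - P.la) * P.q

def cStep1 (P : CIn α) (S : α) : StepIn α :=
  ⟨P.la, P.la, 2 * S, 2 * S - P.la, 2 * S - 1, 1, P.la, 0, P.gam * P.la, 0,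
    2 * S - 1, 0, P.b1 * (2 * S - 1), 0, P.iL, S, ⟨0, 0, 0, 0, 0, 0⟩, potLin S P.Q2 P.QS2⟩

def cStep2 (P : CIn α) (S : α) : StepIn α :=
  ⟨P.la, 2 * P.la, 2 * S - P.la, 2 * S - 2 * P.la, cD P S P.la, 2 * S - 1, 2 * P.la, P.la,
    P.gam * (2 * P.la), P.gam * P.la, cD P S P.la, 2 * S - 1, P.b2 * cD P S P.la,
    P.b1 * (2 * S - 1), P.iL, S, potLin S P.Q2 P.QS2, potLin S P.Q3 P.QS3⟩

def cStep3 (P : CIn α) (S : α) : StepIn α :=
  ⟨P.la, 2 * P.la + P.la, 2 * S - 2 * P.la, 2 * S - 2 * P.la - P.la, cD P S (2 * P.la),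
    cD P S P.la, 2 * P.la + P.la, 2 * P.la, P.gam * (2 * P.la + P.la), P.gam * (2 * P.la),
    cD P S (2 * P.la), cD P S P.la, P.b3 * cD P S (2 * P.la), P.b2 * cD P S P.la, P.iL, S,
    potLin S P.Q3 P.QS3, potMul S (potLin (2 * P.la + P.la) P.P1 P.P0)⟩

def cStepG (P : CIn α) (S t : α) : StepIn α :=
  ⟨P.la, t + P.la, 2 * S - t, 2 * S - t - P.la, cD P S t, cD P S (t - P.la), t + P.la, t,
    P.gam * (t + P.la), P.gam * t, cD P S t, cD P S (t - P.la), P.b3 * cD P S t,
    P.b3 * cD P S (t - P.la), P.iL, 1, potLin t P.P1 P.P0, potLin (t + P.la) P.P1 P.P0⟩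

def cTerm (P : CIn α) (S : α) : TermIn α :=
  ⟨S, S + 1, cD P S (S - 1 - P.la), S - 1, P.gam * (S - 1), cD P S (S - 1 - P.la),
    P.b3 * cD P S (S - 1 - P.la), 2 * S - 2 * P.la,
    (S + 1) * (2 * S - 2 * P.la) - (S - P.b3) * (2 * S - 2 * P.la) - P.b3 * (S + 1), P.iL,
    potLin (S - 1) P.P1 P.P0⟩

end generic

/-- integer data of a potential -/
structure PotDat where
  zz : List ℤ
  zu : List ℤ
  uu : List ℤ
  zc : List ℤ
  uc : List ℤ
  cc : List ℤ

def PotDat.sp (la : SP) (A : PotDat) : Pot SP :=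
  ⟨SP.pol la A.zz, SP.pol la A.zu, SP.pol la A.uu, SP.pol la A.zc, SP.pol la A.uc, SP.pol la A.cc⟩

noncomputable def PotDat.re (la : ℝ) (A : PotDat) : Pot ℝ :=
  ⟨polR la A.zz, polR la A.zu, polR la A.uu, polR la A.zc, polR la A.uc, polR la A.cc⟩

/-- integer data of the family -/
structure CDat where
  R2 : List ℤ
  q : List ℤ
  gam : List ℤ
  b1 : List ℤ
  b2 : List ℤ
  b3 : List ℤ
  Q2 : PotDat
  QS2 : PotDat
  Q3 : PotDat
  QS3 : PotDat
  P0 : PotDat
  P1 : PotDat

def CDat.sp (A : CDat) (la iL : SP) : CIn SP :=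
  ⟨la, iL, SP.pol la A.R2, SP.pol la A.q, SP.pol la A.gam, SP.pol la A.b1, SP.pol la A.b2,
    SP.pol la A.b3, A.Q2.sp la, A.QS2.sp la, A.Q3.sp la, A.QS3.sp la, A.P0.sp la, A.P1.sp la⟩

noncomputable def CDat.re (A : CDat) (la iL : ℝ) : CIn ℝ :=
  ⟨la, iL, polR la A.R2, polR la A.q, polR la A.gam, polR la A.b1, polR la A.b2,
    polR la A.b3, A.Q2.re la, A.QS2.re la, A.Q3.re la, A.QS3.re la, A.P0.re la, A.P1.re la⟩

set_option linter.unusedSimpArgs false

theorem cStep1_ev (x t u : ℝ) (A : CDat) (la iL S : SP) :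
    (cStep1 (A.sp la iL) S).ev x t u
      = cStep1 (A.re (la.ev x t u) (iL.ev x t u)) (S.ev x t u) := by
  simp only [cStep1, cD, potLin, CDat.sp, CDat.re, PotDat.sp, PotDat.re, StepIn.ev, Pot.ev,
    SP.ev_add, SP.ev_sub, SP.ev_mul, SP.ev_0, SP.ev_1, SP.ev_2, SP.ev_pol]

theorem cStep2_ev (x t u : ℝ) (A : CDat) (la iL S : SP) :
    (cStep2 (A.sp la iL) S).ev x t u
      = cStep2 (A.re (la.ev x t u) (iL.ev x t u)) (S.ev x t u) := by
  simp only [cStep2, cD, potLin, CDat.sp, CDat.re, PotDat.sp, PotDat.re, StepIn.ev, Pot.ev,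
    SP.ev_add, SP.ev_sub, SP.ev_mul, SP.ev_0, SP.ev_1, SP.ev_2, SP.ev_pol]

theorem cStep3_ev (x t u : ℝ) (A : CDat) (la iL S : SP) :
    (cStep3 (A.sp la iL) S).ev x t u
      = cStep3 (A.re (la.ev x t u) (iL.ev x t u)) (S.ev x t u) := by
  simp only [cStep3, cD, potLin, potMul, CDat.sp, CDat.re, PotDat.sp, PotDat.re, StepIn.ev, Pot.ev,
    SP.ev_add, SP.ev_sub, SP.ev_mul, SP.ev_0, SP.ev_1, SP.ev_2, SP.ev_pol]

theorem cStepG_ev (x t u : ℝ) (A : CDat) (la iL S s : SP) :
    (cStepG (A.sp la iL) S s).ev x t u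
      = cStepG (A.re (la.ev x t u) (iL.ev x t u)) (S.ev x t u) (s.ev x t u) := by
  simp only [cStepG, cD, potLin, CDat.sp, CDat.re, PotDat.sp, PotDat.re, StepIn.ev, Pot.ev,
    SP.ev_add, SP.ev_sub, SP.ev_mul, SP.ev_0, SP.ev_1, SP.ev_2, SP.ev_pol]

theorem cTerm_ev (x t u : ℝ) (A : CDat) (la iL S : SP) :
    (cTerm (A.sp la iL) S).ev x t u
      = cTerm (A.re (la.ev x t u) (iL.ev x t u)) (S.ev x t u) := by
  simp only [cTerm, cD, potLin, CDat.sp, CDat.re, PotDat.sp, PotDat.re, TermIn.ev, Pot.ev,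
    SP.ev_add, SP.ev_sub, SP.ev_mul, SP.ev_0, SP.ev_1, SP.ev_2, SP.ev_pol]

/-! ### the certificate -/

noncomputable def cDs (P : CIn ℝ) (S : ℝ) (j : ℕ) : ℝ :=
  if j ≤ 1 then 2 * S - 1 else cD P S (j * P.la - P.la)

noncomputable def cbe (P : CIn ℝ) : ℕ → ℝ
  | 0 => 0
  | 1 => P.b1
  | 2 => P.b2
  | _ + 3 => P.b3

noncomputable def cPs (P : CIn ℝ) (S : ℝ) : ℕ → ℝ → ℝ → ℝ → ℝ
  | 0, _, _, _ => 0
  | 1, z, u, c => potR (potLin S P.Q2 P.QS2) z u c / (cDs P S 1 * S)
  | 2, z, u, c => potR (potLin S P.Q3 P.QS3) z u c / (cDs P S 2 * S)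
  | j + 3, z, u, c => potR (potLin ((j + 3 : ℕ) * P.la) P.P1 P.P0) z u c / cDs P S (j + 3)

noncomputable def cI (P : CIn ℝ) (S : ℝ) : ℕ → StepIn ℝ
  | 0 => cStep1 P S
  | 1 => cStep2 P S
  | 2 => cStep3 P S
  | j + 3 => cStepG P S ((j + 3 : ℕ) * P.la)

theorem potR_potMul (s : ℝ) (A : Pot ℝ) (z u c : ℝ) :
    potR (potMul s A) z u c = potR A z u c * s := by
  simp only [potR, potMul]; ring

theorem c_cert (P : CIn ℝ) {N : ℕ} (hN : 4 ≤ N) (hla : 0 < P.la)
    (hb1 : 0 ≤ P.b1) (hb2 : P.b1 ≤ P.b2) (hb3 : P.b2 ≤ P.b3)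
    (h1 : ∀ u, 0 ≤ u → StepOK (cStep1 P (1 + (2 * P.la + 2 * P.la) + u)))
    (h2 : ∀ u, 0 ≤ u → StepOK (cStep2 P (1 + (2 * P.la + 2 * P.la) + u)))
    (h3 : ∀ u, 0 ≤ u → StepOK (cStep3 P (1 + (2 * P.la + 2 * P.la) + u)))
    (hG : ∀ t u, 0 ≤ t → 0 ≤ u →
      StepOK (cStepG P (1 + (2 * P.la + P.la + t) + P.la + u) (2 * P.la + P.la + t)))
    (hT : ∀ u, 0 ≤ u → TermOK (cTerm P (1 + (2 * P.la + 2 * P.la) + u))) :
    Nonempty (Cert N P.la P.iL P.iL) := by
  set S : ℝ := N * P.la + 1 with hS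
  have hN4 : (4 : ℝ) ≤ N := by exact_mod_cast hN
  have hu0 : 0 ≤ (N - 4) * P.la := by
    have : (0 : ℝ) ≤ N - 4 := by linarith
    positivity
  have eS : 1 + (2 * P.la + 2 * P.la) + (N - 4) * P.la = S := by rw [hS]; ring
  have hS1 : 1 ≤ S := by rw [hS]; nlinarith
  have hSne : S ≠ 0 := by linarith
  refine mkCert hla
    (fun j => (j * P.la) / cDs P S j)
    (fun j => (P.gam * (j * P.la)) / (cDs P S j * (2 * S - j * P.la)))
    (fun j => if j = 0 then 0 else 1)
    (cbe P) (cPs P S)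
    (by simp) (by simp) (by simp) rfl (fun _ _ _ => rfl)
    (cI P S) ?_
    (cTerm P S) ?_
  · intro k hk
    have hD1 : cDs P S 1 = 2 * S - 1 := by simp [cDs]
    have hD2 : cDs P S 2 = cD P S P.la := by
      simp only [cDs, if_neg (show ¬ (2 ≤ 1) by norm_num)]; congr 1; push_cast; ring
    have hD3 : cDs P S 3 = cD P S (2 * P.la) := by
      simp only [cDs, if_neg (show ¬ (3 ≤ 1) by norm_num)]; congr 1; push_cast; ring
    match k, hk with
    | 0, hk =>
      have hok := h1 _ hu0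
      rw [eS] at hok
      have hp : 2 * S - 1 ≠ 0 := by linarith
      have e0 : cI P S 0 = cStep1 P S := rfl
      rw [e0]
      refine ⟨hok, rfl, ?_, ?_, rfl, rfl, ?_, ?_, ?_, ?_, ?_, ?_, ?_, ?_, ?_, ?_⟩
      · simp only [cStep1]; push_cast; ring
      · simp only [cStep1]; push_cast; ring
      · simp only [cStep1]; rw [hD1]; push_cast; ring_nf
      · simp [cStep1]
      · simp only [cStep1]; rw [hD1]; push_cast; ring_nf
      · simp [cStep1]
      · simp only [cStep1]; rw [div_self hp]; simp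
      · simp [cStep1]
      · simp only [cStep1, cbe]; rw [mul_div_cancel_right₀ _ hp]
      · simp [cStep1, cbe]
      · intro z u c
        simp only [cStep1, cPs]; rw [hD1]
      · intro z u c
        simp [cStep1, potR, cPs]
    | 1, hk =>
      have hok := h2 _ hu0
      rw [eS] at hok
      have hp : 2 * S - 1 ≠ 0 := by linarith
      have hq : cD P S P.la ≠ 0 := by
        have h5 := hok.1 (cD P S P.la - 1) (by simp [stepC, cStep2])
        linarith
      have e0 : cI P S 1 = cStep2 P S := rfl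
      rw [e0]
      refine ⟨hok, rfl, ?_, ?_, ?_, rfl, ?_, ?_, ?_, ?_, ?_, ?_, ?_, ?_, ?_, ?_⟩
      · simp only [cStep2]; push_cast; ring
      · simp only [cStep2]; push_cast; ring
      · simp only [cStep2]; ring
      · simp only [cStep2]; rw [hD2]; push_cast; ring_nf
      · simp only [cStep2]; rw [hD1]; push_cast; ring_nf
      · simp only [cStep2]; rw [hD2]; push_cast; ring_nf
      · simp only [cStep2]; rw [hD1]; push_cast; ring_nf
      · simp only [cStep2]; rw [div_self hq]; simp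
      · simp only [cStep2]; rw [div_self hp]; simp
      · simp only [cStep2, cbe]; rw [mul_div_cancel_right₀ _ hq]
      · simp only [cStep2, cbe]; rw [mul_div_cancel_right₀ _ hp]
      · intro z u c
        simp only [cStep2, cPs]; rw [hD2]
      · intro z u c
        simp only [cStep2, cPs]; rw [hD1]
    | 2, hk =>
      have hok := h3 _ hu0
      rw [eS] at hok
      have hp : cD P S P.la ≠ 0 := by
        have h5 := hok.1 (cD P S P.la - 1) (by simp [stepC, cStep3])
        linarith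
      have hq : cD P S (2 * P.la) ≠ 0 := by
        have h5 := hok.1 (cD P S (2 * P.la) - 1) (by simp [stepC, cStep3])
        linarith
      have e0 : cI P S 2 = cStep3 P S := rfl
      rw [e0]
      refine ⟨hok, rfl, ?_, ?_, ?_, rfl, ?_, ?_, ?_, ?_, ?_, ?_, ?_, ?_, ?_, ?_⟩
      · simp only [cStep3]; push_cast; ring
      · simp only [cStep3]; push_cast; ring
      · simp only [cStep3]
      · simp only [cStep3]; rw [hD3]; push_cast; ring_nf
      · simp only [cStep3]; rw [hD2]; push_cast; ring_nf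
      · simp only [cStep3]; rw [hD3]; push_cast; ring_nf
      · simp only [cStep3]; rw [hD2]; push_cast; ring_nf
      · simp only [cStep3]; rw [div_self hq]; simp
      · simp only [cStep3]; rw [div_self hp]; simp
      · simp only [cStep3, cbe]; rw [mul_div_cancel_right₀ _ hq]
      · simp only [cStep3, cbe]; rw [mul_div_cancel_right₀ _ hp]
      · intro z u c
        simp only [cStep3, cPs]; rw [hD3, potR_potMul]
        have e5 : ((0 + 3 : ℕ) : ℝ) * P.la = 2 * P.la + P.la := by push_cast; ring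
        rw [e5, mul_div_mul_right _ _ hSne]
      · intro z u c
        simp only [cStep3, cPs]; rw [hD2]
    | j + 3, hk =>
      have hj : ((j : ℝ) + 3) + 1 ≤ N := by exact_mod_cast hk
      have hok := hG (j * P.la) ((N - 4 - j) * P.la) (by positivity) (by
        have : (0 : ℝ) ≤ N - 4 - j := by linarith
        positivity)
      have e : 1 + (2 * P.la + P.la + j * P.la) + P.la + (N - 4 - j) * P.la = S := by
        rw [hS]; ring
      have e2 : 2 * P.la + P.la + j * P.la = ((j + 3 : ℕ) : ℝ) * P.la := by push_cast; ring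
      rw [e, e2] at hok
      set t : ℝ := ((j + 3 : ℕ) : ℝ) * P.la with ht
      have e3 : (((j + 3 + 1 : ℕ) : ℝ)) * P.la - P.la = t := by
        rw [ht]; push_cast; ring
      have e4 : (((j + 3 + 1 : ℕ) : ℝ)) * P.la = t + P.la := by
        rw [ht]; push_cast; ring
      have hDa : cDs P S (j + 3 + 1) = cD P S t := by
        simp only [cDs, if_neg (show ¬ (j + 3 + 1 ≤ 1) by omega)]; rw [e3]
      have hDb : cDs P S (j + 3) = cD P S (t - P.la) := by
        simp only [cDs, if_neg (show ¬ (j + 3 ≤ 1) by omega)]; rw [← ht]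
      have hp : cD P S (t - P.la) ≠ 0 := by
        have h5 := hok.1 (cD P S (t - P.la) - 1) (by simp [stepC, cStepG])
        linarith
      have hq : cD P S t ≠ 0 := by
        have h5 := hok.1 (cD P S t - 1) (by simp [stepC, cStepG])
        linarith
      have e0 : cI P S (j + 3) = cStepG P S t := rfl
      rw [e0]
      refine ⟨hok, rfl, rfl, rfl, rfl, rfl, ?_, ?_, ?_, ?_, ?_, ?_, ?_, ?_, ?_, ?_⟩
      · simp only [cStepG]; rw [hDa, e4]
      · simp only [cStepG]; rw [hDb, ← ht]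
      · simp only [cStepG]; rw [hDa, e4]; congr 2; ring
      · simp only [cStepG]; rw [hDb, ← ht]
      · simp only [cStepG]; rw [div_self hq, if_neg (by omega)]
      · simp only [cStepG]; rw [div_self hp, if_neg (by omega)]
      · simp only [cStepG]; rw [mul_div_cancel_right₀ _ hq]; rfl
      · simp only [cStepG]; rw [mul_div_cancel_right₀ _ hp]; rfl
      · intro z u c
        have e6 : cPs P S (j + 3 + 1) z u c
          = potR (potLin ((j + 1 + 3 : ℕ) * P.la) P.P1 P.P0) z u c / cDs P S (j + 3 + 1) := rfl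
        rw [e6, hDa]
        have e7 : ((j + 1 + 3 : ℕ) : ℝ) * P.la = t + P.la := by rw [ht]; push_cast; ring
        rw [e7]
        simp only [cStepG, mul_one]
      · intro z u c
        have e6 : cPs P S (j + 3) z u c
          = potR (potLin ((j + 3 : ℕ) * P.la) P.P1 P.P0) z u c / cDs P S (j + 3) := rfl
        rw [e6, hDb]
        simp only [cStepG, mul_one, ht]
  · obtain ⟨m, rfl⟩ : ∃ m, N = m + 4 := ⟨N - 4, by omega⟩
    have hok := hT _ hu0
    rw [eS] at hok
    have e1 : S - 1 = ((m + 4 : ℕ) : ℝ) * P.la := by rw [hS]; ring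
    have hDN : cDs P S (m + 4) = cD P S (S - 1 - P.la) := by
      simp only [cDs, if_neg (show ¬ (m + 4 ≤ 1) by omega)]; rw [e1]
    have hq : cD P S (S - 1 - P.la) ≠ 0 := by
      have h5 := hok.1 (cD P S (S - 1 - P.la) - 1) (by simp [termC, cTerm])
      linarith
    refine ⟨hok, rfl, rfl, rfl, ?_, ?_, ?_, ?_, ?_, ?_⟩
    · simp only [cTerm]; rw [hDN, ← e1]
    · simp only [cTerm]; rw [hDN, ← e1]; congr 2; linarith
    · simp only [cTerm]; rw [div_self hq, if_neg (by omega)]
    · simp only [cTerm]; rw [mul_div_cancel_right₀ _ hq]; rfl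
    · intro z u c
      have e6 : cPs P S (m + 4) z u c
        = potR (potLin ((m + 1 + 3 : ℕ) * P.la) P.P1 P.P0) z u c / cDs P S (m + 4) := rfl
      have e7 : ((m + 1 + 3 : ℕ) : ℝ) * P.la = S - 1 := by rw [e1]
      rw [e6, hDN, e7]
      simp only [cTerm]
    · have hV : 0 < 2 * S - 2 * P.la := by
        have : (0 : ℝ) ≤ m := by positivity
        rw [hS]; push_cast; nlinarith
      have hbN : cbe P (m + 4) = P.b3 := rfl
      have hsum : ∑ k ∈ range (m + 4), (cbe P (k + 1) - cbe P k) / (2 * S - k * P.la)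
          ≤ P.b3 / (2 * S - 2 * P.la) := by
        have h5 : ∑ k ∈ range (m + 4), (cbe P (k + 1) - cbe P k) / (2 * S - k * P.la)
            ≤ ∑ k ∈ range (m + 4), (cbe P (k + 1) - cbe P k) / (2 * S - 2 * P.la) := by
          refine Finset.sum_le_sum (fun k hk => ?_)
          match k with
          | 0 =>
            refine div_le_div_of_nonneg_left ?_ hV ?_
            · simpa [cbe] using hb1
            · push_cast; linarith
          | 1 =>
            refine div_le_div_of_nonneg_left ?_ hV ?_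
            · simpa [cbe] using hb2
            · push_cast; linarith
          | 2 =>
            refine div_le_div_of_nonneg_left ?_ hV ?_
            · simpa [cbe] using hb3
            · push_cast; linarith
          | i + 3 =>
            have : cbe P (i + 3 + 1) - cbe P (i + 3) = 0 := by
              have e8 : cbe P (i + 3 + 1) = P.b3 := rfl
              have e9 : cbe P (i + 3) = P.b3 := rfl
              rw [e8, e9]; ring
            rw [this]; simp
        rw [← Finset.sum_div, Finset.sum_range_sub, hbN] at h5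
        have h6 : cbe P 0 = 0 := rfl
        rw [h6, sub_zero] at h5
        exact h5
      have e9 : (cTerm P S).aN / ((cTerm P S).S1 * (cTerm P S).V)
          = 1 - P.b3 / (2 * S - 2 * P.la) - (S - P.b3) / (S + 1) := by
        simp only [cTerm]
        have hS0 : 0 < S + 1 := by linarith
        have hV' : S - P.la ≠ 0 := by
          intro h; rw [show 2 * S - 2 * P.la = 2 * (S - P.la) by ring, h] at hV; simp at hV
        rw [show 2 * S - 2 * P.la = 2 * (S - P.la) by ring]
        field_simp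
        ring
      rw [e9, hbN, ← hS]
      linarith

end Pool.Agent.helper73.DRS
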