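import Pool.Agent.helper73.DRS.FamC

/-! Certificates for a fixed small number of iterations with polynomial multipliers. -/

namespace Pool.Agent.helper73.DRS

open Finset

section generic

variable {α : Type} [Add α] [Sub α] [Mul α] [OfNat α 0] [OfNat α 1] [OfNat α 2]

def exStep (la iL S t th1 th0 ka1 ka0 T0 be1 be0 : α) (N0 N1 : Pot α) : StepIn α :=
  ⟨la, t + la, 2 * S - t, 2 * S - t - la, 1, 1, th1, th0, ka1 * (2 * S - t - la),
    ka0 * (2 * S - t), 1, T0, be1, be0, iL, 1, N0, N1⟩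

def exTerm (iL S th ka be V aN : α) (N : Pot α) : TermIn α :=
  ⟨S, S + 1, 1, th, ka * (S + 1), 1, be, V, aN, iL, N⟩

end generic

theorem exStep_ev (x t u : ℝ) (la iL S s th1 th0 ka1 ka0 T0 be1 be0 : SP) (N0 N1 : Pot SP) :
    (exStep la iL S s th1 th0 ka1 ka0 T0 be1 be0 N0 N1).ev x t u
      = exStep (la.ev x t u) (iL.ev x t u) (S.ev x t u) (s.ev x t u) (th1.ev x t u) (th0.ev x t u)
        (ka1.ev x t u) (ka0.ev x t u) (T0.ev x t u) (be1.ev x t u) (be0.ev x t u) (N0.ev x t u)
        (N1.ev x t u) := by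
  simp only [exStep, StepIn.ev, SP.ev_add, SP.ev_sub, SP.ev_mul, SP.ev_1, SP.ev_2]

theorem exTerm_ev (x t u : ℝ) (iL S th ka be V aN : SP) (N : Pot SP) :
    (exTerm iL S th ka be V aN N).ev x t u
      = exTerm (iL.ev x t u) (S.ev x t u) (th.ev x t u) (ka.ev x t u) (be.ev x t u) (V.ev x t u)
        (aN.ev x t u) (N.ev x t u) := by
  simp only [exTerm, TermIn.ev, SP.ev_add, SP.ev_mul, SP.ev_1]

theorem PotDat.sp_ev (x t u : ℝ) (la : SP) (A : PotDat) :
    (A.sp la).ev x t u = A.re (la.ev x t u) := by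
  simp only [PotDat.sp, PotDat.re, Pot.ev, SP.ev_pol]

theorem ex_cert {la iL : ℝ} (hla : 0 < la) {N : ℕ} (hN : 1 ≤ N) (th ka be : ℕ → ℝ)
    (pot : ℕ → Pot ℝ) (th0 : th 0 = 0) (ka0 : ka 0 = 0) (be0 : be 0 = 0)
    (hstep : ∀ k < N, StepOK (exStep la iL (N * la + 1) (k * la) (th (k + 1)) (th k) (ka (k + 1))
      (ka k) (if k = 0 then 0 else 1) (be (k + 1)) (be k)
      (if k = 0 then ⟨0, 0, 0, 0, 0, 0⟩ else pot k) (pot (k + 1))))
    (V aN : ℝ)
    (hterm : TermOK (exTerm iL (N * la + 1) (th N) (ka N) (be N) V aN (pot N)))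
    (ha : aN / ((N * la + 1 + 1) * V) ≤ 1 - ∑ k ∈ range N, (be (k + 1) - be k) /
      (2 * (N * la + 1) - k * la) - (N * la + 1 - be N) / (N * la + 1 + 1)) :
    Nonempty (Cert N la iL iL) := by
  set S : ℝ := N * la + 1 with hS
  have hM : ∀ k ≤ N, (0 : ℝ) < 2 * S - k * la := by
    intro k hk
    have h1 : (k : ℝ) ≤ N := by exact_mod_cast hk
    have h2 : (k : ℝ) * la ≤ N * la := by gcongr
    have h3 : (0 : ℝ) ≤ N * la := by positivity
    rw [hS]; linarith
  refine mkCert hla th ka (fun j => if j = 0 then 0 else 1) be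
    (fun j z u c => if j = 0 then 0 else potR (pot j) z u c) th0 ka0 (by simp) be0 (by simp)
    (fun k => exStep la iL (N * la + 1) (k * la) (th (k + 1)) (th k) (ka (k + 1))
      (ka k) (if k = 0 then 0 else 1) (be (k + 1)) (be k)
      (if k = 0 then ⟨0, 0, 0, 0, 0, 0⟩ else pot k) (pot (k + 1))) ?_
    (exTerm iL (N * la + 1) (th N) (ka N) (be N) V aN (pot N)) ?_
  · intro k hk
    have h1 := hM k hk.le
    have h2 := hM (k + 1) hk
    have h2' : (0 : ℝ) < 2 * S - k * la - la := by push_cast at h2; linarith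
    refine ⟨hstep k hk, rfl, rfl, rfl, rfl, rfl, ?_, ?_, ?_, ?_, ?_, ?_, ?_, ?_, ?_, ?_⟩
    · simp only [exStep, div_one]
    · simp only [exStep, div_one]
    · simp only [exStep, one_mul]; rw [mul_div_cancel_right₀ _ h2'.ne']
    · simp only [exStep, one_mul]; rw [mul_div_cancel_right₀ _ h1.ne']
    · simp [exStep]
    · simp [exStep]
    · simp only [exStep, div_one]
    · simp only [exStep, div_one]
    · intro z u c
      simp [exStep]
    · intro z u c
      simp only [exStep, mul_one, div_one]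
      split_ifs with h
      · simp [potR]
      · rfl
  · have hS1 : (0 : ℝ) < S + 1 := by
      have h3 : (0 : ℝ) ≤ N * la := by positivity
      rw [hS]; linarith
    have hN0 : N ≠ 0 := by omega
    refine ⟨hterm, rfl, rfl, rfl, ?_, ?_, ?_, ?_, ?_, ?_⟩
    · simp only [exTerm, div_one]
    · simp only [exTerm, one_mul]; rw [mul_div_cancel_right₀ _ hS1.ne']
    · simp only [exTerm, div_one]; rw [if_neg hN0]
    · simp only [exTerm, div_one]
    · intro z u c
      simp only [exTerm, div_one]; rw [if_neg hN0]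
    · simp only [exTerm]; exact ha

end Pool.Agent.helper73.DRS
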