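import Pool.Agent.helper73.DRS.FamC

/-! Certificates for one iteration, and for two iterations with `λ` below the golden ratio. -/

namespace Pool.Agent.helper73.DRS

open Finset

/-- one iteration -/
theorem n1_cert {lam iLs iLt : ℝ} (h0 : 0 < iLt) (h : 0 ≤ 7 * iLt ^ 2 - 2 * iLt - 1) :
    Nonempty (Cert 0 lam iLs iLt) :=
  ⟨{ th := fun _ => 0
     ka := fun _ => 0
     T := fun _ => 0
     be := fun _ => 0
     P := fun _ _ _ _ => 0
     th0 := rfl
     ka0 := rfl
     T0 := rfl
     be0 := rfl
     P0 := fun _ _ _ => rfl
     hA := fun k hk => absurd hk (Nat.not_lt_zero k)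
     htau := fun k hk => absurd hk (Nat.not_lt_zero k)
     hb := fun k hk => absurd hk (Nat.not_lt_zero k)
     hrho := fun k hk => absurd hk (Nat.not_lt_zero k)
     hmu := fun k hk => absurd hk (Nat.not_lt_zero k)
     hnu := fun k hk => absurd hk (Nat.not_lt_zero k)
     hP := fun k hk => absurd hk (Nat.not_lt_zero k)
     hthN := by norm_num
     hTN := by norm_num
     hbeN := by push_cast; norm_num
     hmuN := by norm_num
     ha := by norm_num
     hstep := fun k hk => absurd hk (Nat.not_lt_zero k)
     hterm := by
       intro z u c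
       simp only [Finset.range_zero, Finset.sum_empty, Nat.cast_zero, zero_mul, zero_add, sub_zero]
       unfold termS
       have e : 4 * iLt * (1 / 2 * (1 + 1) * (1 - 0) * z ^ 2 + z * u
          - (0 + 0 - 1) / (2 * (1 + 1)) * u ^ 2
          + iLt / 2 * ((1 - 0 + 0 + (1 - 0) / (1 + 1)) * u ^ 2 + (1 - 0) / (1 + 1) * (u - c) ^ 2
            + (1 - 1 / (1 + 1)) * c ^ 2) - c * z)
          = 4 * iLt * (z + (u - c) / 2) ^ 2 + (2 * iLt * u + (1 - iLt) / 2 * c) ^ 2
            + (7 * iLt ^ 2 - 2 * iLt - 1) / 4 * c ^ 2 := by ring
       have h2 : 0 ≤ 4 * iLt * (z + (u - c) / 2) ^ 2 + (2 * iLt * u + (1 - iLt) / 2 * c) ^ 2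
            + (7 * iLt ^ 2 - 2 * iLt - 1) / 4 * c ^ 2 := by positivity
       rw [← e] at h2
       exact nonneg_of_mul_nonneg_right h2 (by positivity) }⟩

section generic

variable {α : Type} [Add α] [Sub α] [Mul α] [OfNat α 0] [OfNat α 1] [OfNat α 2]

/-- the remaining form in `(u, u', c)` for two iterations -/
def n2rows (two three four five six : α) (la l : α) : List (List α) :=
  let g := 1 + la - la * la
  let A := 1 + two * la
  let B := 1 + la
  let C := two + la
  let G := l * two * B * C * (la * la + three * la - three) - four * B * C * C + two * A * B * C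
    + two * (1 - la) * la * B
  let H := two * B * C * (1 + two * la + two * la * la)
  [[la * la * C + C * C * (1 + three * la) + l * (two * B * C * (la * la - la - 1)
      + (1 + three * la) * C * C + A * C * C + la * C * C) + G - A * B * la * la - g * la * A,
    0 - G - two * la * A * B,
    la * A * B * C + g * la * A - l * la * C * C - two * la * B * C],
   [G - two * la * B * C + l * (two * B * B * C * C + H) - four * A * B,
    two * la * B * C - l * H + two * A * B * C],
   [l * (la * C * C + H + (two + six * la + five * la * la) * C) - A * B * C * C - g * la * A]]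

end generic

/-- two iterations, `λ` below the golden ratio -/
theorem n2_cert {la l : ℝ} (h1 : 1 ≤ la) (hg : 0 ≤ 1 + la - la * la)
    (hQ : ∀ u u1 c : ℝ, 0 ≤ qfR (n2rows 2 3 4 5 6 la l) [u, u1, c]) :
    Nonempty (Cert 1 la l l) := by
  have p1 : 0 < 1 + 2 * la := by linarith
  have p2 : 0 < 2 + la := by linarith
  have p3 : 0 < 1 + la := by linarith
  have hla : 0 < la := by linarith
  have cast1 : ((1 : ℕ) : ℝ) = 1 := Nat.cast_one
  have k0 : ∀ k : ℕ, k < 1 → k = 0 := by omega
  have e1 : 2 * (1 * la + 1) - la = 2 + la := by ring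
  have e2 : 2 * (1 * la + 1) = 2 * (1 + la) := by ring
  have e3 : 1 * la + 1 + 1 = 2 + la := by ring
  have hM' : 2 * (1 * la + 1) - la ≠ 0 := by
    have : 0 < 2 * (1 * la + 1) - la := by linarith
    exact this.ne'
  have hM : 2 * (1 * la + 1) ≠ 0 := by
    have : 0 < 2 * (1 * la + 1) := by linarith
    exact this.ne'
  have hM2 : 1 * la + 1 + 1 ≠ 0 := by
    have : 0 < 1 * la + 1 + 1 := by linarith
    exact this.ne'
  refine ⟨{ th := fun k => if k = 0 then 0 else la / (1 + 2 * la)
            ka := fun _ => 0
            T := fun k => if k = 0 then 0 else 1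
            be := fun k => if k = 0 then 0 else la / (1 + 2 * la)
            P := fun k z u c => if k = 0 then 0 else
              - termS l (1 * la + 1) (la / (1 + 2 * la)) 0 1 (la / (1 + 2 * la))
                (1 - la / (1 + 2 * la) / (2 * (1 * la + 1))
                  - (1 * la + 1 - la / (1 + 2 * la)) / (1 * la + 1 + 1)) z u c
            th0 := by simp
            ka0 := rfl
            T0 := by simp
            be0 := by simp
            P0 := by simp
            hA := ?_
            htau := ?_
            hb := ?_
            hrho := ?_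
            hmu := ?_
            hnu := ?_
            hP := ?_
            hthN := ?_
            hTN := ?_
            hbeN := ?_
            hmuN := ?_
            ha := ?_
            hstep := ?_
            hterm := ?_ }⟩
  · intro k hk; obtain rfl := k0 k hk
    simp only [if_true, zero_add, one_ne_zero, if_false]; positivity
  · intro k hk; obtain rfl := k0 k hk
    simp only [if_true, zero_add, one_ne_zero, if_false]; positivity
  · intro k hk; obtain rfl := k0 k hk
    simp only [if_true, zero_add, one_ne_zero, if_false]; positivity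
  · intro k hk; obtain rfl := k0 k hk
    simp only [zero_add, one_ne_zero, if_false, Nat.cast_one, Nat.cast_zero]
    rw [div_mul_eq_mul_div, div_le_iff₀ p1]; nlinarith
  · intro k hk; obtain rfl := k0 k hk
    simp only [if_true, zero_add, one_ne_zero, if_false, Nat.cast_one, Nat.cast_zero, zero_mul,
      sub_zero]
    have e : phiS (2 * (1 * la + 1) - la) (la / (1 + 2 * la)) 0 1 (la / (1 + 2 * la))
        - phiS (2 * (1 * la + 1)) 0 0 0 0 + 1 / (2 * (1 * la + 1))
        + la / (1 + 2 * la) / (2 * (1 * la + 1))
        = la * (2 * la ^ 2 + 3 * la + 3) / ((1 + 2 * la) * (2 * (1 * la + 1) - la)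
          * (2 * (1 * la + 1))) := by
      unfold phiS
      rw [e1, e2]
      field_simp
      ring
    rw [e]
    have : 0 < 2 * (1 * la + 1) - la := by linarith
    positivity
  · intro k hk; obtain rfl := k0 k hk
    simp only [zero_add, one_ne_zero, if_false, Nat.cast_one, Nat.cast_zero, zero_mul,
      sub_zero]
    have e : la - 1 - la / (1 + 2 * la) - 2 * (1 * la + 1) *
        phiS (2 * (1 * la + 1) - la) (la / (1 + 2 * la)) 0 1 (la / (1 + 2 * la))
        = la * (2 * la - 1) / ((1 + 2 * la) * (2 * (1 * la + 1) - la)) := by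
      unfold phiS
      rw [e1, e2]
      field_simp
      ring
    rw [e]
    have : 0 < 2 * (1 * la + 1) - la := by linarith
    have : 0 ≤ 2 * la - 1 := by linarith
    positivity
  · intro k hk; obtain rfl := k0 k hk
    simp only [zero_add, one_ne_zero, if_false, Nat.cast_one, Nat.cast_zero, zero_mul,
      sub_zero]
    have e : la * phiS (2 * (1 * la + 1) - la) (la / (1 + 2 * la)) 0 1 (la / (1 + 2 * la))
        + (la - 1 - la / (1 + 2 * la) - 2 * (1 * la + 1) *
        phiS (2 * (1 * la + 1) - la) (la / (1 + 2 * la)) 0 1 (la / (1 + 2 * la)))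
        = la * (la - 1) * (la + 2) / ((1 + 2 * la) * (2 * (1 * la + 1) - la)) := by
      unfold phiS
      rw [e1, e2]
      field_simp
      ring
    rw [e]
    have : 0 < 2 * (1 * la + 1) - la := by linarith
    have : 0 ≤ la - 1 := by linarith
    positivity
  · simp only [one_ne_zero, if_false]; rw [div_le_one p1]; linarith
  · simp only [one_ne_zero, if_false]; norm_num
  · simp only [one_ne_zero, if_false, Nat.cast_one]; rw [div_le_iff₀ p1]; nlinarith
  · simp only [one_ne_zero, if_false, add_zero, sub_nonneg]; rw [div_le_one p1]; linarith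
  · simp only [Finset.range_one, Finset.sum_singleton, zero_add, one_ne_zero, if_false, if_true,
      Nat.cast_one, Nat.cast_zero, zero_mul, sub_zero]
    have e : 1 - la / (1 + 2 * la) / (2 * (1 * la + 1))
        - (1 * la + 1 - la / (1 + 2 * la)) / (1 * la + 1 + 1)
        = (2 + 6 * la + 5 * la ^ 2) / ((1 + 2 * la) * (2 * (1 * la + 1)) * (1 * la + 1 + 1)) := by
      field_simp
      ring
    rw [e]
    positivity
  · intro k hk z u de h c; obtain rfl := k0 k hk
    simp only [zero_add, one_ne_zero, if_false, if_true, Nat.cast_one, Nat.cast_zero, zero_mul,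
      sub_zero]
    have hq := hQ u (u + de) c
    have key : termS l (1 * la + 1) (la / (1 + 2 * la)) 0 1 (la / (1 + 2 * la))
                (1 - la / (1 + 2 * la) / (2 * (1 * la + 1))
                  - (1 * la + 1 - la / (1 + 2 * la)) / (1 * la + 1 + 1))
                (2 * (1 * la + 1) / (2 * (1 * la + 1) - la) * z
                  - de / (2 * (1 * la + 1) - la) - h) (u + de) c
        + stepS la l 0 (2 * (1 * la + 1)) 0 0 0 0 (la / (1 + 2 * la)) 0 1 (la / (1 + 2 * la))
            z u de h c
        = ((2 * (1 + la) / (2 + la) * z - de / (2 + la) - h)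
            + ((la - 1) * (la / (1 + 2 * la)) * (2 * (1 + la) / (2 + la)) * z + la / (2 + la) * u
              + (1 - la / (2 + la)) * (u + de) - c) / 2) ^ 2
          + (1 + la - la * la) * (la * (1 + la) / (1 + 2 * la) ^ 2)
            * (z + (1 + 2 * la) / (2 * (1 + la) * (2 + la)) * (u - c)) ^ 2
          + qfR (n2rows 2 3 4 5 6 la l) [u, u + de, c]
            / (4 * (1 + 2 * la) * (1 + la) * (2 + la) ^ 2) := by
      simp only [n2rows, qf3]
      unfold termS stepS phiS
      rw [e1, e2, e3]
      field_simp
      ring
    have hpos : 0 ≤ (1 + la - la * la) * (la * (1 + la) / (1 + 2 * la) ^ 2)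
            * (z + (1 + 2 * la) / (2 * (1 + la) * (2 + la)) * (u - c)) ^ 2 := by positivity
    have hdiv := div_nonneg hq (show 0 ≤ 4 * (1 + 2 * la) * (1 + la) * (2 + la) ^ 2 by positivity)
    have hsq := sq_nonneg ((2 * (1 + la) / (2 + la) * z - de / (2 + la) - h)
            + ((la - 1) * (la / (1 + 2 * la)) * (2 * (1 + la) / (2 + la)) * z + la / (2 + la) * u
              + (1 - la / (2 + la)) * (u + de) - c) / 2)
    linarith
  · intro z u c
    simp only [one_ne_zero, if_false, Finset.range_one, Finset.sum_singleton, zero_add, if_true,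
      Nat.cast_one, Nat.cast_zero, zero_mul, sub_zero]
    linarith

end Pool.Agent.helper73.DRS
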