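import Pool.Agent.helper73.DRS.Chk
import Pool.Agent.helper73.DRS.Core

/-! The quadratic forms of the steps, cleared of denominators, over any type with `+, -, *`. -/

namespace Pool.Agent.helper73.DRS

/-- coefficients of a potential in `z², zu, u², zc, uc, c²` -/
structure Pot (α : Type) where
  zz : α
  zu : α
  uu : α
  zc : α
  uc : α
  cc : α

/-- value of a potential -/
noncomputable def potR (N : Pot ℝ) (z u c : ℝ) : ℝ :=
  N.zz * z ^ 2 + N.zu * (z * u) + N.uu * u ^ 2 + N.zc * (z * c) + N.uc * (u * c) + N.cc * c ^ 2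

/-- data of a step: `θ' = a1/D`, `θ = a0/Dm`, `κ' = k1/(D M1)`, `κ = k0/(Dm M)`, `T' = T1/D`,
`T = T0/Dm`, `β' = b1/D`, `β = b0/Dm`, potentials `N0/(Dm W)` and `N1/(D W)`. -/
structure StepIn (α : Type) where
  la : α
  x : α
  M : α
  M1 : α
  D : α
  Dm : α
  a1 : α
  a0 : α
  k1 : α
  k0 : α
  T1 : α
  T0 : α
  b1 : α
  b0 : α
  iL : α
  W : α
  N0 : Pot α
  N1 : Pot α

/-- data of the last iteration: `θ = a0/D`, `κ = k0/(D S1)`, `T = T0/D`, `β = b0/D`,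
`a = aN/(S1 V)`, potential `N/D`. -/
structure TermIn (α : Type) where
  S : α
  S1 : α
  D : α
  a0 : α
  k0 : α
  T0 : α
  b0 : α
  V : α
  aN : α
  iL : α
  N : Pot α

section generic

variable {α : Type} [Add α] [Sub α] [Mul α] [OfNat α 0] [OfNat α 1] [OfNat α 2]

/-- rows of the step form, without potentials -/
def stepB (la x M M1 D Dm a1 k1 b1 iL W Th1 AD TD bD phN ph0 M11 DmMW : α) : List (List α) :=
  [[W * (M * M * M1) * (AD * M1 - la * Dm * (D - a1)), la * (Th1 - D) * DmMW,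
      (0 - la) * (k1 + a1) * DmMW * M, 0, (0 - la) * b1 * DmMW],
    [W * (la * (Th1 - D) * Dm * M1 + TD * M11)
        + iL * W * (phN * Dm * M1 * M - ph0 * D * M11 + 2 * TD * M11), 0, 0,
      (0 - iL) * bD * M11 * W],
    [la * DmMW * (iL * (la * phN + 2 * ((x * D - Th1) * M1 - M * phN)) + 2 * (k1 * M - a1 * M1)
        + la * (Th1 + a1)), la * la * a1 * M1 * DmMW, la * b1 * DmMW],
    [((1 - la) * la * la * a1 + (2 - la) * la * (x * D - a1 * (M - 1))) * M1 * DmMW, 0],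
    [iL * bD * M11 * W]]

/-- rows of the potential difference -/
def stepP (la M M1 : α) (N0 N1 : Pot α) (M11 K0 K1 : α) : List (List α) :=
  [[2 * N0.zz * K0 - 2 * K1 * N1.zz * M * M,
      N0.zu * K0 - K1 * N1.zu * M * M1,
      K1 * (2 * N1.zz * M * la - N1.zu * M * la * M1),
      K1 * (2 * N1.zz * M * la * M1),
      N0.zc * K0 - K1 * N1.zc * M * M1],
    [2 * N0.uu * K0 - 2 * K1 * N1.uu * M11,
      K1 * (la * N1.zu * M1 - 2 * N1.uu * la * M11),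
      K1 * (N1.zu * la * M11),
      N0.uc * K0 - K1 * N1.uc * M11],
    [2 * K1 * (N1.zu * la * la * M1 - N1.zz * la * la - N1.uu * la * la * M11),
      K1 * (N1.zu * la * la * M11 - 2 * N1.zz * la * la * M1),
      K1 * (N1.zc * la * M1 - N1.uc * la * M11)],
    [(0 - 2) * K1 * N1.zz * la * la * M11, K1 * (N1.zc * la * M11)],
    [2 * N0.cc * K0 - 2 * K1 * N1.cc * M11]]

/-- entrywise sum -/
def addRows (A B : List (List α)) : List (List α) :=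
  List.zipWith (fun r s => List.zipWith (fun a b => a + b) r s) A B

/-- rows of the full step form -/
def stepE (I : StepIn α) : List (List α) :=
  addRows (stepB I.la I.x I.M I.M1 I.D I.Dm I.a1 I.k1 I.b1 I.iL I.W (I.T1 + I.b1)
      (I.a1 * I.Dm - I.a0 * I.D) ((I.T1 + I.b1) * I.Dm - (I.T0 + I.b0) * I.D)
      (I.b1 * I.Dm - I.b0 * I.D) (I.a1 * I.M1 - I.k1 - (I.T1 + I.b1))
      (I.a0 * I.M - I.k0 - (I.T0 + I.b0)) (I.M1 * I.M1) (I.Dm * I.W * I.M1 * I.M))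
    (stepP I.la I.M I.M1 I.N0 I.N1 (I.M1 * I.M1) (I.D * (I.M1 * I.M1) * I.M) (I.Dm * I.M))

/-- sign conditions of a step -/
def stepC (I : StepIn α) : List α :=
  [I.a1 * I.Dm - I.a0 * I.D, I.T1 * I.Dm - I.T0 * I.D, I.b1 * I.Dm - I.b0 * I.D,
    I.x * I.D - I.a1 * (I.M - 1),
    (I.a1 * I.M1 - I.k1 - (I.T1 + I.b1)) * I.Dm * I.M
      - (I.a0 * I.M - I.k0 - (I.T0 + I.b0)) * I.D * I.M1
      + (I.T1 * I.Dm - I.T0 * I.D) * I.M1 + (I.b1 * I.Dm - I.b0 * I.D) * I.M1,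
    (I.x * I.D - (I.T1 + I.b1)) * I.M1 - I.M * (I.a1 * I.M1 - I.k1 - (I.T1 + I.b1)),
    I.la * (I.a1 * I.M1 - I.k1 - (I.T1 + I.b1)) + ((I.x * I.D - (I.T1 + I.b1)) * I.M1
      - I.M * (I.a1 * I.M1 - I.k1 - (I.T1 + I.b1))),
    I.D - 1, I.Dm - 1, I.W - 1, I.M1 - 1]

/-- rows of the last form -/
def termE (J : TermIn α) : List (List α) :=
  [[J.S1 * J.S1 * (J.D - J.a0) * J.V + 2 * J.N.zz * J.S1 * J.V,
      J.S1 * J.D * J.V + J.N.zu * J.S1 * J.V, J.N.zc * J.S1 * J.V - J.S1 * J.D * J.V],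
    [(J.D - J.T0 - J.b0) * J.V + J.iL * ((J.D - J.a0) * J.S1 + J.k0 + (J.D - J.T0)) * J.V
        + J.iL * (J.S * J.D - J.b0) * J.V + 2 * J.N.uu * J.S1 * J.V,
      J.N.uc * J.S1 * J.V - J.iL * (J.S * J.D - J.b0) * J.V],
    [J.iL * (J.S * J.D - J.b0) * J.V + J.iL * J.aN * J.D + 2 * J.N.cc * J.S1 * J.V]]

/-- sign conditions of the last iteration -/
def termC (J : TermIn α) : List α :=
  [J.D - J.a0, J.D - J.T0, J.S * J.D - J.b0, (J.D - J.a0) * J.S1 + J.k0, J.aN, J.D - 1, J.V - 1,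
    J.S1 - 1, J.iL]

/-- congruence of a `5 × 5` form by a diagonal -/
def scl5 (f0 f1 f2 f3 f4 : α → α) : List (List α) → List (List α)
  | [[a00, a01, a02, a03, a04], [a11, a12, a13, a14], [a22, a23, a24], [a33, a34], [a44]] =>
    [[f0 (f0 a00), f1 (f0 a01), f2 (f0 a02), f3 (f0 a03), f4 (f0 a04)],
      [f1 (f1 a11), f2 (f1 a12), f3 (f1 a13), f4 (f1 a14)],
      [f2 (f2 a22), f3 (f2 a23), f4 (f2 a24)],
      [f3 (f3 a33), f4 (f3 a34)], [f4 (f4 a44)]]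
  | m => m

/-- congruence of a `3 × 3` form by a diagonal -/
def scl3 (f0 f1 f2 : α → α) : List (List α) → List (List α)
  | [[a00, a01, a02], [a11, a12], [a22]] =>
    [[f0 (f0 a00), f1 (f0 a01), f2 (f0 a02)], [f1 (f1 a11), f2 (f1 a12)], [f2 (f2 a22)]]
  | m => m

end generic

theorem qf5 (a00 a01 a02 a03 a04 a11 a12 a13 a14 a22 a23 a24 a33 a34 a44 z u d h c : ℝ) :
    qfR [[a00, a01, a02, a03, a04], [a11, a12, a13, a14], [a22, a23, a24], [a33, a34], [a44]]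
      [z, u, d, h, c] = a00 * z ^ 2 + 2 * z * (a01 * u + a02 * d + a03 * h + a04 * c)
      + a11 * u ^ 2 + 2 * u * (a12 * d + a13 * h + a14 * c)
      + a22 * d ^ 2 + 2 * d * (a23 * h + a24 * c) + a33 * h ^ 2 + 2 * h * (a34 * c)
      + a44 * c ^ 2 := by
  simp only [qfR, rowR, dotR]
  ring

theorem qf3 (a00 a01 a02 a11 a12 a22 z u c : ℝ) :
    qfR [[a00, a01, a02], [a11, a12], [a22]] [z, u, c] = a00 * z ^ 2
      + 2 * z * (a01 * u + a02 * c) + a11 * u ^ 2 + 2 * u * (a12 * c) + a22 * c ^ 2 := by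
  simp only [qfR, rowR, dotR]
  ring

theorem stepB_eq (la x M M1 D Dm a1 a0 k1 k0 T1 T0 b1 b0 iL W z u d h c : ℝ) (hla : la ≠ 0)
    (hM : M ≠ 0) (hM1 : M - la ≠ 0) (hD : D ≠ 0) (hDm : Dm ≠ 0) (hM' : M1 = M - la) :
    qfR (stepB la x M M1 D Dm a1 k1 b1 iL W (T1 + b1) (a1 * Dm - a0 * D)
        ((T1 + b1) * Dm - (T0 + b0) * D) (b1 * Dm - b0 * D) (a1 * M1 - k1 - (T1 + b1))
        (a0 * M - k0 - (T0 + b0)) (M1 * M1) (Dm * W * M1 * M)) [z, u, d, h, c]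
      = 2 * D * Dm * M1 ^ 2 * M * W * stepS la iL (x - la) M (a0 / Dm) (k0 / (Dm * M)) (T0 / Dm)
          (b0 / Dm) (a1 / D) (k1 / (D * (M - la))) (T1 / D) (b1 / D) z u (la * d) (la * h) c := by
  subst hM'
  unfold stepB
  rw [qf5]
  unfold stepS phiS
  field_simp
  ring

theorem stepP_eq (la M M1 D Dm W : ℝ) (N0 N1 : Pot ℝ) (z u d h c : ℝ)
    (hM1 : M - la ≠ 0) (hD : D ≠ 0) (hDm : Dm ≠ 0) (hW : W ≠ 0) (hM' : M1 = M - la) :
    qfR (stepP la M M1 N0 N1 (M1 * M1) (D * (M1 * M1) * M) (Dm * M)) [z, u, d, h, c]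
      = 2 * D * Dm * M1 ^ 2 * M * W * (potR N0 z u c / (Dm * W)
        - potR N1 (M / (M - la) * z - la * d / (M - la) - la * h) (u + la * d) c / (D * W)) := by
  subst hM'
  unfold stepP
  rw [qf5]
  unfold potR
  field_simp
  ring

theorem qf_addRows (a00 a01 a02 a03 a04 a11 a12 a13 a14 a22 a23 a24 a33 a34 a44
    b00 b01 b02 b03 b04 b11 b12 b13 b14 b22 b23 b24 b33 b34 b44 z u d h c : ℝ) :
    qfR (addRows
      [[a00, a01, a02, a03, a04], [a11, a12, a13, a14], [a22, a23, a24], [a33, a34], [a44]]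
      [[b00, b01, b02, b03, b04], [b11, b12, b13, b14], [b22, b23, b24], [b33, b34], [b44]])
      [z, u, d, h, c]
    = qfR [[a00, a01, a02, a03, a04], [a11, a12, a13, a14], [a22, a23, a24], [a33, a34], [a44]]
      [z, u, d, h, c]
    + qfR [[b00, b01, b02, b03, b04], [b11, b12, b13, b14], [b22, b23, b24], [b33, b34], [b44]]
      [z, u, d, h, c] := by
  simp only [addRows, List.zipWith_cons_cons, List.zipWith_nil_right, qf5]
  ring

theorem stepE_eq (I : StepIn ℝ) (z u d h c : ℝ) (hla : I.la ≠ 0)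
    (hM : I.M ≠ 0) (hM1 : I.M - I.la ≠ 0) (hD : I.D ≠ 0) (hDm : I.Dm ≠ 0) (hW : I.W ≠ 0)
    (hM' : I.M1 = I.M - I.la) :
    qfR (stepE I) [z, u, d, h, c] = 2 * I.D * I.Dm * I.M1 ^ 2 * I.M * I.W *
      (potR I.N0 z u c / (I.Dm * I.W) + stepS I.la I.iL (I.x - I.la) I.M (I.a0 / I.Dm)
          (I.k0 / (I.Dm * I.M)) (I.T0 / I.Dm) (I.b0 / I.Dm) (I.a1 / I.D)
          (I.k1 / (I.D * (I.M - I.la))) (I.T1 / I.D) (I.b1 / I.D) z u (I.la * d) (I.la * h) c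
        - potR I.N1 (I.M / (I.M - I.la) * z - I.la * d / (I.M - I.la) - I.la * h) (u + I.la * d) c
            / (I.D * I.W)) := by
  have h1 := stepB_eq I.la I.x I.M I.M1 I.D I.Dm I.a1 I.a0 I.k1 I.k0 I.T1 I.T0 I.b1 I.b0 I.iL I.W
    z u d h c hla hM hM1 hD hDm hM'
  have h2 := stepP_eq I.la I.M I.M1 I.D I.Dm I.W I.N0 I.N1 z u d h c hM1 hD hDm hW hM'
  have h3 : qfR (stepE I) [z, u, d, h, c]
      = qfR (stepB I.la I.x I.M I.M1 I.D I.Dm I.a1 I.k1 I.b1 I.iL I.W (I.T1 + I.b1)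
      (I.a1 * I.Dm - I.a0 * I.D) ((I.T1 + I.b1) * I.Dm - (I.T0 + I.b0) * I.D)
      (I.b1 * I.Dm - I.b0 * I.D) (I.a1 * I.M1 - I.k1 - (I.T1 + I.b1))
      (I.a0 * I.M - I.k0 - (I.T0 + I.b0)) (I.M1 * I.M1) (I.Dm * I.W * I.M1 * I.M)) [z, u, d, h, c]
      + qfR (stepP I.la I.M I.M1 I.N0 I.N1 (I.M1 * I.M1) (I.D * (I.M1 * I.M1) * I.M) (I.Dm * I.M))
        [z, u, d, h, c] :=
    qf_addRows _ _ _ _ _ _ _ _ _ _ _ _ _ _ _ _ _ _ _ _ _ _ _ _ _ _ _ _ _ _ _ _ _ _ _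
  rw [h3, h1, h2]
  ring

theorem termE_eq (J : TermIn ℝ) (z u c : ℝ) (hD : J.D ≠ 0) (hS1 : J.S + 1 ≠ 0) (hV : J.V ≠ 0)
    (h1 : J.S1 = J.S + 1) :
    qfR (termE J) [z, u, c] = 2 * J.S1 * J.D * J.V *
      (potR J.N z u c / J.D + termS J.iL J.S (J.a0 / J.D) (J.k0 / (J.D * J.S1)) (J.T0 / J.D)
        (J.b0 / J.D) (J.aN / (J.S1 * J.V)) z u c) := by
  unfold termE
  rw [qf3]
  unfold potR termS
  rw [h1]
  field_simp
  ring

theorem scl5_eq (s0 s1 s2 s3 s4 : ℝ)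
    (a00 a01 a02 a03 a04 a11 a12 a13 a14 a22 a23 a24 a33 a34 a44 z u d h c : ℝ) :
    qfR (scl5 (fun a => a * s0) (fun a => a * s1) (fun a => a * s2) (fun a => a * s3)
      (fun a => a * s4) [[a00, a01, a02, a03, a04], [a11, a12, a13, a14], [a22, a23, a24],
        [a33, a34], [a44]]) [z, u, d, h, c]
      = qfR [[a00, a01, a02, a03, a04], [a11, a12, a13, a14], [a22, a23, a24], [a33, a34], [a44]]
        [s0 * z, s1 * u, s2 * d, s3 * h, s4 * c] := by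
  simp only [scl5, qf5]
  ring

theorem scl3_eq (s0 s1 s2 : ℝ) (a00 a01 a02 a11 a12 a22 z u c : ℝ) :
    qfR (scl3 (fun a => a * s0) (fun a => a * s1) (fun a => a * s2)
      [[a00, a01, a02], [a11, a12], [a22]]) [z, u, c]
      = qfR [[a00, a01, a02], [a11, a12], [a22]] [s0 * z, s1 * u, s2 * c] := by
  simp only [scl3, qf3]
  ring

end Pool.Agent.helper73.DRS
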