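import Pool.Agent.helper73.DRS.ChkA1
import Pool.Agent.helper73.DRS.ChkA2
import Pool.Agent.helper73.DRS.ChkB1
import Pool.Agent.helper73.DRS.ChkB2

/-! Certificates for `λ ≤ 7/5` and at least two iterations. -/

namespace Pool.Agent.helper73.DRS

theorem SP.ev_L0 (x t u : ℝ) : SP.L0.ev x t u = 5469181 / 10 ^ 7 := by
  unfold SP.L0; rw [SP.ev_c]; norm_num

theorem SP.ev_id' (x t u : ℝ) (a : SP) : (SP.id' a).ev x t u = a.ev x t u * 1 := by
  rw [mul_one]; rfl

theorem laA_ev (x t u : ℝ) : laA.ev x t u = x := by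
  unfold laA; rw [SP.ev_lin]; push_cast; ring

theorem laB_ev (x t u : ℝ) : laB.ev x t u = 1 + 2 / 5 * x := by
  unfold laB; rw [SP.ev_lin]; push_cast; ring

theorem scA_ev (x t u : ℝ) : scA.ev x t u = t + 3 / 2 + 18 / 5 * x := by
  unfold scA; simp only [SP.ev_add, SP.ev_mul, SP.ev_T, SP.ev_c, laA_ev]; push_cast; ring

theorem scA'_ev (x t u : ℝ) : scA'.ev x t u = u + 127 / 20 := by
  unfold scA'; simp only [SP.ev_add, SP.ev_U, SP.ev_c]; push_cast; ring

theorem scB_ev (x t u : ℝ) : scB.ev x t u = t + 39 / 20 + 153 / 50 * (1 + 2 / 5 * x) := by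
  unfold scB; simp only [SP.ev_add, SP.ev_mul, SP.ev_T, SP.ev_c, laB_ev]; push_cast; ring

/-! ### `1 ≤ λ ≤ 7/5` -/

theorem certB {lam : ℝ} (h1 : 1 ≤ lam) (h2 : lam ≤ 7 / 5) {N : ℕ} (hN : 1 ≤ N) :
    Nonempty (Cert N lam (5469181 / 10 ^ 7) (5469181 / 10 ^ 7)) := by
  set x : ℝ := (lam - 1) * (5 / 2) with hx
  have hx0 : 0 ≤ x := by rw [hx]; nlinarith
  have hx1 : x ≤ 1 := by rw [hx]; linarith
  have hl : 1 + 2 / 5 * x = lam := by rw [hx]; ring
  have hla : ∀ t u, laB.ev x t u = lam := fun t u => by rw [laB_ev, hl]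
  have id0 := fun t u => SP.ev_id' x t u
  refine ab_cert (datB.re lam (5469181 / 10 ^ 7)) hN (by change 0 < lam; linarith)
    (5469181 / 10 ^ 7) ?_ ?_ ?_
  · intro u hu
    have h := stepOK_of_chk cB1 cB2 (x := x) (t := 0) (u := u) hx0 hx1 le_rfl hu
      (id0 0 u) (id0 0 u) (id0 0 u) (id0 0 u) (id0 0 u)
      one_pos one_pos one_pos one_pos one_pos
    unfold sB1 at h
    rw [abStep1_ev] at h
    simp only [SP.ev_add, SP.ev_1, SP.ev_U, hla, SP.ev_L0] at h
    exact h
  · intro t u ht hu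
    have hs : ∀ a : SP, SP.ev x t u ((fun a => a * scB) a)
        = SP.ev x t u a * (t + 39 / 20 + 153 / 50 * (1 + 2 / 5 * x)) := by
      intro a; simp only [SP.ev_mul, scB_ev]
    have hp : 0 < t + 39 / 20 + 153 / 50 * (1 + 2 / 5 * x) := by positivity
    have h := stepOK_of_chk cB6 cB3 (x := x) (t := t) (u := u) hx0 hx1 ht hu
      hs hs (id0 t u) (id0 t u) (id0 t u) hp hp one_pos one_pos one_pos
    unfold sBG at h
    rw [abStepG_ev] at h
    simp only [SP.ev_add, SP.ev_1, SP.ev_U, SP.ev_T, hla, SP.ev_L0] at h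
    exact h
  · intro u hu
    have h := termOK_of_chk cB4 cB5 (x := x) (t := 0) (u := u) hx0 hx1 le_rfl hu
      (id0 0 u) (id0 0 u) (id0 0 u) one_pos one_pos one_pos
    unfold tB at h
    rw [abTerm_ev] at h
    simp only [SP.ev_add, SP.ev_1, SP.ev_U, hla, SP.ev_L0] at h
    exact h

/-! ### `λ ≤ 1` -/

theorem subMul_eq (e : ℝ) (a00 a01 a02 a11 a12 a22 b00 b01 b02 b11 b12 b22 z u c : ℝ) :
    qfR [[a00 - e * b00, a01 - e * b01, a02 - e * b02], [a11 - e * b11, a12 - e * b12],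
      [a22 - e * b22]] [z, u, c]
    = qfR [[a00, a01, a02], [a11, a12], [a22]] [z, u, c]
      - e * qfR [[b00, b01, b02], [b11, b12], [b22]] [z, u, c] := by
  simp only [qf3]; ring

theorem certA {lam : ℝ} (h1 : 0 < lam) (h2 : lam ≤ 1) {N : ℕ} (hN : 1 ≤ N) {iLt : ℝ}
    (hL : 5469181 / 10 ^ 7 ≤ iLt) (hL2 : 0 ≤ 7 * iLt ^ 2 - 2 * iLt - 1) :
    Nonempty (Cert N lam (5469181 / 10 ^ 7) iLt) := by
  have hla : ∀ t u, laA.ev lam t u = lam := fun t u => laA_ev lam t u
  have id0 := fun t u => SP.ev_id' lam t u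
  refine ab_cert (datA.re lam (5469181 / 10 ^ 7)) hN (by change 0 < lam; linarith) iLt ?_ ?_ ?_
  · intro u hu
    have h := stepOK_of_chk cA1 cA2 (x := lam) (t := 0) (u := u) h1.le h2 le_rfl hu
      (id0 0 u) (id0 0 u) (id0 0 u) (id0 0 u) (id0 0 u)
      one_pos one_pos one_pos one_pos one_pos
    unfold sA1 at h
    rw [abStep1_ev] at h
    simp only [SP.ev_add, SP.ev_1, SP.ev_U, hla, SP.ev_L0] at h
    exact h
  · intro t u ht hu
    have hs : ∀ a : SP, SP.ev lam t u ((fun a => a * scA) a)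
        = SP.ev lam t u a * (t + 3 / 2 + 18 / 5 * lam) := by
      intro a; simp only [SP.ev_mul, scA_ev]
    have hp : 0 < t + 3 / 2 + 18 / 5 * lam := by positivity
    have h := stepOK_of_chk cA6 cA3 (x := lam) (t := t) (u := u) h1.le h2 ht hu
      hs hs (id0 t u) (id0 t u) (id0 t u) hp hp one_pos one_pos one_pos
    unfold sAG at h
    rw [abStepG_ev] at h
    simp only [SP.ev_add, SP.ev_1, SP.ev_U, SP.ev_T, hla, SP.ev_L0] at h
    exact h
  · intro u hu
    set t : ℝ := iLt - 5469181 / 10 ^ 7 with ht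
    have ht0 : 0 ≤ t := by rw [ht]; linarith
    have hJ : tA.ev lam t u = abTerm (datA.re lam (5469181 / 10 ^ 7)) iLt (1 + lam + u) := by
      unfold tA
      rw [abTerm_ev]
      simp only [SP.ev_add, SP.ev_1, SP.ev_U, SP.ev_T, hla, SP.ev_L0]
      rw [ht]
      congr 1
      ring
    have e0 : (1 : ℝ) + (datA.re lam (5469181 / 10 ^ 7)).la + u = 1 + lam + u := rfl
    rw [e0, ← hJ]
    refine ⟨?_, fun z v c => ?_⟩
    · rw [← termC_ev]; exact chkC_sound cA5 h1.le h2 ht0 hu
    · have hs : (0 : ℝ) < u + 127 / 20 := by positivity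
      have hq := chkQ_sound cA4 h1.le h2 ht0 hu
        [z, v / (u + 127 / 20), c / (u + 127 / 20)]
      rw [← termE_ev]
      unfold dA at hq
      generalize hE : termE tA = e at hq ⊢
      have hsh : ∃ a00 a01 a02 a11 a12 a22, e = [[a00, a01, a02], [a11, a12], [a22]] :=
        ⟨_, _, _, _, _, _, hE.symm⟩
      obtain ⟨a00, a01, a02, a11, a12, a22, rfl⟩ := hsh
      simp only [scl3, subMul, kA, List.zipWith_cons_cons, List.zipWith_nil_right,
        List.map_cons, List.map_nil, SP.ev_sub, SP.ev_mul, SP.ev_id', scA'_ev] at hq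
      rw [subMul_eq] at hq
      have h5 := scl3_eq 1 (u + 127 / 20) (u + 127 / 20) (a00.ev lam t u) (a01.ev lam t u)
        (a02.ev lam t u) (a11.ev lam t u) (a12.ev lam t u) (a22.ev lam t u) z
        (v / (u + 127 / 20)) (c / (u + 127 / 20))
      simp only [scl3] at h5
      have h6 : qfR [[SP.ev lam t u a00 * 1 * 1, SP.ev lam t u a01 * 1 * (u + 127 / 20),
            SP.ev lam t u a02 * 1 * (u + 127 / 20)],
          [SP.ev lam t u a11 * (u + 127 / 20) * (u + 127 / 20),
            SP.ev lam t u a12 * (u + 127 / 20) * (u + 127 / 20)],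
          [SP.ev lam t u a22 * (u + 127 / 20) * (u + 127 / 20)]]
          [z, v / (u + 127 / 20), c / (u + 127 / 20)]
          = qfR [[a00.ev lam t u, a01.ev lam t u, a02.ev lam t u],
            [a11.ev lam t u, a12.ev lam t u], [a22.ev lam t u]] [z, v, c] := by
        rw [h5, one_mul, mul_div_cancel₀ _ hs.ne', mul_div_cancel₀ _ hs.ne']
      rw [h6] at hq
      have hk : 0 ≤ eA.ev lam t u * qfR
          [[(SP.c 4 0).ev lam t u, (SP.c 1270 2).ev lam t u, (SP.c (-1270) 2).ev lam t u],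
          [((SP.c 1 0 + SP.c 4 0 * (SP.L0 + SP.T))).ev lam t u * (SP.c 403225 4).ev lam t u,
            (SP.L0 + SP.T).ev lam t u * (SP.c (-403225) 4).ev lam t u],
          [(SP.L0 + SP.T).ev lam t u * (SP.c 806450 4).ev lam t u]]
          [z, v / (u + 127 / 20), c / (u + 127 / 20)] := by
        have he : 0 ≤ eA.ev lam t u := by
          unfold eA
          simp only [SP.ev_mul, SP.ev_c, SP.ev_lin]
          have : (0 : ℝ) ≤ 1 - lam := by linarith
          push_cast
          have e7 : (1 + lam * (-1 : ℝ)) / 10 ^ 0 = 1 - lam := by ring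
          rw [e7]
          positivity
        refine mul_nonneg he ?_
        rw [qf3]
        simp only [SP.ev_add, SP.ev_mul, SP.ev_c, SP.ev_T, SP.ev_L0]
        push_cast
        have e8 : 5469181 / 10 ^ 7 + t = iLt := by rw [ht]; ring
        rw [e8]
        have hL0 : 0 < iLt := by
          have : (0 : ℝ) < 5469181 / 10 ^ 7 := by norm_num
          linarith
        generalize v / (u + 127 / 20) = V
        generalize c / (u + 127 / 20) = C
        have e9 : 4 * iLt * (4 / 10 ^ 0 * z ^ 2 + 2 * z * (1270 / 10 ^ 2 * V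
            + -1270 / 10 ^ 2 * C) + (1 / 10 ^ 0 + 4 / 10 ^ 0 * iLt) * (403225 / 10 ^ 4) * V ^ 2
            + 2 * V * (iLt * (-403225 / 10 ^ 4) * C) + iLt * (806450 / 10 ^ 4) * C ^ 2)
            = 4 * iLt * (2 * z + 127 / 20 * (V - C)) ^ 2
            + (127 / 20) ^ 2 * ((4 * iLt * V + (1 - iLt) * C) ^ 2
              + (7 * iLt ^ 2 - 2 * iLt - 1) * C ^ 2) := by ring
        have h10 : 0 ≤ 4 * iLt * (2 * z + 127 / 20 * (V - C)) ^ 2
            + (127 / 20) ^ 2 * ((4 * iLt * V + (1 - iLt) * C) ^ 2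
              + (7 * iLt ^ 2 - 2 * iLt - 1) * C ^ 2) := by positivity
        rw [← e9] at h10
        exact nonneg_of_mul_nonneg_right h10 (by positivity)
      simp only [List.map_cons, List.map_nil]
      linarith

end Pool.Agent.helper73.DRS
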