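import Pool.Agent.helper73.DRS.RegAB
import Pool.Agent.helper73.DRS.ChkC1
import Pool.Agent.helper73.DRS.ChkC2
import Pool.Agent.helper73.DRS.ChkC3
import Pool.Agent.helper73.DRS.ChkC4
import Pool.Agent.helper73.DRS.ChkC5

/-! Certificates for `7/5 ≤ λ ≤ 1.6181` and at least five iterations. -/

namespace Pool.Agent.helper73.DRS

theorem laC_ev (x t u : ℝ) : laC.ev x t u = 7 / 5 + 2181 / 10 ^ 4 * x := by
  unfold laC; rw [SP.ev_lin]; push_cast; ring

theorem scC_ev (x t u : ℝ) : scC.ev x t u = t + 4 * (7 / 5 + 2181 / 10 ^ 4 * x) := by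
  unfold scC; simp only [SP.ev_add, SP.ev_mul, SP.ev_T, SP.ev_c, laC_ev]; push_cast; ring

theorem scC'_ev (x t u : ℝ) : scC'.ev x t u = u + 4 := by
  unfold scC'; simp only [SP.ev_add, SP.ev_U, SP.ev_c]; push_cast; ring

theorem certC {lam : ℝ} (h1 : 7 / 5 ≤ lam) (h2 : lam ≤ 16181 / 10000) {N : ℕ} (hN : 4 ≤ N) :
    Nonempty (Cert N lam (5469181 / 10 ^ 7) (5469181 / 10 ^ 7)) := by
  set x : ℝ := (lam - 7 / 5) * (10 ^ 4 / 2181) with hx
  have hx0 : 0 ≤ x := by
    rw [hx]; exact mul_nonneg (by linarith) (by positivity)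
  have hx1 : x ≤ 1 := by rw [hx]; linarith
  have hl : 7 / 5 + 2181 / 10 ^ 4 * x = lam := by rw [hx]; ring
  have hla : ∀ t u, laC.ev x t u = lam := fun t u => by rw [laC_ev, hl]
  have hlam : 0 < lam := by linarith
  have id0 := fun t u => SP.ev_id' x t u
  have hb := chkC_sound cC3 hx0 hx1 (le_refl (0 : ℝ)) (le_refl (0 : ℝ))
  simp only [CP, CDat.sp, List.map_cons, List.map_nil, SP.ev_sub, SP.ev_pol, hla,
    List.mem_cons, List.not_mem_nil, or_false, forall_eq_or_imp, forall_eq] at hb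
  obtain ⟨hb1, hb2, hb3⟩ := hb
  refine c_cert (datC.re lam (5469181 / 10 ^ 7)) hN hlam hb1 (sub_nonneg.mp hb2)
    (sub_nonneg.mp hb3) ?_ ?_ ?_ ?_ ?_
  · intro u hu
    have h := stepOK_of_chk cC1 cC2 (x := x) (t := 0) (u := u) hx0 hx1 le_rfl hu
      (id0 0 u) (id0 0 u) (id0 0 u) (id0 0 u) (id0 0 u)
      one_pos one_pos one_pos one_pos one_pos
    unfold sC1 CP SC at h
    rw [cStep1_ev] at h
    simp only [SP.ev_add, SP.ev_mul, SP.ev_1, SP.ev_2, SP.ev_U, hla, SP.ev_L0] at h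
    exact h
  · intro u hu
    have h := stepOK_of_chk cC4 cC5 (x := x) (t := 0) (u := u) hx0 hx1 le_rfl hu
      (id0 0 u) (id0 0 u) (id0 0 u) (id0 0 u) (id0 0 u)
      one_pos one_pos one_pos one_pos one_pos
    unfold sC2 CP SC at h
    rw [cStep2_ev] at h
    simp only [SP.ev_add, SP.ev_mul, SP.ev_1, SP.ev_2, SP.ev_U, hla, SP.ev_L0] at h
    exact h
  · intro u hu
    have h := stepOK_of_chk cC6 cC7 (x := x) (t := 0) (u := u) hx0 hx1 le_rfl hu
      (id0 0 u) (id0 0 u) (id0 0 u) (id0 0 u) (id0 0 u)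
      one_pos one_pos one_pos one_pos one_pos
    unfold sC3 CP SC at h
    rw [cStep3_ev] at h
    simp only [SP.ev_add, SP.ev_mul, SP.ev_1, SP.ev_2, SP.ev_U, hla, SP.ev_L0] at h
    exact h
  · intro t u ht hu
    have hs : ∀ a : SP, SP.ev x t u ((fun a => a * scC) a)
        = SP.ev x t u a * (t + 4 * (7 / 5 + 2181 / 10 ^ 4 * x)) := by
      intro a; simp only [SP.ev_mul, scC_ev]
    have hp : 0 < t + 4 * (7 / 5 + 2181 / 10 ^ 4 * x) := by positivity
    have h := stepOK_of_chk cC8 cC9 (x := x) (t := t) (u := u) hx0 hx1 ht hu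
      hs hs (id0 t u) (id0 t u) hs hp hp one_pos one_pos hp
    unfold sCG CP at h
    rw [cStepG_ev] at h
    simp only [SP.ev_add, SP.ev_mul, SP.ev_1, SP.ev_2, SP.ev_U, SP.ev_T, hla, SP.ev_L0] at h
    exact h
  · intro u hu
    have hs : ∀ a : SP, SP.ev x 0 u ((fun a => a * scC') a) = SP.ev x 0 u a * (u + 4) := by
      intro a; simp only [SP.ev_mul, scC'_ev]
    have hp : 0 < u + 4 := by positivity
    have h := termOK_of_chk cC10 cC11 (x := x) (t := 0) (u := u) hx0 hx1 le_rfl hu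
      (id0 0 u) hs hs one_pos hp hp
    unfold tC CP SC at h
    rw [cTerm_ev] at h
    simp only [SP.ev_add, SP.ev_mul, SP.ev_1, SP.ev_2, SP.ev_U, hla, SP.ev_L0] at h
    exact h

end Pool.Agent.helper73.DRS
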