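import Pool.Agent.helper73.DRS.RegC
import Pool.Agent.helper73.DRS.ChkN
import Pool.Agent.helper73.DRS.FamN2

/-! Certificates for `7/5 ≤ λ` below the golden ratio and two, three or four iterations. -/

namespace Pool.Agent.helper73.DRS

open Finset

/-- the remaining form for two iterations, as a polynomial matrix -/
def n2P : List (List SP) := n2rows 2 (SP.c 3 0) (SP.c 4 0) (SP.c 5 0) (SP.c 6 0) laC SP.L0

set_option maxRecDepth 100000 in
theorem cN0 : chkQ 4 0 40 n2P = true := by decide +kernel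

theorem n2P_ev (x t u : ℝ) : n2P.map (fun r => r.map (SP.ev x t u))
    = n2rows 2 3 4 5 6 (laC.ev x t u) (SP.L0.ev x t u) := by
  have h3 : (SP.c 3 0).ev x t u = 3 := by rw [SP.ev_c]; norm_num
  have h4 : (SP.c 4 0).ev x t u = 4 := by rw [SP.ev_c]; norm_num
  have h5 : (SP.c 5 0).ev x t u = 5 := by rw [SP.ev_c]; norm_num
  have h6 : (SP.c 6 0).ev x t u = 6 := by rw [SP.ev_c]; norm_num
  simp only [n2P, n2rows, List.map_cons, List.map_nil, SP.ev_add, SP.ev_sub, SP.ev_mul, SP.ev_0,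
    SP.ev_1, SP.ev_2, h3, h4, h5, h6]

theorem certN2 {lam : ℝ} (h1 : 7 / 5 ≤ lam) (h2 : lam ≤ 16181 / 10000)
    (hg : 0 ≤ 1 + lam - lam * lam) :
    Nonempty (Cert 1 lam (5469181 / 10 ^ 7) (5469181 / 10 ^ 7)) := by
  set x : ℝ := (lam - 7 / 5) * (10 ^ 4 / 2181) with hx
  have hx0 : 0 ≤ x := by
    rw [hx]; exact mul_nonneg (by linarith) (by positivity)
  have hx1 : x ≤ 1 := by rw [hx]; linarith
  have hl : 7 / 5 + 2181 / 10 ^ 4 * x = lam := by rw [hx]; ring
  have hla : ∀ t u, laC.ev x t u = lam := fun t u => by rw [laC_ev, hl]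
  refine n2_cert (by linarith) hg (fun u u1 c => ?_)
  have h := chkQ_sound cN0 hx0 hx1 (le_refl (0 : ℝ)) (le_refl (0 : ℝ)) [u, u1, c]
  rw [n2P_ev, hla, SP.ev_L0] at h
  exact h

set_option linter.unusedSimpArgs false

theorem exDat_ev (x t u : ℝ) (A : ExDat) (S s T0 : SP) (k : ℕ) :
    (A.sp S s T0 k).ev x t u = exStep (laC.ev x t u) (SP.L0.ev x t u) (S.ev x t u) (s.ev x t u)
      (polR (laC.ev x t u) (A.th (k + 1))) (polR (laC.ev x t u) (A.th k))
      (polR (laC.ev x t u) (A.ka (k + 1))) (polR (laC.ev x t u) (A.ka k)) (T0.ev x t u)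
      (polR (laC.ev x t u) (A.be (k + 1))) (polR (laC.ev x t u) (A.be k))
      ((A.P k).re (laC.ev x t u)) ((A.P (k + 1)).re (laC.ev x t u)) := by
  unfold ExDat.sp
  rw [exStep_ev]
  simp only [SP.ev_pol, PotDat.sp_ev]

theorem potZ_re (la : ℝ) : potZ.re la = ⟨0, 0, 0, 0, 0, 0⟩ := by
  simp [potZ, PotDat.re, polR]

theorem certN3 {lam : ℝ} (h1 : 7 / 5 ≤ lam) (h2 : lam ≤ 16181 / 10000) :
    Nonempty (Cert 2 lam (5469181 / 10 ^ 7) (5469181 / 10 ^ 7)) := by
  set x : ℝ := (lam - 7 / 5) * (10 ^ 4 / 2181) with hx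
  have hx0 : 0 ≤ x := by
    rw [hx]; exact mul_nonneg (by linarith) (by positivity)
  have hx1 : x ≤ 1 := by rw [hx]; linarith
  have hl : 7 / 5 + 2181 / 10 ^ 4 * x = lam := by rw [hx]; ring
  have hla : ∀ t u, laC.ev x t u = lam := fun t u => by rw [laC_ev, hl]
  have hlam : 0 < lam := by linarith
  have id0 := SP.ev_id' x 0 0
  have k2 : ∀ k : ℕ, k < 2 → k = 0 ∨ k = 1 := by omega
  refine ex_cert hlam (by norm_num) (fun k => polR lam (datN3.th k))
    (fun k => polR lam (datN3.ka k)) (fun k => polR lam (datN3.be k))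
    (fun k => (datN3.P k).re lam) (by simp [datN3, polR]) (by simp [datN3, polR])
    (by simp [datN3, polR]) ?_
    (exV2 lam (1 + 2 * lam))
    (exA2 lam (1 + 2 * lam) (polR lam (datN3.be 1)) (polR lam (datN3.be 2))) ?_ ?_
  · intro k hk
    rcases k2 k hk with rfl | rfl
    · have h := stepOK_of_chk cN1 cN2 (x := x) (t := 0) (u := 0) hx0 hx1 le_rfl le_rfl
        id0 id0 id0 id0 id0 one_pos one_pos one_pos one_pos one_pos
      unfold sN31 S3 at h
      rw [exDat_ev] at h
      simp only [SP.ev_add, SP.ev_mul, SP.ev_0, SP.ev_1, SP.ev_2, hla, SP.ev_L0] at h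
      have e0 : (datN3.P 0).re lam = ⟨0, 0, 0, 0, 0, 0⟩ := potZ_re lam
      rw [e0] at h
      simp only [if_true, Nat.cast_zero, zero_mul, Nat.cast_ofNat]
      rw [show 2 * lam + 1 = 1 + 2 * lam by ring]
      exact h
    · have h := stepOK_of_chk cN3 cN4 (x := x) (t := 0) (u := 0) hx0 hx1 le_rfl le_rfl
        id0 id0 id0 id0 id0 one_pos one_pos one_pos one_pos one_pos
      unfold sN32 S3 at h
      rw [exDat_ev] at h
      simp only [SP.ev_add, SP.ev_mul, SP.ev_0, SP.ev_1, SP.ev_2, hla, SP.ev_L0] at h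
      simp only [one_ne_zero, if_false, Nat.cast_one, one_mul, Nat.cast_ofNat]
      rw [show 2 * lam + 1 = 1 + 2 * lam by ring]
      exact h
  · have h := termOK_of_chk cN5 cN6 (x := x) (t := 0) (u := 0) hx0 hx1 le_rfl le_rfl
      id0 id0 id0 one_pos one_pos one_pos
    unfold tN3 S3 at h
    rw [exTerm_ev] at h
    simp only [SP.ev_add, SP.ev_sub, SP.ev_mul, SP.ev_0, SP.ev_1, SP.ev_2, hla, SP.ev_L0, exV2,
      exA2, SP.ev_pol, PotDat.sp_ev] at h
    simp only [Nat.cast_ofNat, exV2, exA2]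
    rw [show 2 * lam + 1 = 1 + 2 * lam by ring]
    exact h
  · have hb0 : polR lam (datN3.be 0) = 0 := by simp [datN3, polR]
    simp only [Finset.sum_range_succ, Finset.range_zero, Finset.sum_empty, hb0, zero_add,
      Nat.cast_zero, Nat.cast_one, Nat.cast_ofNat, zero_mul, one_mul, sub_zero, exV2, exA2,
      Nat.reduceAdd]
    generalize polR lam (datN3.be 1) = b1
    generalize polR lam (datN3.be 2) = b2
    refine le_of_eq ?_
    have q1 : 2 * (2 * lam + 1) ≠ 0 := by positivity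
    have q2 : 2 * (2 * lam + 1) - lam = 3 * lam + 2 := by ring
    have q2' : 2 * (1 + 2 * lam) - lam = 3 * lam + 2 := by ring
    rw [q2, q2']
    field_simp
    ring

theorem certN4 {lam : ℝ} (h1 : 7 / 5 ≤ lam) (h2 : lam ≤ 16181 / 10000) :
    Nonempty (Cert 3 lam (5469181 / 10 ^ 7) (5469181 / 10 ^ 7)) := by
  set x : ℝ := (lam - 7 / 5) * (10 ^ 4 / 2181) with hx
  have hx0 : 0 ≤ x := by
    rw [hx]; exact mul_nonneg (by linarith) (by positivity)
  have hx1 : x ≤ 1 := by rw [hx]; linarith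
  have hl : 7 / 5 + 2181 / 10 ^ 4 * x = lam := by rw [hx]; ring
  have hla : ∀ t u, laC.ev x t u = lam := fun t u => by rw [laC_ev, hl]
  have hlam : 0 < lam := by linarith
  have id0 := SP.ev_id' x 0 0
  have k2 : ∀ k : ℕ, k < 3 → k = 0 ∨ k = 1 ∨ k = 2 := by omega
  refine ex_cert hlam (by norm_num) (fun k => polR lam (datN4.th k))
    (fun k => polR lam (datN4.ka k)) (fun k => polR lam (datN4.be k))
    (fun k => (datN4.P k).re lam) (by simp [datN4, polR]) (by simp [datN4, polR])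
    (by simp [datN4, polR]) ?_
    (exV3 lam (1 + (2 * lam + lam)))
    (exA3 lam (1 + (2 * lam + lam)) (polR lam (datN4.be 1)) (polR lam (datN4.be 2))
      (polR lam (datN4.be 3))) ?_ ?_
  · intro k hk
    rcases k2 k hk with rfl | rfl | rfl
    · have h := stepOK_of_chk cN7 cN8 (x := x) (t := 0) (u := 0) hx0 hx1 le_rfl le_rfl
        id0 id0 id0 id0 id0 one_pos one_pos one_pos one_pos one_pos
      unfold sN41 S4 at h
      rw [exDat_ev] at h
      simp only [SP.ev_add, SP.ev_mul, SP.ev_0, SP.ev_1, SP.ev_2, hla, SP.ev_L0] at h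
      have e0 : (datN4.P 0).re lam = ⟨0, 0, 0, 0, 0, 0⟩ := potZ_re lam
      rw [e0] at h
      simp only [if_true, Nat.cast_zero, zero_mul, Nat.cast_ofNat]
      rw [show 3 * lam + 1 = 1 + (2 * lam + lam) by ring]
      exact h
    · have h := stepOK_of_chk cN9 cN10 (x := x) (t := 0) (u := 0) hx0 hx1 le_rfl le_rfl
        id0 id0 id0 id0 id0 one_pos one_pos one_pos one_pos one_pos
      unfold sN42 S4 at h
      rw [exDat_ev] at h
      simp only [SP.ev_add, SP.ev_mul, SP.ev_0, SP.ev_1, SP.ev_2, hla, SP.ev_L0] at h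
      simp only [one_ne_zero, if_false, Nat.cast_one, one_mul, Nat.cast_ofNat]
      rw [show 3 * lam + 1 = 1 + (2 * lam + lam) by ring]
      exact h
    · have h := stepOK_of_chk cN11 cN12 (x := x) (t := 0) (u := 0) hx0 hx1 le_rfl le_rfl
        id0 id0 id0 id0 id0 one_pos one_pos one_pos one_pos one_pos
      unfold sN43 S4 at h
      rw [exDat_ev] at h
      simp only [SP.ev_add, SP.ev_mul, SP.ev_0, SP.ev_1, SP.ev_2, hla, SP.ev_L0] at h
      have e2 : ((2 : ℕ) = 0) = False := by simp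
      simp only [e2, if_false, Nat.cast_ofNat]
      rw [show 3 * lam + 1 = 1 + (2 * lam + lam) by ring]
      exact h
  · have h := termOK_of_chk cN13 cN14 (x := x) (t := 0) (u := 0) hx0 hx1 le_rfl le_rfl
      id0 id0 id0 one_pos one_pos one_pos
    unfold tN4 S4 at h
    rw [exTerm_ev] at h
    simp only [SP.ev_add, SP.ev_sub, SP.ev_mul, SP.ev_0, SP.ev_1, SP.ev_2, hla, SP.ev_L0, exV3,
      exA3, SP.ev_pol, PotDat.sp_ev] at h
    simp only [Nat.cast_ofNat, exV3, exA3]
    rw [show 3 * lam + 1 = 1 + (2 * lam + lam) by ring]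
    exact h
  · have hb0 : polR lam (datN4.be 0) = 0 := by simp [datN4, polR]
    simp only [Finset.sum_range_succ, Finset.range_zero, Finset.sum_empty, hb0, zero_add,
      Nat.cast_zero, Nat.cast_one, Nat.cast_ofNat, zero_mul, one_mul, sub_zero, exV3, exA3,
      Nat.reduceAdd]
    generalize polR lam (datN4.be 1) = b1
    generalize polR lam (datN4.be 2) = b2
    generalize polR lam (datN4.be 3) = b3
    refine le_of_eq ?_
    have q2 : 2 * (3 * lam + 1) - lam = 5 * lam + 2 := by ring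
    have q2' : 2 * (1 + (2 * lam + lam)) - lam = 5 * lam + 2 := by ring
    have q3 : 2 * (3 * lam + 1) - 2 * lam = 2 * (2 * lam + 1) := by ring
    have q3' : 2 * (1 + (2 * lam + lam)) - 2 * lam = 2 * (2 * lam + 1) := by ring
    rw [q2, q2', q3, q3']
    field_simp
    ring

end Pool.Agent.helper73.DRS
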