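import Mathlib

/-! Small certified polynomial arithmetic for kernel evaluation: polynomials in `(ξ, t, τ)` with
decimal coefficients, and a checker for positive semidefiniteness of matrices of such polynomials
on `0 ≤ ξ ≤ 1`, `0 ≤ t`, `0 ≤ τ` (coefficientwise in `t, τ` and in the Bernstein basis in `ξ`). -/

namespace Pool.Agent.helper73.DRS

/-! ### evaluation of coefficient lists -/

/-- evaluation of a coefficient list -/
def evL {α : Type} (ev : α → ℝ) (x : ℝ) : List α → ℝ
  | [] => 0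
  | a :: as => ev a + x * evL ev x as

theorem evL_zero {α : Type} (x : ℝ) : ∀ p : List α, evL (fun _ => 0) x p = 0
  | [] => rfl
  | _ :: as => by simp [evL, evL_zero x as]

theorem evL_mul_left {α : Type} (ev : α → ℝ) (c x : ℝ) :
    ∀ p : List α, evL (fun a => c * ev a) x p = c * evL ev x p
  | [] => by simp [evL]
  | a :: as => by simp only [evL, evL_mul_left ev c x as]; ring

theorem evL_add_fun {α : Type} (e1 e2 : α → ℝ) (x : ℝ) :
    ∀ p : List α, evL (fun a => e1 a + e2 a) x p = evL e1 x p + evL e2 x p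
  | [] => by simp [evL]
  | a :: as => by simp only [evL, evL_add_fun e1 e2 x as]; ring

theorem evL_nonneg {α : Type} {ev : α → ℝ} {x : ℝ} (hx : 0 ≤ x) :
    ∀ p : List α, (∀ a ∈ p, 0 ≤ ev a) → 0 ≤ evL ev x p
  | [], _ => le_rfl
  | a :: as, h => by
      have h1 := h a (by simp)
      have h2 := evL_nonneg hx as (fun b hb => h b (by simp [hb]))
      simp only [evL]
      positivity

/-! ### one variable -/

def ad1 : List ℤ → List ℤ → List ℤ
  | [], ys => ys
  | x :: xs, [] => x :: xs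
  | x :: xs, y :: ys => Int.add x y :: ad1 xs ys

def sm1 (c : ℤ) : List ℤ → List ℤ
  | [] => []
  | x :: xs => Int.mul c x :: sm1 c xs

def mu1 : List ℤ → List ℤ → List ℤ
  | [], _ => []
  | x :: xs, ys => ad1 (sm1 x ys) (Int.ofNat 0 :: mu1 xs ys)

noncomputable def ev1 (x : ℝ) (p : List ℤ) : ℝ := evL (fun a : ℤ => (a : ℝ)) x p

theorem ev1_nil (x : ℝ) : ev1 x [] = 0 := rfl

theorem ev1_cons (x : ℝ) (a : ℤ) (p : List ℤ) : ev1 x (a :: p) = a + x * ev1 x p := rfl

theorem ev1_ad (x : ℝ) : ∀ p q, ev1 x (ad1 p q) = ev1 x p + ev1 x q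
  | [], ys => by simp [ad1, ev1_nil]
  | a :: as, [] => by simp [ad1, ev1_nil]
  | a :: as, b :: bs => by
      have h : ((Int.add a b : ℤ) : ℝ) = a + b := by
        have : Int.add a b = a + b := rfl
        rw [this]; push_cast; rfl
      simp only [ad1, ev1_cons, ev1_ad x as bs, h]; ring

theorem ev1_sm (x : ℝ) (c : ℤ) : ∀ p, ev1 x (sm1 c p) = c * ev1 x p
  | [] => by simp [sm1, ev1_nil]
  | a :: as => by
      have h : ((Int.mul c a : ℤ) : ℝ) = c * a := by
        have : Int.mul c a = c * a := rfl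
        rw [this]; push_cast; rfl
      simp only [sm1, ev1_cons, ev1_sm x c as, h]; ring

theorem ev1_mu (x : ℝ) : ∀ p q, ev1 x (mu1 p q) = ev1 x p * ev1 x q
  | [], ys => by simp [mu1, ev1_nil]
  | a :: as, ys => by
      have h : ((Int.ofNat 0 : ℤ) : ℝ) = 0 := by simp
      simp only [mu1, ev1_ad, ev1_sm, ev1_cons, ev1_mu x as ys, h]; ring

/-! ### two variables -/

def ad2 : List (List ℤ) → List (List ℤ) → List (List ℤ)
  | [], ys => ys
  | x :: xs, [] => x :: xs
  | x :: xs, y :: ys => ad1 x y :: ad2 xs ys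

def sm2 (c : List ℤ) : List (List ℤ) → List (List ℤ)
  | [] => []
  | x :: xs => mu1 c x :: sm2 c xs

def mu2 : List (List ℤ) → List (List ℤ) → List (List ℤ)
  | [], _ => []
  | x :: xs, ys => ad2 (sm2 x ys) ([] :: mu2 xs ys)

def sc2 (c : ℤ) : List (List ℤ) → List (List ℤ)
  | [] => []
  | x :: xs => sm1 c x :: sc2 c xs

noncomputable def ev2 (x t : ℝ) (p : List (List ℤ)) : ℝ := evL (ev1 x) t p

theorem ev2_nil (x t : ℝ) : ev2 x t [] = 0 := rfl

theorem ev2_cons (x t : ℝ) (a : List ℤ) (p : List (List ℤ)) :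
    ev2 x t (a :: p) = ev1 x a + t * ev2 x t p := rfl

theorem ev2_ad (x t : ℝ) : ∀ p q, ev2 x t (ad2 p q) = ev2 x t p + ev2 x t q
  | [], ys => by simp [ad2, ev2_nil]
  | a :: as, [] => by simp [ad2, ev2_nil]
  | a :: as, b :: bs => by simp only [ad2, ev2_cons, ev2_ad x t as bs, ev1_ad]; ring

theorem ev2_sm (x t : ℝ) (c : List ℤ) : ∀ p, ev2 x t (sm2 c p) = ev1 x c * ev2 x t p
  | [] => by simp [sm2, ev2_nil]
  | a :: as => by simp only [sm2, ev2_cons, ev2_sm x t c as, ev1_mu]; ring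

theorem ev2_sc (x t : ℝ) (c : ℤ) : ∀ p, ev2 x t (sc2 c p) = c * ev2 x t p
  | [] => by simp [sc2, ev2_nil]
  | a :: as => by simp only [sc2, ev2_cons, ev2_sc x t c as, ev1_sm]; ring

theorem ev2_mu (x t : ℝ) : ∀ p q, ev2 x t (mu2 p q) = ev2 x t p * ev2 x t q
  | [], ys => by simp [mu2, ev2_nil]
  | a :: as, ys => by
      simp only [mu2, ev2_ad, ev2_sm, ev2_cons, ev2_mu x t as ys, ev1_nil]; ring

/-! ### three variables -/

def ad3 : List (List (List ℤ)) → List (List (List ℤ)) → List (List (List ℤ))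
  | [], ys => ys
  | x :: xs, [] => x :: xs
  | x :: xs, y :: ys => ad2 x y :: ad3 xs ys

def sm3 (c : List (List ℤ)) : List (List (List ℤ)) → List (List (List ℤ))
  | [] => []
  | x :: xs => mu2 c x :: sm3 c xs

def mu3 : List (List (List ℤ)) → List (List (List ℤ)) → List (List (List ℤ))
  | [], _ => []
  | x :: xs, ys => ad3 (sm3 x ys) ([] :: mu3 xs ys)

def sc3 (c : ℤ) : List (List (List ℤ)) → List (List (List ℤ))
  | [] => []
  | x :: xs => sc2 c x :: sc3 c xs

noncomputable def ev3 (x t u : ℝ) (p : List (List (List ℤ))) : ℝ := evL (ev2 x t) u p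

theorem ev3_nil (x t u : ℝ) : ev3 x t u [] = 0 := rfl

theorem ev3_cons (x t u : ℝ) (a : List (List ℤ)) (p : List (List (List ℤ))) :
    ev3 x t u (a :: p) = ev2 x t a + u * ev3 x t u p := rfl

theorem ev3_ad (x t u : ℝ) : ∀ p q, ev3 x t u (ad3 p q) = ev3 x t u p + ev3 x t u q
  | [], ys => by simp [ad3, ev3_nil]
  | a :: as, [] => by simp [ad3, ev3_nil]
  | a :: as, b :: bs => by simp only [ad3, ev3_cons, ev3_ad x t u as bs, ev2_ad]; ring

theorem ev3_sm (x t u : ℝ) (c : List (List ℤ)) :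
    ∀ p, ev3 x t u (sm3 c p) = ev2 x t c * ev3 x t u p
  | [] => by simp [sm3, ev3_nil]
  | a :: as => by simp only [sm3, ev3_cons, ev3_sm x t u c as, ev2_mu]; ring

theorem ev3_sc (x t u : ℝ) (c : ℤ) : ∀ p, ev3 x t u (sc3 c p) = c * ev3 x t u p
  | [] => by simp [sc3, ev3_nil]
  | a :: as => by simp only [sc3, ev3_cons, ev3_sc x t u c as, ev2_sc]; ring

theorem ev3_mu (x t u : ℝ) : ∀ p q, ev3 x t u (mu3 p q) = ev3 x t u p * ev3 x t u q
  | [], ys => by simp [mu3, ev3_nil]
  | a :: as, ys => by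
      simp only [mu3, ev3_ad, ev3_sm, ev3_cons, ev3_mu x t u as ys, ev2_nil]; ring

/-! ### decimal polynomials -/

/-- a polynomial with coefficients in `10 ^ (-e) ℤ` -/
structure SP where
  p : List (List (List ℤ))
  e : ℕ

namespace SP

/-- value at `(ξ, t, τ) = (x, t, u)` -/
noncomputable def ev (x t u : ℝ) (s : SP) : ℝ := ev3 x t u s.p / 10 ^ s.e

/-- numerator over the common denominator `10 ^ E` -/
def num (E : ℕ) (s : SP) : List (List (List ℤ)) :=
  bif Nat.beq s.e E then s.p else sc3 (Int.ofNat (Nat.pow 10 (Nat.sub E s.e))) s.p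

theorem ev_num (x t u : ℝ) {E : ℕ} {s : SP} (h : s.e ≤ E) :
    ev x t u s = ev3 x t u (num E s) / 10 ^ E := by
  unfold ev num
  cases hb : Nat.beq s.e E with
  | true =>
      have : s.e = E := Nat.eq_of_beq_eq_true hb
      simp [this]
  | false =>
      have hc : ((Int.ofNat (Nat.pow 10 (Nat.sub E s.e)) : ℤ) : ℝ) = 10 ^ (E - s.e) := by
        have h1 : Nat.pow 10 (Nat.sub E s.e) = 10 ^ (E - s.e) := rfl
        rw [h1]; simp
      simp only [cond_false, ev3_sc, hc]
      rw [div_eq_div_iff (by positivity) (by positivity)]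
      have h2 : (10 : ℝ) ^ E = 10 ^ (E - s.e) * 10 ^ s.e := by
        rw [← pow_add]; congr 1; omega
      rw [h2]; ring

def add (a b : SP) : SP :=
  bif Nat.ble a.e b.e then ⟨ad3 (num b.e a) b.p, b.e⟩ else ⟨ad3 a.p (num a.e b), a.e⟩

def mul (a b : SP) : SP := ⟨mu3 a.p b.p, Nat.add a.e b.e⟩

def neg (a : SP) : SP := ⟨sc3 (-1) a.p, a.e⟩

instance : Add SP := ⟨add⟩
instance : Mul SP := ⟨mul⟩
instance : Neg SP := ⟨neg⟩
instance : Sub SP := ⟨fun a b => add a (neg b)⟩
instance (n : ℕ) : OfNat SP n := ⟨⟨[[[Int.ofNat n]]], 0⟩⟩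

variable (x t u : ℝ)

theorem ev_add (a b : SP) : ev x t u (a + b) = ev x t u a + ev x t u b := by
  change ev x t u (add a b) = _
  unfold add
  cases hb : Nat.ble a.e b.e with
  | true =>
      have h : a.e ≤ b.e := Nat.le_of_ble_eq_true hb
      rw [ev_num x t u h]
      simp only [cond_true, ev, ev3_ad]
      ring
  | false =>
      have h : b.e ≤ a.e := by
        by_contra hc
        have h2 : Nat.ble a.e b.e = true := Nat.ble_eq_true_of_le (by omega)
        rw [hb] at h2; exact Bool.noConfusion h2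
      rw [ev_num x t u h]
      simp only [cond_false, ev, ev3_ad]
      ring

theorem ev_mul (a b : SP) : ev x t u (a * b) = ev x t u a * ev x t u b := by
  change ev x t u (mul a b) = _
  unfold mul ev
  have h : Nat.add a.e b.e = a.e + b.e := rfl
  simp only [ev3_mu, h, pow_add]
  rw [div_mul_div_comm]

theorem ev_neg (a : SP) : ev x t u (-a) = - ev x t u a := by
  change ev x t u (neg a) = _
  unfold neg ev
  simp only [ev3_sc]
  push_cast
  ring

theorem ev_sub (a b : SP) : ev x t u (a - b) = ev x t u a - ev x t u b := by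
  change ev x t u (a + (-b)) = _
  rw [ev_add, ev_neg]; ring

theorem ev_ofNat (n : ℕ) : ev x t u (OfNat.ofNat n : SP) = n := by
  change ev x t u ⟨[[[Int.ofNat n]]], 0⟩ = n
  simp [ev, ev3, ev2, ev1, evL]

end SP

end Pool.Agent.helper73.DRS
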